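import Mathlib
import Pool.Agent.H782R3.ES.L1b
import Pool.Agent.H242R3.ES.StmtsN

set_option autoImplicit false

/-! Task N1 of project H242-ES (helper498; adapted from the proof of task L1 by helper782). -/

open MeasureTheory Set Filter Topology
open scoped Classical

namespace H498R3.ESN1

open Pool.Agent.H242R3.ES
open H782R3.ESL1

lemma symm_of_pd {ι : Type} (q : ι → ι → ℝ) (s : Finset ι) (F : ι → ℝ) (hG : (GMq q s F).PosDef) :
    ∀ i k : s, gq q F i k = gq q F k i := by
  intro i k
  have h := hG.isHermitian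
  have h1 := congrFun (congrFun h i) k
  rw [Matrix.conjTranspose_apply, star_trivial] at h1
  exact h1.symm

section
variable {ι : Type}

/-- index of the face -/
def up (s : Finset ι) (j : s) (i : (s.erase (j : ι) : Finset ι)) : s :=
  ⟨i, Finset.mem_of_mem_erase i.2⟩

/-- insertion of the coordinate `j` -/
noncomputable def Phi (s : Finset ι) (j : s)
    (z : ((s.erase (j : ι) : Finset ι) → ℝ) × ℝ) : s → ℝ := fun i =>
  if h : (i : ι) = j then z.2 else z.1 ⟨i, Finset.mem_erase.2 ⟨h, i.2⟩⟩

lemma prod_split {M : Type} [CommMonoid M] (s : Finset ι) (j : s) (f : s → M) :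
    ∏ i, f i = (∏ i : (s.erase (j : ι) : Finset ι), f (up s j i)) * f j := by
  let F : ι → M := fun i => if h : i ∈ s then f ⟨i, h⟩ else 1
  have h1 : ∏ i, f i = ∏ i ∈ s, F i := by
    refine Eq.trans (Finset.prod_congr rfl fun i _ => ?_) (Finset.prod_coe_sort s F)
    simp [F]
  have h2 : ∏ i : (s.erase (j : ι) : Finset ι), f (up s j i) = ∏ i ∈ s.erase (j : ι), F i := by
    refine Eq.trans (Finset.prod_congr rfl fun i _ => ?_) (Finset.prod_coe_sort (s.erase (j : ι)) F)
    have : (i : ι) ∈ s := Finset.mem_of_mem_erase i.2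
    simp [F, up, this]
  have h3 : f j = F j := by simp [F]
  rw [h1, h2, h3, Finset.prod_erase_mul _ _ j.2]

lemma sum_split {M : Type} [AddCommMonoid M] (s : Finset ι) (j : s) (f : s → M) :
    ∑ i, f i = (∑ i : (s.erase (j : ι) : Finset ι), f (up s j i)) + f j := by
  let F : ι → M := fun i => if h : i ∈ s then f ⟨i, h⟩ else 0
  have h1 : ∑ i, f i = ∑ i ∈ s, F i := by
    refine Eq.trans (Finset.sum_congr rfl fun i _ => ?_) (Finset.sum_coe_sort s F)
    simp [F]
  have h2 : ∑ i : (s.erase (j : ι) : Finset ι), f (up s j i) = ∑ i ∈ s.erase (j : ι), F i := by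
    refine Eq.trans (Finset.sum_congr rfl fun i _ => ?_) (Finset.sum_coe_sort (s.erase (j : ι)) F)
    have : (i : ι) ∈ s := Finset.mem_of_mem_erase i.2
    simp [F, up, this]
  have h3 : f j = F j := by simp [F]
  rw [h1, h2, h3, Finset.sum_erase_add _ _ j.2]

lemma Phi_up (s : Finset ι) (j : s) (z : ((s.erase (j : ι) : Finset ι) → ℝ) × ℝ)
    (i : (s.erase (j : ι) : Finset ι)) : Phi s j z (up s j i) = z.1 i := by
  unfold Phi up
  rw [dif_neg (Finset.ne_of_mem_erase i.2)]

lemma Phi_self (s : Finset ι) (j : s) (z : ((s.erase (j : ι) : Finset ι) → ℝ) × ℝ) :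
    Phi s j z j = z.2 := by
  unfold Phi
  rw [dif_pos rfl]

lemma Phi_cases (s : Finset ι) (j : s) (i : s) : i = j ∨ ∃ k, i = up s j k := by
  by_cases h : (i : ι) = j
  · left; exact Subtype.ext h
  · right; exact ⟨⟨i, Finset.mem_erase.2 ⟨h, i.2⟩⟩, rfl⟩

lemma measurable_Phi (s : Finset ι) (j : s) : Measurable (Phi s j) := by
  rw [measurable_pi_iff]
  intro i
  rcases Phi_cases s j i with rfl | ⟨k, rfl⟩
  · simp only [Phi_self]
    exact measurable_snd
  · simp only [Phi_up]
    exact (measurable_pi_apply k).comp measurable_fst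

lemma mp_Phi (s : Finset ι) (j : s) : MeasurePreserving (Phi s j)
    ((volume : Measure ((s.erase (j : ι) : Finset ι) → ℝ)).prod (volume : Measure ℝ)) volume := by
  refine ⟨measurable_Phi s j, ?_⟩
  rw [volume_pi]
  symm
  refine Measure.pi_eq fun S hS => ?_
  rw [Measure.map_apply (measurable_Phi s j) (MeasurableSet.univ_pi hS)]
  have e : Phi s j ⁻¹' (univ.pi S) = (univ.pi fun i => S (up s j i)) ×ˢ S j := by
    ext z
    simp only [mem_preimage, Set.mem_univ_pi, mem_prod]
    constructor
    · intro h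
      refine ⟨fun i => ?_, ?_⟩
      · have := h (up s j i)
        rwa [Phi_up] at this
      · have := h j
        rwa [Phi_self] at this
    · rintro ⟨h1, h2⟩ i
      rcases Phi_cases s j i with rfl | ⟨k, rfl⟩
      · rw [Phi_self]; exact h2
      · rw [Phi_up]; exact h1 k
  rw [e, Measure.prod_prod, Measure.pi_pi, prod_split s j fun i => volume (S i)]

lemma pre_orth (s : Finset ι) (j : s) : Phi s j ⁻¹' (orth s) = (orth (s.erase (j : ι))) ×ˢ Ici 0 := by
  ext z
  simp only [mem_preimage, orth, Set.mem_ofPred_eq, mem_prod, mem_Ici]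
  constructor
  · intro h
    refine ⟨fun i => ?_, ?_⟩
    · have := h (up s j i)
      rwa [Phi_up] at this
    · have := h j
      rwa [Phi_self] at this
  · rintro ⟨h1, h2⟩ i
    rcases Phi_cases s j i with rfl | ⟨k, rfl⟩
    · rw [Phi_self]; exact h2
    · rw [Phi_up]; exact h1 k

lemma measurableSet_orth (s : Finset ι) : MeasurableSet (orth s) := by
  have : orth s = ⋂ i : s, {x : s → ℝ | 0 ≤ x i} := by
    ext x; simp [orth]
  rw [this]
  exact MeasurableSet.iInter fun i => measurableSet_le measurable_const (measurable_pi_apply i)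

lemma hasDerivAt_Phi (s : Finset ι) (j : s) (y : (s.erase (j : ι) : Finset ι) → ℝ) (u : ℝ) (i : s) :
    HasDerivAt (fun u : ℝ => Phi s j (y, u) i) (if i = j then 1 else 0) u := by
  rcases Phi_cases s j i with rfl | ⟨k, rfl⟩
  · simp only [Phi_self, if_true]
    exact hasDerivAt_id u
  · have hne : up s j k ≠ j := by
      intro h
      exact (Finset.ne_of_mem_erase k.2) (congrArg Subtype.val h)
    simp only [Phi_up, if_neg hne]
    exact hasDerivAt_const u (y k)

/-- the derivative of the quadratic form -/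
lemma hasDerivAt_q (q : ι → ι → ℝ) (s : Finset ι) (j : s) (F : ι → ℝ)
    (hsymm : ∀ i k : s, gq q F i k = gq q F k i) (y : (s.erase (j : ι) : Finset ι) → ℝ) (u : ℝ) :
    HasDerivAt (fun u : ℝ => ∑ i : s, ∑ k : s, Phi s j (y, u) i * gq q F i k * Phi s j (y, u) k)
      (2 * ∑ k : s, gq q F j k * Phi s j (y, u) k) u := by
  have h : HasDerivAt (fun u : ℝ => ∑ i : s, ∑ k : s, Phi s j (y, u) i * gq q F i k * Phi s j (y, u) k)
      (∑ i : s, ∑ k : s, ((if i = j then 1 else 0) * gq q F i k * Phi s j (y, u) k +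
        Phi s j (y, u) i * gq q F i k * (if k = j then 1 else 0))) u := by
    refine HasDerivAt.fun_sum fun i _ => HasDerivAt.fun_sum fun k _ => ?_
    exact ((hasDerivAt_Phi s j y u i).mul_const (gq q F i k)).mul (hasDerivAt_Phi s j y u k)
  refine h.congr_deriv ?_
  simp only [Finset.sum_add_distrib]
  have e1 : ∑ i : s, ∑ k : s, (if i = j then (1:ℝ) else 0) * gq q F i k * Phi s j (y, u) k =
      ∑ k : s, gq q F j k * Phi s j (y, u) k := by
    rw [Finset.sum_eq_single j]
    · simp
    · intro i _ hi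
      simp [hi]
    · intro h; exact absurd (Finset.mem_univ _) h
  have e2 : ∑ i : s, ∑ k : s, Phi s j (y, u) i * gq q F i k * (if k = j then (1:ℝ) else 0) =
      ∑ k : s, gq q F j k * Phi s j (y, u) k := by
    refine Finset.sum_congr rfl fun i _ => ?_
    rw [Finset.sum_eq_single j]
    · simp only [if_true, mul_one]
      rw [hsymm i j, mul_comm]
    · intro k _ hk
      simp [hk]
    · intro h; exact absurd (Finset.mem_univ _) h
  rw [e1, e2]; ring

lemma hasDerivAt_g (s : Finset ι) (j : s) (g : ι → ℝ) (y : (s.erase (j : ι) : Finset ι) → ℝ) (u : ℝ) :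
    HasDerivAt (fun u : ℝ => ∑ i : s, g i * Phi s j (y, u) i) (g j) u := by
  have h : HasDerivAt (fun u : ℝ => ∑ i : s, g i * Phi s j (y, u) i)
      (∑ i : s, g i * (if i = j then 1 else 0)) u :=
    HasDerivAt.fun_sum fun i _ => (hasDerivAt_Phi s j y u i).const_mul (g i)
  refine h.congr_deriv ?_
  rw [Finset.sum_eq_single j]
  · simp
  · intro i _ hi
    simp [hi]
  · intro h; exact absurd (Finset.mem_univ _) h

/-- the integrand -/
noncomputable def fj (q : ι → ι → ℝ) (s : Finset ι) (j : s) (F g : ι → ℝ) (x : s → ℝ) : ℝ :=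
  (g j - 2 * Real.pi * ((∑ i : s, g i * x i) * ∑ k : s, gq q F j k * x k)) * exq q s F x

lemma hasDerivAt_h (q : ι → ι → ℝ) (s : Finset ι) (j : s) (F g : ι → ℝ)
    (hsymm : ∀ i k : s, gq q F i k = gq q F k i) (y : (s.erase (j : ι) : Finset ι) → ℝ) (u : ℝ) :
    HasDerivAt (fun u : ℝ => (∑ i : s, g i * Phi s j (y, u) i) * exq q s F (Phi s j (y, u)))
      (fj q s j F g (Phi s j (y, u))) u := by
  have h1 := ((hasDerivAt_q q s j F hsymm y u).const_mul (-Real.pi)).exp
  have h2 := (hasDerivAt_g s j g y u).fun_mul h1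
  refine h2.congr_deriv ?_
  unfold fj exq
  ring

lemma gint_bound (q : ι → ι → ℝ) (s : Finset ι) (F g : ι → ℝ) {c : ℝ} (hc : 0 < c)
    (hcoer : ∀ x : s → ℝ, c * ∑ i, x i ^ 2 ≤ ∑ i : s, ∑ k : s, x i * gq q F i k * x k) (x : s → ℝ) :
    |(∑ i : s, g i * x i) * exq q s F x| ≤ (∑ i : s, |g i|) * (1 + 2 / (Real.pi * c)) *
      Real.exp (-(Real.pi * c / 2) * ∑ i, x i ^ 2) := by
  have hpi := Real.pi_pos
  have h2 : exq q s F x ≤ Real.exp (-(Real.pi * c) * ∑ i, x i ^ 2) := by
    unfold exq
    apply Real.exp_le_exp.2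
    have := hcoer x
    nlinarith
  have h0 : 0 < exq q s F x := Real.exp_pos _
  have hS : 0 ≤ ∑ i : s, |g i| := Finset.sum_nonneg fun i _ => abs_nonneg _
  rw [abs_mul, abs_of_pos h0]
  calc |∑ i : s, g i * x i| * exq q s F x
      ≤ ((∑ i : s, |g i|) * (1 + ∑ i, x i ^ 2)) * Real.exp (-(Real.pi * c) * ∑ i, x i ^ 2) := by
        have h3 := lin_bound (fun i : s => g i) x
        have hN := N_nonneg x
        exact mul_le_mul h3 h2 h0.le (by positivity)
    _ ≤ _ := poly_gauss (by positivity) hS (N_nonneg x)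

lemma integrable_fj (q : ι → ι → ℝ) (s : Finset ι) (j : s) (F g : ι → ℝ) (hG : (GMq q s F).PosDef) :
    Integrable (fj q s j F g) := by
  obtain ⟨c, hc, hcoer⟩ := coercive (GMq q s F) hG
  have hpi := Real.pi_pos
  set M : ℝ := (∑ i : s, |g i|) * ∑ k : s, |gq q F j k| with hM
  have hM0 : 0 ≤ M := mul_nonneg (Finset.sum_nonneg fun i _ => abs_nonneg _)
    (Finset.sum_nonneg fun i _ => abs_nonneg _)
  refine Integrable.mono' ((integrable_gauss (κ := s) (b := Real.pi * c / 2)
    (by positivity)).const_mul ((|g j| + 2 * Real.pi * M) * (1 + 2 / (Real.pi * c)))) ?_ ?_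
  · apply Continuous.aestronglyMeasurable
    unfold fj exq
    fun_prop
  · refine Eventually.of_forall fun x => ?_
    have h2 : exq q s F x ≤ Real.exp (-(Real.pi * c) * ∑ i, x i ^ 2) := by
      unfold exq
      apply Real.exp_le_exp.2
      have := hcoer x
      have e : ∑ i : s, ∑ k : s, x i * GMq q s F i k * x k = ∑ i : s, ∑ k : s, x i * gq q F i k * x k := rfl
      rw [e] at this
      nlinarith
    have h0 : 0 < exq q s F x := Real.exp_pos _
    have hN := N_nonneg x
    have h3 := bil_bound (fun i : s => g i) (fun k : s => gq q F j k) x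
    have h4 : |g j - 2 * Real.pi * ((∑ i : s, g i * x i) * ∑ k : s, gq q F j k * x k)| ≤
        (|g j| + 2 * Real.pi * M) * (1 + ∑ i, x i ^ 2) := by
      refine (abs_sub _ _).trans ?_
      rw [abs_mul (2 * Real.pi), abs_of_pos (show 0 < 2 * Real.pi by positivity)]
      have h5 : 2 * Real.pi * |(∑ i : s, g i * x i) * ∑ k : s, gq q F j k * x k| ≤
          2 * Real.pi * (M * ∑ i, x i ^ 2) := mul_le_mul_of_nonneg_left h3 (by positivity)
      nlinarith [abs_nonneg (g j), mul_nonneg (abs_nonneg (g j)) hN, mul_nonneg hpi.le hM0]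
    show ‖(g j - 2 * Real.pi * ((∑ i : s, g i * x i) * ∑ k : s, gq q F j k * x k)) * exq q s F x‖ ≤ _
    rw [norm_mul, Real.norm_eq_abs, Real.norm_eq_abs, abs_of_pos h0]
    calc _ ≤ ((|g j| + 2 * Real.pi * M) * (1 + ∑ i, x i ^ 2)) *
          Real.exp (-(Real.pi * c) * ∑ i, x i ^ 2) := mul_le_mul h4 h2 h0.le (by positivity)
      _ ≤ _ := poly_gauss (by positivity) (by positivity) hN

end

section
variable {ι : Type}

lemma integrable_ex (q : ι → ι → ℝ) (s : Finset ι) (F : ι → ℝ) (hG : (GMq q s F).PosDef) : Integrable (exq q s F) := by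
  obtain ⟨c, hc, hcoer⟩ := coercive (GMq q s F) hG
  have hpi := Real.pi_pos
  refine Integrable.mono' (integrable_gauss (κ := s) (b := Real.pi * c) (by positivity)) ?_ ?_
  · apply Continuous.aestronglyMeasurable
    unfold exq
    fun_prop
  · refine Eventually.of_forall fun x => ?_
    have h0 : 0 < exq q s F x := Real.exp_pos _
    rw [Real.norm_eq_abs, abs_of_pos h0]
    unfold exq
    apply Real.exp_le_exp.2
    have := hcoer x
    have e : ∑ i : s, ∑ k : s, x i * GMq q s F i k * x k = ∑ i : s, ∑ k : s, x i * gq q F i k * x k := rfl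
    rw [e] at this
    nlinarith

lemma h_zero (q : ι → ι → ℝ) (s : Finset ι) (j : s) (F g : ι → ℝ) (y : (s.erase (j : ι) : Finset ι) → ℝ) :
    (∑ i : s, g i * Phi s j (y, 0) i) * exq q s F (Phi s j (y, 0)) =
      (∑ i : (s.erase (j : ι) : Finset ι), g i * y i) * exq q (s.erase (j : ι)) F y := by
  have e1 : ∑ i : s, g i * Phi s j (y, 0) i = ∑ i : (s.erase (j : ι) : Finset ι), g i * y i := by
    rw [sum_split s j]
    simp only [Phi_up, Phi_self, mul_zero, add_zero]
    rfl
  have e2 : ∑ i : s, ∑ k : s, Phi s j (y, 0) i * gq q F i k * Phi s j (y, 0) k =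
      ∑ i : (s.erase (j : ι) : Finset ι), ∑ k : (s.erase (j : ι) : Finset ι), y i * gq q F i k * y k := by
    rw [sum_split s j]
    simp only [Phi_up, Phi_self, zero_mul, Finset.sum_const_zero, add_zero]
    refine Finset.sum_congr rfl fun i _ => ?_
    rw [sum_split s j]
    simp only [Phi_up, Phi_self, mul_zero, add_zero]
    rfl
  rw [e1]
  unfold exq
  rw [e2]

lemma ibp (q : ι → ι → ℝ) (s : Finset ι) (j : s) (F g : ι → ℝ) (hG : (GMq q s F).PosDef) :
    ∫ x in orth s, fj q s j F g x = - IIq q (s.erase (j : ι)) F g := by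
  have hint := integrable_fj q s j F g hG
  have hmp := mp_Phi s j
  have hcont : Continuous (fj q s j F g) := by
    unfold fj exq
    fun_prop
  have h1 := setIntegral_map (μ := (volume : Measure ((s.erase (j : ι) : Finset ι) → ℝ)).prod
    (volume : Measure ℝ)) (g := Phi s j) (f := fj q s j F g) (measurableSet_orth s)
    hcont.aestronglyMeasurable hmp.measurable.aemeasurable
  rw [hmp.map_eq, pre_orth] at h1
  have hint2 : Integrable (fun z => fj q s j F g (Phi s j z))
      ((volume : Measure ((s.erase (j : ι) : Finset ι) → ℝ)).prod (volume : Measure ℝ)) :=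
    (hmp.integrable_comp hcont.aestronglyMeasurable).2 hint
  rw [h1, setIntegral_prod _ hint2.integrableOn]
  have hae := hint2.prod_right_ae
  obtain ⟨c, hc, hcoer⟩ := coercive (GMq q s F) hG
  have hpi := Real.pi_pos
  have hinner : ∀ᵐ y ∂(volume : Measure ((s.erase (j : ι) : Finset ι) → ℝ)),
      ∫ u in Ici (0:ℝ), fj q s j F g (Phi s j (y, u)) =
        - ((∑ i : (s.erase (j : ι) : Finset ι), g i * y i) * exq q (s.erase (j : ι)) F y) := by
    filter_upwards [hae] with y hy
    rw [integral_Ici_eq_integral_Ioi,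
      integral_Ioi_of_hasDerivAt_of_tendsto' (f := fun u : ℝ => (∑ i : s, g i * Phi s j (y, u) i) *
        exq q s F (Phi s j (y, u))) (m := 0) (fun u _ => hasDerivAt_h q s j F g (symm_of_pd q s F hG) y u) hy.integrableOn ?_,
      zero_sub, h_zero]
    have hb : 0 < Real.pi * c / 2 := by positivity
    have hlim : Tendsto (fun u : ℝ => (∑ i : s, |g i|) * (1 + 2 / (Real.pi * c)) *
        Real.exp (-(Real.pi * c / 2) * u ^ 2)) atTop (𝓝 0) := by
      have h2 : Tendsto (fun u : ℝ => -(Real.pi * c / 2) * u ^ 2) atTop atBot :=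
        (tendsto_pow_atTop two_ne_zero).const_mul_atTop_of_neg (by linarith)
      have h3 := (Real.tendsto_exp_atBot.comp h2).const_mul
        ((∑ i : s, |g i|) * (1 + 2 / (Real.pi * c)))
      rw [mul_zero] at h3
      exact h3
    refine squeeze_zero_norm (fun u => ?_) hlim
    rw [Real.norm_eq_abs]
    refine (gint_bound q s F g hc hcoer _).trans ?_
    refine mul_le_mul_of_nonneg_left ?_ ?_
    · apply Real.exp_le_exp.2
      have h4 := sq_le_N (Phi s j (y, u)) j
      rw [Phi_self] at h4
      nlinarith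
    · have : 0 ≤ ∑ i : s, |g i| := Finset.sum_nonneg fun i _ => abs_nonneg _
      positivity
  have h5 : ∫ y in orth (s.erase (j : ι)), ∫ u in Ici (0:ℝ), fj q s j F g (Phi s j (y, u)) =
      ∫ y in orth (s.erase (j : ι)), -((∑ i : (s.erase (j : ι) : Finset ι), g i * y i) *
        exq q (s.erase (j : ι)) F y) :=
    integral_congr_ae (ae_restrict_of_ae hinner)
  rw [h5, integral_neg]
  rfl

end

theorem t : TaskN1 := by
  intro ι q s F g hG
  have hsymm : ∀ i k : s, gq q F i k = gq q F k i := symm_of_pd q s F hG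
  set G := GMq q s F with hGdef
  set H : Matrix s s ℝ := fun i k => (g i + g k) / 2 with hH
  have hdetpos : 0 < G.det := hG.det_pos
  have hGT : G.transpose = G := by
    ext i k
    exact hsymm k i
  have hGinvT : (G⁻¹).transpose = G⁻¹ := by
    rw [Matrix.transpose_nonsing_inv, hGT]
  -- the vector c
  set c : s → ℝ := G⁻¹.mulVec (fun _ => 1) with hc
  have hGc : G.mulVec c = fun _ => 1 := by
    rw [hc, Matrix.mulVec_mulVec, Matrix.mul_nonsing_inv _ hdetpos.ne'.isUnit, Matrix.one_mulVec]
  have hcG : ∀ x : s → ℝ, ∑ j : s, c j * ∑ k : s, gq q F j k * x k = ∑ k : s, x k := by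
    intro x
    simp only [Finset.mul_sum]
    rw [Finset.sum_comm]
    refine Finset.sum_congr rfl fun k _ => ?_
    have h1 := congrFun hGc k
    have h2 : ∑ j : s, gq q F k j * c j = 1 := h1
    calc ∑ j : s, c j * (gq q F j k * x k) = (∑ j : s, gq q F k j * c j) * x k := by
          rw [Finset.sum_mul]
          refine Finset.sum_congr rfl fun j _ => ?_
          rw [hsymm k j]; ring
      _ = x k := by rw [h2, one_mul]
  have htr : (G⁻¹ * H).trace = ∑ j : s, c j * g j := by
    have e1 : (G⁻¹ * H).trace = ∑ i : s, ∑ k : s, G⁻¹ i k * ((g k + g i) / 2) := by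
      show ∑ i : s, (G⁻¹ * H) i i = _
      refine Finset.sum_congr rfl fun i _ => ?_
      rw [Matrix.mul_apply]
    have e2 : ∑ j : s, c j * g j = ∑ i : s, ∑ k : s, G⁻¹ i k * g i := by
      refine Finset.sum_congr rfl fun i _ => ?_
      rw [hc]
      simp only [Matrix.mulVec, dotProduct, mul_one, Finset.sum_mul]
    have e3 : ∑ i : s, ∑ k : s, G⁻¹ i k * g k = ∑ i : s, ∑ k : s, G⁻¹ i k * g i := by
      rw [Finset.sum_comm]
      refine Finset.sum_congr rfl fun i _ => Finset.sum_congr rfl fun k _ => ?_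
      have : G⁻¹ k i = G⁻¹ i k := congrFun (congrFun hGinvT i) k
      rw [this]
    rw [e1, e2]
    have e4 : ∑ i : s, ∑ k : s, G⁻¹ i k * ((g k + g i) / 2) =
        (1 / 2) * (∑ i : s, ∑ k : s, G⁻¹ i k * g k) + (1 / 2) * ∑ i : s, ∑ k : s, G⁻¹ i k * g i := by
      simp only [Finset.mul_sum, ← Finset.sum_add_distrib]
      refine Finset.sum_congr rfl fun i _ => Finset.sum_congr rfl fun k _ => ?_
      ring
    rw [e4, e3]; ring
  -- the one parameter family
  have hGt : ∀ t : ℝ, GMq q s (fun i => F i + t * g i) = G + t • H := by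
    intro t
    ext i k
    show gq q (fun i => F i + t * g i) i k = gq q F i k + t * ((g i + g k) / 2)
    unfold gq
    ring
  have hext : ∀ (t : ℝ) (x : s → ℝ), exq q s (fun i => F i + t * g i) x =
      Real.exp (-Real.pi * ((∑ i : s, ∑ k : s, x i * G i k * x k) +
        t * ((∑ i : s, g i * x i) * ∑ i : s, (1:ℝ) * x i))) := by
    intro t x
    unfold exq
    congr 2
    have e1 : (∑ i : s, g i * x i) * ∑ i : s, (1:ℝ) * x i =
        ∑ i : s, ∑ k : s, x i * ((g i + g k) / 2) * x k := by
      have a1 : (∑ i : s, g i * x i) * ∑ i : s, (1:ℝ) * x i = ∑ i : s, ∑ k : s, g i * x i * x k := by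
        rw [Finset.sum_mul_sum]
        simp only [one_mul]
      have a2 : (∑ i : s, g i * x i) * ∑ i : s, (1:ℝ) * x i = ∑ i : s, ∑ k : s, g k * x k * x i := by
        rw [a1, Finset.sum_comm]
      have a3 : ∑ i : s, ∑ k : s, x i * ((g i + g k) / 2) * x k =
          (1 / 2) * (∑ i : s, ∑ k : s, g i * x i * x k) + (1 / 2) * ∑ i : s, ∑ k : s, g k * x k * x i := by
        simp only [Finset.mul_sum, ← Finset.sum_add_distrib]
        refine Finset.sum_congr rfl fun i _ => Finset.sum_congr rfl fun k _ => ?_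
        ring
      rw [a3, ← a1, ← a2]; ring
    rw [e1, Finset.mul_sum, ← Finset.sum_add_distrib]
    refine Finset.sum_congr rfl fun i _ => ?_
    rw [Finset.mul_sum, ← Finset.sum_add_distrib]
    refine Finset.sum_congr rfl fun k _ => ?_
    have : gq q (fun i => F i + t * g i) i k = G i k + t * ((g i + g k) / 2) := by
      show gq q (fun i => F i + t * g i) i k = gq q F i k + t * ((g i + g k) / 2)
      unfold gq
      ring
    rw [this]; ring
  -- derivatives
  have hd1 : HasDerivAt (fun t : ℝ => Real.sqrt (GMq q s (fun i => F i + t * g i)).det)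
      (1 / 2 * Real.sqrt G.det * ∑ j : s, c j * g j) 0 := by
    have h1 := det_deriv G H hdetpos.ne'.isUnit
    have h2 := h1.sqrt (by rw [zero_smul, add_zero]; exact hdetpos.ne')
    have e : (fun t : ℝ => Real.sqrt (GMq q s (fun i => F i + t * g i)).det) =
        fun t : ℝ => Real.sqrt (G + t • H).det := by
      funext t; rw [hGt]
    rw [e]
    refine h2.congr_deriv ?_
    rw [zero_smul, add_zero, htr]
    have h3 : Real.sqrt G.det ≠ 0 := (Real.sqrt_pos.2 hdetpos).ne'
    have h4 : Real.sqrt G.det * Real.sqrt G.det = G.det := Real.mul_self_sqrt hdetpos.le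
    rw [div_eq_iff (by positivity)]
    linear_combination (-(∑ j : s, c j * g j)) * h4
  have hd2 : HasDerivAt (fun t : ℝ => ∫ x in orth s, exq q s (fun i => F i + t * g i) x)
      (∫ x in orth s, -Real.pi * ((∑ i : s, g i * x i) * ∑ i : s, (1:ℝ) * x i) *
        Real.exp (-Real.pi * ∑ i : s, ∑ k : s, x i * G i k * x k)) 0 := by
    have h1 := deriv_int G hG (fun i : s => g i) (fun _ : s => (1:ℝ)) (orth s)
    have e : (fun t : ℝ => ∫ x in orth s, exq q s (fun i => F i + t * g i) x) =
        fun t : ℝ => ∫ x in orth s, Real.exp (-Real.pi * ((∑ i : s, ∑ k : s, x i * G i k * x k) +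
        t * ((∑ i : s, g i * x i) * ∑ i : s, (1:ℝ) * x i))) := by
      funext t
      refine integral_congr_ae (Eventually.of_forall fun x => ?_)
      exact hext t x
    rw [e]
    exact h1
  -- the value of the second derivative
  have hA : ∫ x in orth s, -Real.pi * ((∑ i : s, g i * x i) * ∑ i : s, (1:ℝ) * x i) *
        Real.exp (-Real.pi * ∑ i : s, ∑ k : s, x i * G i k * x k) =
      1 / 2 * ((∑ j : s, c j * (- IIq q (s.erase (j : ι)) F g)) -
        (∑ j : s, c j * g j) * ∫ x in orth s, exq q s F x) := by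
    have e : ∀ x : s → ℝ, -Real.pi * ((∑ i : s, g i * x i) * ∑ i : s, (1:ℝ) * x i) *
        Real.exp (-Real.pi * ∑ i : s, ∑ k : s, x i * G i k * x k) =
        1 / 2 * ((∑ j : s, c j * fj q s j F g x) - (∑ j : s, c j * g j) * exq q s F x) := by
      intro x
      have e1 : Real.exp (-Real.pi * ∑ i : s, ∑ k : s, x i * G i k * x k) = exq q s F x := rfl
      have e2 : ∑ j : s, c j * fj q s j F g x = ((∑ j : s, c j * g j) -
          2 * Real.pi * (∑ i : s, g i * x i) * ∑ j : s, c j * ∑ k : s, gq q F j k * x k) * exq q s F x := by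
        unfold fj
        rw [Finset.mul_sum, ← Finset.sum_sub_distrib, Finset.sum_mul]
        refine Finset.sum_congr rfl fun j _ => ?_
        ring
      rw [e1, e2, hcG]
      simp only [one_mul]
      ring
    have hex := integrable_ex q s F hG
    rw [integral_congr_ae (Eventually.of_forall e), integral_const_mul, integral_sub, integral_finsetSum,
      integral_const_mul]
    · congr 2
      refine Finset.sum_congr rfl fun j _ => ?_
      rw [integral_const_mul, ibp q s j F g hG]
    · intro j _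
      exact ((integrable_fj q s j F g hG).restrict).const_mul _
    · exact integrable_finsetSum _ fun j _ => ((integrable_fj q s j F g hG).restrict).const_mul _
    · exact (hex.restrict).const_mul _
  have hfin := hd1.fun_mul hd2
  have e0 : (fun i => F i + 0 * g i) = F := by
    funext i; ring
  simp only [e0] at hfin
  refine hfin.congr_deriv ?_
  rw [hA]
  have hk : ∑ j : s, kapq q s F j * IIq q (s.erase (j : ι)) F g =
      Real.sqrt G.det * ∑ j : s, c j * IIq q (s.erase (j : ι)) F g := by
    rw [Finset.mul_sum]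
    refine Finset.sum_congr rfl fun j _ => ?_
    show Real.sqrt G.det * c j * IIq q (s.erase (j : ι)) F g = _
    ring
  rw [hk]
  simp only [mul_neg, Finset.sum_neg_distrib]
  ring


end H498R3.ESN1
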