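import Pool.Agent.H498R3.GBValue

namespace Pool.Agent.H498R3.GB

open scoped BigOperators ContDiff Topology Matrix
open MeasureTheory Filter Metric

noncomputable section

/-- The standard complex structure of `ℝ^6 = ℂ^3`:
`J x = (-x₁, x₀, -x₃, x₂, -x₅, x₄)`. -/
def J6 : Matrix (Fin 6) (Fin 6) ℝ :=
  !![0, -1, 0, 0, 0, 0;
     1, 0, 0, 0, 0, 0;
     0, 0, 0, -1, 0, 0;
     0, 0, 1, 0, 0, 0;
     0, 0, 0, 0, 0, -1;
     0, 0, 0, 0, 1, 0]

/-- dot product -/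
def dt (u w : V 6) : ℝ := ∑ i, u i * w i

/-- `J` acting on vectors -/
def Jv (u : V 6) : V 6 := fun i => ∑ k, J6 i k * u k

lemma Jv_apply (u : V 6) : Jv u = ![-u 1, u 0, -u 3, u 2, -u 5, u 4] := by
  funext i
  fin_cases i <;> simp [Jv, J6, Fin.sum_univ_six]

lemma dt_comm (u w : V 6) : dt u w = dt w u := by
  unfold dt; exact Finset.sum_congr rfl fun i _ => mul_comm _ _

lemma dt_Jv_right (u w : V 6) : dt u (Jv w) = - dt (Jv u) w := by
  simp [dt, Jv_apply, Fin.sum_univ_six]; ring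

lemma dt_Jv_self (u : V 6) : dt u (Jv u) = 0 := by
  simp [dt, Jv_apply, Fin.sum_univ_six]; ring

lemma dt_Jv_Jv (u w : V 6) : dt (Jv u) (Jv w) = dt u w := by
  simp [dt, Jv_apply, Fin.sum_univ_six]; ring

lemma Jv_Jv (u : V 6) : Jv (Jv u) = -u := by
  rw [Jv_apply (Jv u), Jv_apply u]
  funext i; fin_cases i <;> simp

lemma dt_smul_left (t : ℝ) (u w : V 6) : dt (t • u) w = t * dt u w := by
  simp [dt, Finset.mul_sum, mul_assoc]

lemma dt_smul_right (t : ℝ) (u w : V 6) : dt u (t • w) = t * dt u w := by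
  rw [dt_comm, dt_smul_left, dt_comm]

lemma dt_neg_right (u w : V 6) : dt u (-w) = - dt u w := by
  simp [dt]

lemma Jv_smul (t : ℝ) (u : V 6) : Jv (t • u) = t • Jv u := by
  funext i; simp [Jv, Finset.mul_sum, mul_left_comm]

lemma exists_unit_orth {k : ℕ} (hk : k < 6) (s : Fin k → V 6) :
    ∃ b : V 6, dt b b = 1 ∧ ∀ i, dt b (s i) = 0 := by
  let K : Submodule ℝ (E 6) := Submodule.span ℝ (Set.range fun i => (WithLp.toLp 2 (s i) : E 6))
  have hK : Module.finrank ℝ K ≤ k := by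
    have := finrank_range_le_card (R := ℝ) (fun i => (WithLp.toLp 2 (s i) : E 6))
    simpa [Set.finrank, K] using this
  have hne : Kᗮ ≠ ⊥ := by
    intro h
    have h1 := K.finrank_add_finrank_orthogonal
    rw [h, finrank_bot] at h1
    have : Module.finrank ℝ (E 6) = 6 := by simp
    omega
  obtain ⟨w, hw, hw0⟩ := Submodule.exists_mem_ne_zero_of_ne_bot hne
  have hn : ‖w‖ ≠ 0 := norm_ne_zero_iff.2 hw0
  have hdt : ∀ p q : E 6, dt p.ofLp q.ofLp = inner ℝ q p := by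
    intro p q
    simp [dt, PiLp.inner_apply]
  refine ⟨(‖w‖⁻¹ • w : E 6).ofLp, ?_, fun i => ?_⟩
  · rw [hdt, real_inner_self_eq_norm_sq, norm_smul, norm_inv, norm_norm,
      inv_mul_cancel₀ hn]; norm_num
  · have h2 : inner ℝ (WithLp.toLp 2 (s i) : E 6) w = 0 :=
      (Submodule.mem_orthogonal K w).1 hw _ (Submodule.subset_span ⟨i, rfl⟩)
    have h3 := hdt (‖w‖⁻¹ • w) (WithLp.toLp 2 (s i) : E 6)
    rw [inner_smul_right, h2, mul_zero] at h3
    exact h3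

/-- the adapted frame -/
def frame (v : ℝ) (a b c : V 6) : Fin 6 → V 6 := ![a, v • Jv a, b, Jv b, c, Jv c]

lemma dat_N_eq (h : ℝ → ℝ) (x : E 6) (u w : V 6) : (dat J6 h x).N u w = dt u w := rfl

lemma dat_O_eq (h : ℝ → ℝ) (x : E 6) (u w : V 6) : (dat J6 h x).O u w = dt u (Jv w) := by
  rw [dat_O]; unfold dt Jv
  refine Finset.sum_congr rfl fun i _ => ?_
  rw [Finset.mul_sum]
  exact Finset.sum_congr rfl fun j _ => by ring

lemma dat_X_eq (h : ℝ → ℝ) (x : E 6) (u : V 6) : (dat J6 h x).X u = dt u x.ofLp := rfl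

lemma dat_Y_eq (h : ℝ → ℝ) (x : E 6) (u : V 6) : (dat J6 h x).Y u = dt u (Jv x.ofLp) := rfl

theorem exists_adapted (h : ℝ → ℝ) (x : E 6) {v : ℝ} :
    ∃ f : Fin 6 → V 6, Adapted (dat J6 h x) f ‖x‖ v := by
  -- unit vector
  obtain ⟨a, ha1, hax⟩ : ∃ a : V 6, dt a a = 1 ∧ x.ofLp = ‖x‖ • a := by
    by_cases hx : x = 0
    · obtain ⟨b, hb, -⟩ := exists_unit_orth (k := 0) (by norm_num) (fun i => i.elim0)
      exact ⟨b, hb, by simp [hx]⟩
    · have hn : ‖x‖ ≠ 0 := norm_ne_zero_iff.2 hx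
      refine ⟨(‖x‖⁻¹ • x.ofLp), ?_, ?_⟩
      · have : dt x.ofLp x.ofLp = ‖x‖ ^ 2 := by
          rw [EuclideanSpace.norm_sq_eq]; simp [dt, sq]
        rw [dt_smul_left, dt_smul_right, this]; field_simp
      · rw [smul_smul, mul_inv_cancel₀ hn, one_smul]
  obtain ⟨b, hb1, hb⟩ := exists_unit_orth (k := 2) (by norm_num) ![a, Jv a]
  have hba : dt b a = 0 := by simpa using hb 0
  have hbJa : dt b (Jv a) = 0 := by simpa using hb 1
  obtain ⟨c, hc1, hc⟩ := exists_unit_orth (k := 4) (by norm_num) ![a, Jv a, b, Jv b]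
  have hca : dt c a = 0 := by simpa using hc 0
  have hcJa : dt c (Jv a) = 0 := by simpa using hc 1
  have hcb : dt c b = 0 := by simpa using hc 2
  have hcJb : dt c (Jv b) = 0 := by simpa using hc 3
  have hab : dt a b = 0 := by rw [dt_comm]; exact hba
  have hac : dt a c = 0 := by rw [dt_comm]; exact hca
  have hbc : dt b c = 0 := by rw [dt_comm]; exact hcb
  have hJab : dt (Jv a) b = 0 := by rw [dt_comm]; exact hbJa
  have hJac : dt (Jv a) c = 0 := by rw [dt_comm]; exact hcJa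
  have hJbc : dt (Jv b) c = 0 := by rw [dt_comm]; exact hcJb
  have haJb : dt a (Jv b) = 0 := by rw [dt_Jv_right, hJab, neg_zero]
  have haJc : dt a (Jv c) = 0 := by rw [dt_Jv_right, hJac, neg_zero]
  have hbJc : dt b (Jv c) = 0 := by rw [dt_Jv_right, hJbc, neg_zero]
  have hJba : dt (Jv b) a = 0 := by rw [dt_comm]; exact haJb
  have hJca : dt (Jv c) a = 0 := by rw [dt_comm]; exact haJc
  have hJcb : dt (Jv c) b = 0 := by rw [dt_comm]; exact hbJc
  have haa := dt_Jv_self a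
  have hbb := dt_Jv_self b
  have hcc := dt_Jv_self c
  have haa' : dt (Jv a) a = 0 := by rw [dt_comm]; exact haa
  have hbb' : dt (Jv b) b = 0 := by rw [dt_comm]; exact hbb
  have hcc' : dt (Jv c) c = 0 := by rw [dt_comm]; exact hcc
  refine ⟨frame v a b c, ?_, ?_, ?_, ?_⟩
  · intro k
    rw [dat_X_eq, hax, dt_smul_right]
    fin_cases k <;> simp [frame, e1, z1, dt_smul_left, ha1, hba, hca, haa', hJba, hJca]
  · intro k
    rw [dat_Y_eq, hax, Jv_smul, dt_smul_right]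
    fin_cases k <;>
      simp [frame, e2, z2, dt_smul_left, dt_Jv_Jv, ha1, haa, hbJa, hcJa, hba, hca, mul_assoc]
  · intro k l
    rw [dat_N_eq]
    fin_cases k <;> fin_cases l <;>
      simp [frame, e1, e2, z1, z2, P, zP, dt_smul_left, dt_smul_right, dt_Jv_Jv, ha1, hb1, hc1,
        haa, haa', hbb, hbb', hcc, hcc', hba, hca, hcb, hab, hac, hbc, hbJa, hcJa, hcJb, haJb,
        haJc, hbJc, hJab, hJac, hJbc, hJba, hJca, hJcb] <;> ring
  · intro k l
    rw [dat_O_eq]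
    fin_cases k <;> fin_cases l <;>
      simp [frame, e1, e2, z1, z2, W, zW, dt_smul_left, dt_smul_right, dt_Jv_Jv, Jv_smul, Jv_Jv,
        dt_neg_right, ha1, hb1, hc1,
        haa, haa', hbb, hbb', hcc, hcc', hba, hca, hcb, hab, hac, hbc, hbJa, hcJa, hcJb, haJb,
        haJc, hbJc, hJab, hJac, hJbc, hJba, hJca, hJcb]

lemma metJ_form (h : ℝ → ℝ) (x : E 6) (u w : V 6) :
    ∑ i, ∑ j, u i * metJ J6 h x i j * w j
      = (dat J6 h x).N u w + h (‖x‖ ^ 2) * ((dat J6 h x).Y u * (dat J6 h x).Y w) := by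
  rw [dat_N, dat_Y, dat_Y]
  unfold metJ
  simp only [Matrix.of_apply, mul_add, add_mul, Finset.sum_add_distrib]
  congr 1
  · refine Finset.sum_congr rfl fun i _ => ?_
    simp [Matrix.one_apply]
  · rw [Finset.sum_mul_sum, Finset.mul_sum]
    refine Finset.sum_congr rfl fun i _ => ?_
    rw [Finset.mul_sum]
    exact Finset.sum_congr rfl fun j _ => by ring

theorem ginv_adapted (h : ℝ → ℝ) (x : E 6) {v : ℝ} (hv : v ^ 2 * (1 + h (‖x‖ ^ 2) * ‖x‖ ^ 2) = 1)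
    {f : Fin 6 → V 6} (hf : Adapted (dat J6 h x) f ‖x‖ v) (i j : Fin 6) :
    ginv (metJ J6 h) x i j = ∑ a, f a i * f a j := by
  let F : Matrix (Fin 6) (Fin 6) ℝ := fun i a => f a i
  have h1 : Fᵀ * metJ J6 h x * F = 1 := by
    ext a b
    have : (Fᵀ * metJ J6 h x * F) a b = ∑ i, ∑ j, f a i * metJ J6 h x i j * f b j := by
      simp only [Matrix.mul_apply, Matrix.transpose_apply, F, Finset.sum_mul]
      rw [Finset.sum_comm]
    rw [this, metJ_form, hf.hN, hf.hY, hf.hY]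
    have hv' : v ^ 2 + h (‖x‖ ^ 2) * (‖x‖ * v * (‖x‖ * v)) = 1 := by linarith [hv]
    fin_cases a <;> fin_cases b <;> simp [e1, e2, z1, z2, P, zP, hv']
  have h2 : F * Fᵀ * metJ J6 h x = 1 := by
    rw [mul_assoc]
    exact mul_eq_one_comm.1 h1
  have h3 : (metJ J6 h x)⁻¹ = F * Fᵀ := Matrix.inv_eq_left_inv h2
  unfold ginv
  rw [h3]
  simp [F, Matrix.mul_apply]

/-- The Gauss-Bonnet curvature of `δ + h(|x|²) Jx ⊗ Jx` on `ℝ^6`. -/
theorem L2_metJ6 {h : ℝ → ℝ} (hh : ContDiff ℝ ∞ h) (x : E 6) {s D k0 k1 k2 : ℝ}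
    (hs : s = ‖x‖ ^ 2) (hk0 : h s = k0) (hk1 : deriv h s = k1) (hk2 : deriv (deriv h) s = k2)
    (hD : D = 1 + k0 * s) (hDpos : 0 < D) :
    L2 (metJ J6 h) x = 24 * (5 * k0 ^ 2
      + 2 * k0 * (3 * (k0 + k1 * s) / D + 2 * s * (2 * k1 + k2 * s) / D
          - s * ((k0 + k1 * s) / D) ^ 2)
      - 4 * k0 * (s * (k0 ^ 2 - k1) / D) + 4 * ((k0 + k1 * s) ^ 2 / D)) := by
  obtain ⟨f, hf⟩ := exists_adapted h x (v := (Real.sqrt D)⁻¹)
  have hsq : (Real.sqrt D)⁻¹ ^ 2 = 1 / D := by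
    rw [inv_pow, Real.sq_sqrt hDpos.le, one_div]
  have hv : (Real.sqrt D)⁻¹ ^ 2 * (1 + h (‖x‖ ^ 2) * ‖x‖ ^ 2) = 1 := by
    rw [hsq, ← hs, hk0, ← hD]; field_simp
  have hM := ginv_adapted h x hv hf
  rw [L2_value hh x hM hf (k0 := k0) (k1 := k1) (k2 := k2) (by rw [← hk0, hs]; rfl)
    (by rw [← hk1, hs]; rfl) (by rw [← hk2, hs]; rfl) rfl rfl rfl]
  rw [← hs]
  simp only [hsq]
  linear_combination (96 * (k0 + k1 * s) ^ 2) * hsq

end

end Pool.Agent.H498R3.GB
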