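import Pool.Agent.H498R3.GBFlat

/-!
Completeness of the Riemannian distance.
-/

namespace Pool.Agent.H498R3.GB

open scoped BigOperators ContDiff Topology Matrix
open MeasureTheory Filter Metric

noncomputable section

variable {n : ℕ}

/-- The length `∫_0^1 √(g_ij(c) c'^i c'^j) dt` of the curve `c : [0,1] → ℝ^n`. -/
def gLength (g : MetricField n) (c : ℝ → E n) : ℝ :=
  ∫ t in (0 : ℝ)..1, Real.sqrt (∑ i, ∑ j, g (c t) i j * deriv c t i * deriv c t j)

/-- The Riemannian distance: the infimum of the lengths of the `C^1` curves from `x` to `y`. -/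
def gDist (g : MetricField n) (x y : E n) : ℝ :=
  sInf {L : ℝ | ∃ c : ℝ → E n, ContDiff ℝ 1 c ∧ c 0 = x ∧ c 1 = y ∧ L = gLength g c}

/-- `(ℝ^n, g)` is complete: every Cauchy sequence of the Riemannian distance converges. -/
def IsCompleteMetric (g : MetricField n) : Prop :=
  ∀ u : ℕ → E n, (∀ ε > 0, ∃ N, ∀ m ≥ N, ∀ k ≥ N, gDist g (u m) (u k) < ε) →
    ∃ x, Tendsto (fun m => gDist g (u m) x) atTop (𝓝 0)

lemma norm_sub_le_gLength {g : MetricField n} (hc : ∀ i j, Continuous fun x => g x i j)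
    (hlow : ∀ (x v : E n), ‖v‖ ^ 2 ≤ ∑ i, ∑ j, g x i j * v i * v j) {c : ℝ → E n}
    (hcd : ContDiff ℝ 1 c) : ‖c 1 - c 0‖ ≤ gLength g c := by
  have hd : Continuous (deriv c) := hcd.continuous_deriv (by simp)
  have h1 : ∫ t in (0 : ℝ)..1, deriv c t = c 1 - c 0 :=
    intervalIntegral.integral_deriv_eq_sub (fun t _ => (hcd.differentiable (by simp)) t)
      (hd.intervalIntegrable _ _)
  rw [← h1]
  refine (intervalIntegral.norm_integral_le_integral_norm zero_le_one).trans ?_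
  unfold gLength
  have hcc : Continuous fun t => Real.sqrt (∑ i, ∑ j, g (c t) i j * deriv c t i * deriv c t j) := by
    refine Real.continuous_sqrt.comp ?_
    refine continuous_finset_sum _ fun i _ => continuous_finset_sum _ fun j _ => ?_
    refine ((((hc i j).comp hcd.continuous)).mul ?_).mul ?_
    · exact (EuclideanSpace.proj (𝕜 := ℝ) i : E n →L[ℝ] ℝ).continuous.comp hd
    · exact (EuclideanSpace.proj (𝕜 := ℝ) j : E n →L[ℝ] ℝ).continuous.comp hd
  refine intervalIntegral.integral_mono_on zero_le_one (hd.norm.intervalIntegrable _ _)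
    (hcc.intervalIntegrable _ _) fun t _ => ?_
  rw [← Real.sqrt_sq (norm_nonneg (deriv c t))]
  exact Real.sqrt_le_sqrt (hlow _ _)

lemma gLength_nonneg (g : MetricField n) (c : ℝ → E n) : 0 ≤ gLength g c :=
  intervalIntegral.integral_nonneg zero_le_one fun t _ => Real.sqrt_nonneg _

lemma gDist_nonneg (g : MetricField n) (x y : E n) : 0 ≤ gDist g x y := by
  refine Real.sInf_nonneg ?_
  rintro L ⟨c, -, -, -, rfl⟩
  exact gLength_nonneg g c

/-- the straight segment -/
def seg (x y : E n) : ℝ → E n := fun t => x + t • (y - x)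

lemma seg_contDiff (x y : E n) : ContDiff ℝ 1 (seg x y) := by
  unfold seg
  exact contDiff_const.add (contDiff_id.smul contDiff_const)

lemma seg_deriv (x y : E n) (t : ℝ) : deriv (seg x y) t = y - x := by
  have h : HasDerivAt (fun t : ℝ => x + t • (y - x)) ((1 : ℝ) • (y - x)) t :=
    ((hasDerivAt_id t).smul_const (y - x)).const_add x
  rw [one_smul] at h
  exact h.deriv

lemma norm_sub_le_gDist {g : MetricField n} (hc : ∀ i j, Continuous fun x => g x i j)
    (hlow : ∀ (x v : E n), ‖v‖ ^ 2 ≤ ∑ i, ∑ j, g x i j * v i * v j) (x y : E n) :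
    ‖y - x‖ ≤ gDist g x y := by
  refine le_csInf ⟨_, seg x y, seg_contDiff x y, by simp [seg], by simp [seg], rfl⟩ ?_
  rintro L ⟨c, h1, rfl, rfl, rfl⟩
  exact norm_sub_le_gLength hc hlow h1

lemma gDist_le {g : MetricField n} {K : ℝ} (hK : 0 ≤ K)
    (hc : ∀ i j, Continuous fun x => g x i j)
    (hup : ∀ (x v : E n), ∑ i, ∑ j, g x i j * v i * v j ≤ (K * ‖v‖) ^ 2) (x y : E n) :
    gDist g x y ≤ K * ‖y - x‖ := by
  have hle : gDist g x y ≤ gLength g (seg x y) := by
    refine csInf_le ⟨0, ?_⟩ ⟨seg x y, seg_contDiff x y, by simp [seg], by simp [seg], rfl⟩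
    rintro L ⟨c, -, -, -, rfl⟩
    exact gLength_nonneg g c
  refine hle.trans ?_
  · unfold gLength
    simp only [seg_deriv]
    have hcc : Continuous fun t => Real.sqrt (∑ i, ∑ j, g (seg x y t) i j * (y - x) i * (y - x) j) := by
      refine Real.continuous_sqrt.comp ?_
      refine continuous_finset_sum _ fun i _ => continuous_finset_sum _ fun j _ => ?_
      exact (((hc i j).comp (seg_contDiff x y).continuous).mul continuous_const).mul continuous_const
    have h := intervalIntegral.integral_mono_on (μ := volume) (zero_le_one (α := ℝ))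
      (hcc.intervalIntegrable 0 1)
      ((continuous_const (y := K * ‖y - x‖)).intervalIntegrable 0 1) (fun t _ => by
        refine Real.sqrt_le_iff.2 ⟨by positivity, hup _ _⟩)
    simpa using h

theorem complete_of_bounds {g : MetricField n} {K : ℝ} (hK : 0 ≤ K)
    (hc : ∀ i j, Continuous fun x => g x i j)
    (hlow : ∀ (x v : E n), ‖v‖ ^ 2 ≤ ∑ i, ∑ j, g x i j * v i * v j)
    (hup : ∀ (x v : E n), ∑ i, ∑ j, g x i j * v i * v j ≤ (K * ‖v‖) ^ 2) :
    IsCompleteMetric g := by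
  intro u hu
  have hC : CauchySeq u := by
    refine Metric.cauchySeq_iff.2 fun ε hε => ?_
    obtain ⟨N, hN⟩ := hu ε hε
    refine ⟨N, fun m hm k hk => ?_⟩
    rw [dist_eq_norm]
    exact (norm_sub_le_gDist hc hlow (u k) (u m)).trans_lt (hN k hk m hm)
  obtain ⟨x, hx⟩ := cauchySeq_tendsto_of_complete hC
  refine ⟨x, ?_⟩
  have h1 : Tendsto (fun m => K * ‖x - u m‖) atTop (𝓝 0) := by
    have : Tendsto (fun m => ‖x - u m‖) atTop (𝓝 0) := by
      have := (tendsto_const_nhds (x := x)).sub hx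
      simpa using this.norm
    simpa using this.const_mul K
  exact squeeze_zero (fun m => gDist_nonneg _ _ _) (fun m => gDist_le hK hc hup _ _) h1

lemma g6_form' (x v : E 6) : ∑ i, ∑ j, g6 x i j * v i * v j
    = ‖v‖ ^ 2 + hfun (‖x‖ ^ 2) * (dt v.ofLp (Jv x.ofLp)) ^ 2 := by
  have h := g6_form x v.ofLp v.ofLp
  have h2 : dt v.ofLp v.ofLp = ‖v‖ ^ 2 := by
    rw [EuclideanSpace.norm_sq_eq]; simp [dt, sq]
  rw [h2] at h
  rw [sq (dt _ _), ← h]
  refine Finset.sum_congr rfl fun i _ => Finset.sum_congr rfl fun j _ => ?_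
  ring

lemma g6_low (x v : E 6) : ‖v‖ ^ 2 ≤ ∑ i, ∑ j, g6 x i j * v i * v j := by
  rw [g6_form']
  have := mul_nonneg (hfun_nonneg (‖x‖ ^ 2)) (sq_nonneg (dt v.ofLp (Jv x.ofLp)))
  linarith

lemma dt_sq_le (u w : V 6) : (dt u w) ^ 2 ≤ dt u u * dt w w := by
  have := Finset.sum_mul_sq_le_sq_mul_sq Finset.univ u w
  simpa [dt, sq] using this

lemma g6_up (x v : E 6) : ∑ i, ∑ j, g6 x i j * v i * v j
    ≤ (Real.sqrt (1 + 2 * Real.exp 11) * ‖v‖) ^ 2 := by
  rw [g6_form', mul_pow, Real.sq_sqrt (by positivity)]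
  have h1 := dt_sq_le v.ofLp (Jv x.ofLp)
  rw [dt_Jv_Jv] at h1
  have hv : dt v.ofLp v.ofLp = ‖v‖ ^ 2 := by
    rw [EuclideanSpace.norm_sq_eq]; simp [dt, sq]
  have hx : dt x.ofLp x.ofLp = ‖x‖ ^ 2 := by
    rw [EuclideanSpace.norm_sq_eq]; simp [dt, sq]
  rw [hv, hx] at h1
  have h2 : hfun (‖x‖ ^ 2) * ‖x‖ ^ 2 ≤ 2 * Real.exp 11 := by
    rcases lt_or_ge (‖x‖ ^ 2) 2 with h | h
    · have h3 : hfun (‖x‖ ^ 2) ≤ Real.exp 11 := by
        rw [hfun_eq h]
        refine Real.exp_le_exp.2 ?_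
        have : 0 ≤ (2 - ‖x‖ ^ 2)⁻¹ := by
          rw [inv_nonneg]; linarith
        linarith
      have h4 := Real.exp_pos 11
      nlinarith [sq_nonneg ‖x‖]
    · rw [hfun_zero h]
      have h4 := Real.exp_pos 11
      linarith
  have h5 := mul_le_mul_of_nonneg_left h1 (hfun_nonneg (‖x‖ ^ 2))
  nlinarith [sq_nonneg ‖v‖]

theorem g6_complete : IsCompleteMetric g6 :=
  complete_of_bounds (Real.sqrt_nonneg _) (fun i j => (g6_contDiff i j).continuous) g6_low g6_up

end

end Pool.Agent.H498R3.GB
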