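import Pool.Agent.H498R3.GBFrame

namespace Pool.Agent.H498R3.GB

open scoped BigOperators ContDiff Topology Matrix Kronecker
open MeasureTheory Filter Metric

noncomputable section

variable {n : ℕ}

/-- four-linear functions -/
structure Lin4 (T : V n → V n → V n → V n → ℝ) : Prop where
  a1 : ∀ u v b c d, T (u + v) b c d = T u b c d + T v b c d
  s1 : ∀ (t : ℝ) v b c d, T (t • v) b c d = t * T v b c d
  a2 : ∀ u v a c d, T a (u + v) c d = T a u c d + T a v c d
  s2 : ∀ (t : ℝ) v a c d, T a (t • v) c d = t * T a v c d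
  a3 : ∀ u v a b d, T a b (u + v) d = T a b u d + T a b v d
  s3 : ∀ (t : ℝ) v a b d, T a b (t • v) d = t * T a b v d
  a4 : ∀ u v a b c, T a b c (u + v) = T a b c u + T a b c v
  s4 : ∀ (t : ℝ) v a b c, T a b c (t • v) = t * T a b c v

structure Lin2 (T : V n → V n → ℝ) : Prop where
  a1 : ∀ u v b, T (u + v) b = T u b + T v b
  s1 : ∀ (t : ℝ) v b, T (t • v) b = t * T v b
  a2 : ∀ u v a, T a (u + v) = T a u + T a v
  s2 : ∀ (t : ℝ) v a, T a (t • v) = t * T a v

lemma Lin2.contract {κ : Type} [Fintype κ] {f : κ → V n} {M : Matrix (Fin n) (Fin n) ℝ}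
    (hM : ∀ i j, M i j = ∑ a, f a i * f a j) {B : V n → V n → ℝ} (h : Lin2 B) :
    ∑ i, ∑ j, M i j * B (eb i) (eb j) = ∑ a, B (f a) (f a) :=
  contract2 f hM (fun u v w => h.a1 u v w) (fun t v w => h.s1 t v w)
    (fun u v w => h.a2 u v w) (fun t v w => h.s2 t v w)

lemma Lin2.expand {B : V n → V n → ℝ} (h : Lin2 B) (u v : V n) :
    B u v = ∑ i, ∑ j, u i * v j * B (eb i) (eb j) := by
  rw [lin_expand (φ := fun u => B u v) (fun u v => h.a1 u v _) (fun t v => h.s1 t v _) u]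
  refine Finset.sum_congr rfl fun i _ => ?_
  rw [lin_expand (φ := fun w => B (eb i) w) (fun u v => h.a2 u v _) (fun t v => h.s2 t v _) v,
    Finset.mul_sum]
  refine Finset.sum_congr rfl fun j _ => ?_
  ring

lemma Lin4.expand {T : V n → V n → V n → V n → ℝ} (h : Lin4 T) (a b c d : V n) :
    T a b c d = ∑ i, ∑ j, ∑ k, ∑ l, a i * (b j * (c k * d l)) * T (eb i) (eb j) (eb k) (eb l) := by
  rw [lin_expand (φ := fun u => T u b c d) (fun u v => h.a1 u v _ _ _)
    (fun t v => h.s1 t v _ _ _) a]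
  refine Finset.sum_congr rfl fun i _ => ?_
  rw [lin_expand (φ := fun u => T (eb i) u c d) (fun u v => h.a2 u v _ _ _)
    (fun t v => h.s2 t v _ _ _) b, Finset.mul_sum]
  refine Finset.sum_congr rfl fun j _ => ?_
  rw [lin_expand (φ := fun u => T (eb i) (eb j) u d) (fun u v => h.a3 u v _ _ _)
    (fun t v => h.s3 t v _ _ _) c, Finset.mul_sum, Finset.mul_sum]
  refine Finset.sum_congr rfl fun k _ => ?_
  rw [lin_expand (φ := fun u => T (eb i) (eb j) (eb k) u) (fun u v => h.a4 u v _ _ _)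
    (fun t v => h.s4 t v _ _ _) d, Finset.mul_sum, Finset.mul_sum, Finset.mul_sum]
  refine Finset.sum_congr rfl fun l _ => ?_
  ring

lemma Lin2.norm {κ : Type} [Fintype κ] {f : κ → V n} {M : Matrix (Fin n) (Fin n) ℝ}
    (hM : ∀ i j, M i j = ∑ a, f a i * f a j) {B : V n → V n → ℝ} (h : Lin2 B) :
    ∑ i, ∑ j, (∑ a, ∑ b, M i a * M j b * B (eb a) (eb b)) * B (eb i) (eb j)
      = ∑ a, ∑ b, B (f a) (f b) ^ 2 := by
  let F : Matrix (Fin n) κ ℝ := fun i a => f a i
  have hMF : M = F * Fᵀ := by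
    ext i j; rw [hM]; simp [F, Matrix.mul_apply]
  let v : Fin n × Fin n → ℝ := fun p => B (eb p.1) (eb p.2)
  have e1 : ∑ i, ∑ j, (∑ a, ∑ b, M i a * M j b * B (eb a) (eb b)) * B (eb i) (eb j)
      = v ⬝ᵥ ((M ⊗ₖ M) *ᵥ v) := by
    simp only [dotProduct, Matrix.mulVec, Fintype.sum_prod_type, Matrix.kroneckerMap_apply, v]
    refine Finset.sum_congr rfl fun i _ => Finset.sum_congr rfl fun j _ => ?_
    ring
  have e2 : ∀ p : κ × κ, ((F ⊗ₖ F)ᵀ *ᵥ v) p = B (f p.1) (f p.2) := by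
    intro p
    rw [h.expand (f p.1) (f p.2)]
    simp only [Matrix.mulVec, dotProduct, Fintype.sum_prod_type, Matrix.transpose_apply,
      Matrix.kroneckerMap_apply, v, F]
  rw [e1, hMF, Matrix.mul_kronecker_mul, Matrix.kroneckerMap_transpose, ← Matrix.mulVec_mulVec,
    Matrix.dotProduct_mulVec, ← Matrix.mulVec_transpose]
  simp only [dotProduct, Fintype.sum_prod_type, e2]
  refine Finset.sum_congr rfl fun i _ => Finset.sum_congr rfl fun j _ => ?_
  ring

lemma Lin4.norm {κ : Type} [Fintype κ] {f : κ → V n} {M : Matrix (Fin n) (Fin n) ℝ}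
    (hM : ∀ i j, M i j = ∑ a, f a i * f a j) {T : V n → V n → V n → V n → ℝ} (h : Lin4 T) :
    ∑ i, ∑ j, ∑ k, ∑ l, (∑ a, ∑ b, ∑ c, ∑ d, M i a * M j b * M k c * M l d *
        T (eb a) (eb b) (eb c) (eb d)) * T (eb i) (eb j) (eb k) (eb l)
      = ∑ a, ∑ b, ∑ c, ∑ d, T (f a) (f b) (f c) (f d) ^ 2 := by
  let F : Matrix (Fin n) κ ℝ := fun i a => f a i
  have hMF : M = F * Fᵀ := by
    ext i j; rw [hM]; simp [F, Matrix.mul_apply]
  let v : Fin n × Fin n × Fin n × Fin n → ℝ := fun p =>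
    T (eb p.1) (eb p.2.1) (eb p.2.2.1) (eb p.2.2.2)
  have e1 : ∑ i, ∑ j, ∑ k, ∑ l, (∑ a, ∑ b, ∑ c, ∑ d, M i a * M j b * M k c * M l d *
        T (eb a) (eb b) (eb c) (eb d)) * T (eb i) (eb j) (eb k) (eb l)
      = v ⬝ᵥ ((M ⊗ₖ (M ⊗ₖ (M ⊗ₖ M))) *ᵥ v) := by
    simp only [dotProduct, Matrix.mulVec, Fintype.sum_prod_type, Matrix.kroneckerMap_apply, v]
    refine Finset.sum_congr rfl fun i _ => Finset.sum_congr rfl fun j _ =>
      Finset.sum_congr rfl fun k _ => Finset.sum_congr rfl fun l _ => ?_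
    rw [mul_comm]
    congr 1
    refine Finset.sum_congr rfl fun a _ => Finset.sum_congr rfl fun b _ =>
      Finset.sum_congr rfl fun c _ => Finset.sum_congr rfl fun d _ => ?_
    ring
  have e2 : ∀ p : κ × κ × κ × κ, ((F ⊗ₖ (F ⊗ₖ (F ⊗ₖ F)))ᵀ *ᵥ v) p =
      T (f p.1) (f p.2.1) (f p.2.2.1) (f p.2.2.2) := by
    intro p
    rw [h.expand (f p.1) (f p.2.1) (f p.2.2.1) (f p.2.2.2)]
    simp only [Matrix.mulVec, dotProduct, Fintype.sum_prod_type, Matrix.transpose_apply,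
      Matrix.kroneckerMap_apply, v, F]
  rw [e1, hMF, Matrix.mul_kronecker_mul, Matrix.mul_kronecker_mul, Matrix.mul_kronecker_mul,
    Matrix.kroneckerMap_transpose, Matrix.kroneckerMap_transpose, Matrix.kroneckerMap_transpose,
    ← Matrix.mulVec_mulVec, Matrix.dotProduct_mulVec, ← Matrix.mulVec_transpose]
  simp only [dotProduct, Fintype.sum_prod_type, e2]
  refine Finset.sum_congr rfl fun i _ => Finset.sum_congr rfl fun j _ =>
    Finset.sum_congr rfl fun k _ => Finset.sum_congr rfl fun l _ => ?_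
  ring

namespace Dat

variable (D : Dat n) {κ : Type} [Fintype κ] (f : κ → V n)

lemma lin4 : Lin4 (D.R f) :=
  ⟨fun u v b c d => D.R_add1 f u v b c d, fun t v b c d => D.R_smul1 f t v b c d,
   fun u v a c d => D.R_add2 f u v a c d, fun t v a c d => D.R_smul2 f t v a c d,
   fun u v a b d => D.R_add3 f u v a b d, fun t v a b d => D.R_smul3 f t v a b d,
   fun u v a b c => D.R_add4 f u v a b c, fun t v a b c => D.R_smul4 f t v a b c⟩

/-- Ricci form -/
def Rc (u v : V n) : ℝ := ∑ a, D.R f (f a) u (f a) v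

lemma lin2_Rc : Lin2 (D.Rc f) := by
  refine ⟨fun u v b => ?_, fun t v b => ?_, fun u v b => ?_, fun t v b => ?_⟩
  · simp only [Rc, R_add2, Finset.sum_add_distrib]
  · simp only [Rc, R_smul2, Finset.mul_sum]
  · simp only [Rc, R_add4, Finset.sum_add_distrib]
  · simp only [Rc, R_smul4, Finset.mul_sum]

end Dat

end

end Pool.Agent.H498R3.GB
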