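import Mathlib

/-!
Gauss-Bonnet curvature and Gauss-Bonnet-Chern mass of Riemannian metrics given in
coordinates on `ℝ^n`.
-/

namespace Pool.Agent.H498R3.GB

open scoped BigOperators ContDiff Topology
open MeasureTheory Filter Metric

noncomputable section

/-- Euclidean `n`-space. -/
abbrev E (n : ℕ) := EuclideanSpace ℝ (Fin n)

/-- A field of `n × n` matrices on `ℝ^n`: the components `g_ij(x)` of a metric. -/
abbrev MetricField (n : ℕ) := E n → Matrix (Fin n) (Fin n) ℝ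

variable {n : ℕ}

/-- The partial derivative `∂_i f` at `x`. -/
def pd (i : Fin n) (f : E n → ℝ) (x : E n) : ℝ :=
  fderiv ℝ f x (EuclideanSpace.single i 1)

/-- `g` is a smooth Riemannian metric on the open set `U`. -/
structure IsRiemannianOn (g : MetricField n) (U : Set (E n)) : Prop where
  smooth : ∀ i j, ContDiffOn ℝ ∞ (fun x => g x i j) U
  posDef : ∀ x ∈ U, (g x).PosDef

/-- The inverse metric `g^{ij}`. -/
def ginv (g : MetricField n) (x : E n) : Matrix (Fin n) (Fin n) ℝ := (g x)⁻¹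

/-- Christoffel symbols of the first kind,
`Γ_{m,ij} = (∂_i g_mj + ∂_j g_mi - ∂_m g_ij) / 2`. -/
def Gam (g : MetricField n) (x : E n) (m i j : Fin n) : ℝ :=
  (pd i (fun z => g z m j) x + pd j (fun z => g z m i) x - pd m (fun z => g z i j) x) / 2

/-- The Riemann curvature tensor `R_ijkl` (all indices down), with the convention that
`R_ijij` is the sectional curvature of an orthonormal pair:
`R_ijkl = (∂_j∂_k g_il + ∂_i∂_l g_jk - ∂_i∂_k g_jl - ∂_j∂_l g_ik) / 2
  + g^{pq} (Γ_{p,jk} Γ_{q,il} - Γ_{p,ik} Γ_{q,jl})`. -/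
def Rm (g : MetricField n) (x : E n) (i j k l : Fin n) : ℝ :=
  (pd j (pd k (fun z => g z i l)) x + pd i (pd l (fun z => g z j k)) x
    - pd i (pd k (fun z => g z j l)) x - pd j (pd l (fun z => g z i k)) x) / 2
  + ∑ p, ∑ q, ginv g x p q *
      (Gam g x p j k * Gam g x q i l - Gam g x p i k * Gam g x q j l)

/-- The Ricci tensor `R_jl = g^{ik} R_ijkl`. -/
def Ric (g : MetricField n) (x : E n) (j l : Fin n) : ℝ :=
  ∑ i, ∑ k, ginv g x i k * Rm g x i j k l

/-- The scalar curvature `R = g^{jl} R_jl`. -/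
def Scal (g : MetricField n) (x : E n) : ℝ :=
  ∑ j, ∑ l, ginv g x j l * Ric g x j l

/-- `R^{ijkl}`: the Riemann tensor with all indices raised. -/
def RmUp (g : MetricField n) (x : E n) (i j k l : Fin n) : ℝ :=
  ∑ a, ∑ b, ∑ c, ∑ d,
    ginv g x i a * ginv g x j b * ginv g x k c * ginv g x l d * Rm g x a b c d

/-- `R^{ij}`: the Ricci tensor with both indices raised. -/
def RicUp (g : MetricField n) (x : E n) (i j : Fin n) : ℝ :=
  ∑ a, ∑ b, ginv g x i a * ginv g x j b * Ric g x a b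

/-- The tensor `P^{ijkl}` of the definition of the Gauss-Bonnet-Chern mass. -/
def PUp (g : MetricField n) (x : E n) (i j k l : Fin n) : ℝ :=
  RmUp g x i j k l + RicUp g x j k * ginv g x i l - RicUp g x j l * ginv g x i k
    - RicUp g x i k * ginv g x j l + RicUp g x i l * ginv g x j k
    + Scal g x / 2 * (ginv g x i k * ginv g x j l - ginv g x i l * ginv g x j k)

/-- The Gauss-Bonnet curvature `L_2 = |Rm|^2 - 4 |Ric|^2 + R^2`. -/
def L2 (g : MetricField n) (x : E n) : ℝ :=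
  (∑ i, ∑ j, ∑ k, ∑ l, RmUp g x i j k l * Rm g x i j k l)
    - 4 * (∑ i, ∑ j, RicUp g x i j * Ric g x i j) + Scal g x ^ 2

/-- The Riemannian volume density `√ det g`. -/
def volDensity (g : MetricField n) (x : E n) : ℝ := Real.sqrt ((g x).det)

/-- Asymptotic flatness of order `τ` in the given coordinates of `ℝ^n`: near infinity
`g_ij - δ_ij = O(r^{-τ})`, `∂ g_ij = O(r^{-τ-1})`, `∂∂ g_ij = O(r^{-τ-2})`. -/
def IsAsymptoticallyFlat (g : MetricField n) (τ : ℝ) : Prop :=
  ∃ C R₀ : ℝ, 0 < R₀ ∧ ∀ x : E n, R₀ ≤ ‖x‖ → ∀ i j k l : Fin n,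
    |g x i j - (1 : Matrix (Fin n) (Fin n) ℝ) i j| ≤ C * ‖x‖ ^ (-τ) ∧
    |pd k (fun z => g z i j) x| ≤ C * ‖x‖ ^ (-τ - 1) ∧
    |pd l (pd k (fun z => g z i j)) x| ≤ C * ‖x‖ ^ (-τ - 2)

/-- `ω_{n-1}`: the volume of the unit sphere of `ℝ^n`. -/
def omegaSphere (n : ℕ) : ℝ := ((volume : Measure (E n)).toSphere).real Set.univ

/-- The integrand `P^{ijkl} ∂_l g_jk ν_i` of the Gauss-Bonnet-Chern mass, with
`ν = x / |x|` the Euclidean unit normal of the coordinate spheres. -/
def massIntegrand (g : MetricField n) (x : E n) : ℝ :=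
  ∑ i, ∑ j, ∑ k, ∑ l, PUp g x i j k l * pd l (fun z => g z j k) x * (x i / ‖x‖)

/-- The integral of `f` over the Euclidean sphere `S_r` of radius `r` centred at `0`, with
respect to the Euclidean surface measure: `r^{n-1} ∫_{S^{n-1}} f(r u) du`. -/
def sphereIntegral (f : E n → ℝ) (r : ℝ) : ℝ :=
  r ^ (n - 1) * ∫ u : sphere (0 : E n) 1, f (r • (u : E n)) ∂((volume : Measure (E n)).toSphere)

/-- `m` is the Gauss-Bonnet-Chern mass of `g`:
`m = (n-4)! / (2 (n-1)! ω_{n-1}) · lim_{r → ∞} ∫_{S_r} P^{ijkl} ∂_l g_jk ν_i dS`. -/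
def HasGBCMass (g : MetricField n) (m : ℝ) : Prop :=
  Tendsto (fun r : ℝ => ((n - 4).factorial : ℝ) / (2 * ((n - 1).factorial : ℝ) * omegaSphere n) *
    sphereIntegral (massIntegrand g) r) atTop (𝓝 m)

end

end Pool.Agent.H498R3.GB
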