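import Pool.Agent.H498R3.GBDefs

namespace Pool.Agent.H498R3.GB

open scoped BigOperators ContDiff Topology
open MeasureTheory Filter Metric

noncomputable section

variable {n : ℕ}

/-- The linear function `x ↦ (J x)_a`. -/
def yv (J : Matrix (Fin n) (Fin n) ℝ) (a : Fin n) (x : E n) : ℝ := ∑ k, J a k * x k

/-- The metric `δ_ij + h(|x|^2) (J x)_i (J x)_j`. -/
def metJ (J : Matrix (Fin n) (Fin n) ℝ) (h : ℝ → ℝ) : MetricField n := fun x =>
  Matrix.of fun i j => (1 : Matrix (Fin n) (Fin n) ℝ) i j + h (‖x‖ ^ 2) * (yv J i x * yv J j x)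

lemma pd_of_hasFDerivAt {f : E n → ℝ} {f' : E n →L[ℝ] ℝ} {x : E n} (hf : HasFDerivAt f f' x)
    (i : Fin n) : pd i f x = f' (EuclideanSpace.single i 1) := by
  unfold pd; rw [hf.fderiv]

lemma pd_add {f g : E n → ℝ} {x : E n} (hf : DifferentiableAt ℝ f x)
    (hg : DifferentiableAt ℝ g x) (i : Fin n) :
    pd i (fun z => f z + g z) x = pd i f x + pd i g x := by
  unfold pd; rw [fderiv_fun_add hf hg]; rfl

lemma pd_mul {f g : E n → ℝ} {x : E n} (hf : DifferentiableAt ℝ f x)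
    (hg : DifferentiableAt ℝ g x) (i : Fin n) :
    pd i (fun z => f z * g z) x = f x * pd i g x + g x * pd i f x := by
  unfold pd; rw [fderiv_fun_mul hf hg]; simp

lemma pd_const (c : ℝ) (x : E n) (i : Fin n) : pd i (fun _ => c) x = 0 := by
  unfold pd; simp

lemma pd_const_mul {f : E n → ℝ} {x : E n} (c : ℝ) (hf : DifferentiableAt ℝ f x) (i : Fin n) :
    pd i (fun z => c * f z) x = c * pd i f x := by
  unfold pd; rw [fderiv_const_mul hf]; simp

lemma contDiff_coord (j : Fin n) : ContDiff ℝ ∞ (fun x : E n => x j) := by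
  exact (EuclideanSpace.proj (𝕜 := ℝ) j : E n →L[ℝ] ℝ).contDiff

lemma pd_coord (i j : Fin n) (x : E n) :
    pd i (fun z => z j) x = (1 : Matrix (Fin n) (Fin n) ℝ) i j := by
  have : HasFDerivAt (fun z : E n => z j) (EuclideanSpace.proj (𝕜 := ℝ) j : E n →L[ℝ] ℝ) x :=
    (EuclideanSpace.proj (𝕜 := ℝ) j : E n →L[ℝ] ℝ).hasFDerivAt
  rw [pd_of_hasFDerivAt this]
  simp [Matrix.one_apply, eq_comm]

lemma contDiff_yv (J : Matrix (Fin n) (Fin n) ℝ) (a : Fin n) : ContDiff ℝ ∞ (yv J a) := by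
  unfold yv
  exact ContDiff.sum fun k _ => contDiff_const.mul (contDiff_coord k)

lemma pd_yv (J : Matrix (Fin n) (Fin n) ℝ) (a i : Fin n) (x : E n) :
    pd i (yv J a) x = J a i := by
  have : HasFDerivAt (yv J a)
      (∑ k, J a k • (EuclideanSpace.proj (𝕜 := ℝ) k : E n →L[ℝ] ℝ)) x := by
    unfold yv
    apply HasFDerivAt.fun_sum
    intro k _
    exact ((EuclideanSpace.proj (𝕜 := ℝ) k : E n →L[ℝ] ℝ).hasFDerivAt).const_mul (J a k)
  rw [pd_of_hasFDerivAt this]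
  simp

lemma contDiff_hn {h : ℝ → ℝ} (hh : ContDiff ℝ ∞ h) :
    ContDiff ℝ ∞ (fun x : E n => h (‖x‖ ^ 2)) :=
  hh.comp (contDiff_norm_sq ℝ)

lemma pd_hn {h : ℝ → ℝ} (hh : ContDiff ℝ ∞ h) (i : Fin n) (x : E n) :
    pd i (fun z : E n => h (‖z‖ ^ 2)) x = deriv h (‖x‖ ^ 2) * (2 * x i) := by
  have h1 : HasFDerivAt (fun z : E n => ‖z‖ ^ 2) (2 • (innerSL ℝ x)) x :=
    (hasStrictFDerivAt_norm_sq x).hasFDerivAt
  have h2 : HasDerivAt h (deriv h (‖x‖ ^ 2)) (‖x‖ ^ 2) :=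
    ((hh.differentiable (by simp)) _).hasDerivAt
  have := h2.comp_hasFDerivAt x h1
  have h3 := pd_of_hasFDerivAt this i
  simp only [Function.comp_def] at h3
  rw [h3]
  simp [EuclideanSpace.inner_single_right]

lemma diff_of {f : E n → ℝ} (hf : ContDiff ℝ ∞ f) (x : E n) : DifferentiableAt ℝ f x :=
  (hf.differentiable (by simp)) x

lemma contDiff_deriv_of {h : ℝ → ℝ} (hh : ContDiff ℝ ∞ h) : ContDiff ℝ ∞ (deriv h) := by
  exact (contDiff_infty_iff_deriv.1 hh).2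

/-- First derivatives of the metric. -/
def T1 (J : Matrix (Fin n) (Fin n) ℝ) (h0 h1 : ℝ) (x : E n) (k i j : Fin n) : ℝ :=
  2 * x k * h1 * (yv J i x * yv J j x) + h0 * (J i k * yv J j x + yv J i x * J j k)

/-- Second derivatives `∂_k ∂_l g_ij` of the metric. -/
def S2 (J : Matrix (Fin n) (Fin n) ℝ) (h0 h1 h2 : ℝ) (x : E n) (k l i j : Fin n) : ℝ :=
  2 * (1 : Matrix (Fin n) (Fin n) ℝ) k l * h1 * (yv J i x * yv J j x)
    + 4 * x k * x l * h2 * (yv J i x * yv J j x)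
    + 2 * x l * h1 * (J i k * yv J j x + yv J i x * J j k)
    + 2 * x k * h1 * (J i l * yv J j x + yv J i x * J j l)
    + h0 * (J i l * J j k + J i k * J j l)

lemma pd_metJ (J : Matrix (Fin n) (Fin n) ℝ) {h : ℝ → ℝ} (hh : ContDiff ℝ ∞ h)
    (k i j : Fin n) (x : E n) :
    pd k (fun z => metJ J h z i j) x = T1 J (h (‖x‖ ^ 2)) (deriv h (‖x‖ ^ 2)) x k i j := by
  unfold metJ T1
  simp only [Matrix.of_apply]
  have hy := fun a => contDiff_yv J a
  have hH := contDiff_hn (n := n) hh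
  rw [pd_add (by fun_prop) (diff_of (hH.mul ((hy i).mul (hy j))) x),
    pd_mul (diff_of hH x) (diff_of ((hy i).mul (hy j)) x), pd_const,
    pd_mul (diff_of (hy i) x) (diff_of (hy j) x), pd_hn hh, pd_yv, pd_yv]
  ring

lemma pd_pd_metJ (J : Matrix (Fin n) (Fin n) ℝ) {h : ℝ → ℝ} (hh : ContDiff ℝ ∞ h)
    (k l i j : Fin n) (x : E n) :
    pd k (pd l (fun z => metJ J h z i j)) x =
      S2 J (h (‖x‖ ^ 2)) (deriv h (‖x‖ ^ 2)) (deriv (deriv h) (‖x‖ ^ 2)) x k l i j := by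
  have e : pd l (fun z => metJ J h z i j) = fun z =>
      T1 J (h (‖z‖ ^ 2)) (deriv h (‖z‖ ^ 2)) z l i j := by
    funext z; exact pd_metJ J hh l i j z
  rw [e]
  unfold T1 S2
  have hy := fun a => contDiff_yv J a
  have hH := contDiff_hn (n := n) hh
  have hh1 := contDiff_deriv_of hh
  have hH1 := contDiff_hn (n := n) hh1
  have hc := fun a => contDiff_coord (n := n) a
  have c2 : ContDiff ℝ ∞ (fun z : E n => 2 * z l) := contDiff_const.mul (hc l)
  have c3 : ContDiff ℝ ∞ (fun z : E n => 2 * z l * deriv h (‖z‖ ^ 2)) := c2.mul hH1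
  have c4 : ContDiff ℝ ∞ (fun z : E n => yv J i z * yv J j z) := (hy i).mul (hy j)
  have c5 : ContDiff ℝ ∞ (fun z : E n => J i l * yv J j z) := contDiff_const.mul (hy j)
  have c6 : ContDiff ℝ ∞ (fun z : E n => yv J i z * J j l) := (hy i).mul contDiff_const
  have c7 : ContDiff ℝ ∞ (fun z : E n => J i l * yv J j z + yv J i z * J j l) := c5.add c6
  rw [pd_add (diff_of (c3.mul c4) x) (diff_of (hH.mul c7) x),
    pd_mul (diff_of c3 x) (diff_of c4 x), pd_mul (diff_of c2 x) (diff_of hH1 x),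
    pd_const_mul _ (diff_of (hc l) x), pd_coord, pd_hn hh1,
    pd_mul (diff_of (hy i) x) (diff_of (hy j) x), pd_yv, pd_yv,
    pd_mul (diff_of hH x) (diff_of c7 x), pd_hn hh,
    pd_add (diff_of c5 x) (diff_of c6 x), pd_const_mul _ (diff_of (hy j) x),
    pd_mul (diff_of (hy i) x) (by fun_prop), pd_const, pd_yv, pd_yv]
  ring

end

end Pool.Agent.H498R3.GB
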