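import Pool.Agent.H498R3.GBContract

namespace Pool.Agent.H498R3.GB

open scoped BigOperators ContDiff Topology Matrix
open MeasureTheory Filter Metric

noncomputable section

variable {n : ℕ}

/-- the data attached to the metric `metJ J h` at `x` -/
def dat (J : Matrix (Fin n) (Fin n) ℝ) (h : ℝ → ℝ) (x : E n) : Dat n where
  X := { toFun := fun v => ∑ i, v i * x i
         map_add' := by intro u v; simp [add_mul, Finset.sum_add_distrib]
         map_smul' := by intro t v; simp [mul_assoc, Finset.mul_sum] }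
  Y := { toFun := fun v => ∑ i, v i * yv J i x
         map_add' := by intro u v; simp [add_mul, Finset.sum_add_distrib]
         map_smul' := by intro t v; simp [mul_assoc, Finset.mul_sum] }
  N := LinearMap.mk₂ ℝ (fun u v => ∑ i, u i * v i)
    (by intro u v w; simp [add_mul, Finset.sum_add_distrib])
    (by intro t v w; simp [mul_assoc, Finset.mul_sum])
    (by intro u v w; simp [mul_add, Finset.sum_add_distrib])
    (by intro t v w; simp [mul_left_comm, Finset.mul_sum])
  O := LinearMap.mk₂ ℝ (fun u v => ∑ i, ∑ j, u i * J i j * v j)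
    (by intro u v w; simp [add_mul, Finset.sum_add_distrib])
    (by intro t v w; simp [mul_assoc, Finset.mul_sum])
    (by intro u v w; simp [mul_add, Finset.sum_add_distrib])
    (by intro t v w; simp [mul_left_comm, Finset.mul_sum])
  h0 := h (‖x‖ ^ 2)
  h1 := deriv h (‖x‖ ^ 2)
  h2 := deriv (deriv h) (‖x‖ ^ 2)

variable (J : Matrix (Fin n) (Fin n) ℝ) (h : ℝ → ℝ) (x : E n)

lemma dat_X (v : V n) : (dat J h x).X v = ∑ i, v i * x i := rfl
lemma dat_Y (v : V n) : (dat J h x).Y v = ∑ i, v i * yv J i x := rfl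
lemma dat_N (u v : V n) : (dat J h x).N u v = ∑ i, u i * v i := rfl
lemma dat_O (u v : V n) : (dat J h x).O u v = ∑ i, ∑ j, u i * J i j * v j := rfl

lemma dat_X_eb (i : Fin n) : (dat J h x).X (eb i) = x i := by simp [dat_X, eb]
lemma dat_Y_eb (i : Fin n) : (dat J h x).Y (eb i) = yv J i x := by simp [dat_Y, eb]
lemma dat_N_eb (i j : Fin n) :
    (dat J h x).N (eb i) (eb j) = (1 : Matrix (Fin n) (Fin n) ℝ) i j := by
  simp [dat_N, eb, Matrix.one_apply, eq_comm]
lemma dat_O_eb (i j : Fin n) : (dat J h x).O (eb i) (eb j) = J i j := by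
  simp [dat_O, eb]

variable {h}

lemma pd_eq_T (hh : ContDiff ℝ ∞ h) (k i j : Fin n) :
    pd k (fun z => metJ J h z i j) x = (dat J h x).T (eb k) (eb i) (eb j) := by
  rw [pd_metJ J hh]
  simp only [Dat.T, dat_X_eb, dat_Y_eb, dat_O_eb, T1]
  rfl

lemma pd_pd_eq_S (hh : ContDiff ℝ ∞ h) (k l i j : Fin n) :
    pd k (pd l (fun z => metJ J h z i j)) x = (dat J h x).S (eb k) (eb l) (eb i) (eb j) := by
  rw [pd_pd_metJ J hh]
  simp only [Dat.S, dat_X_eb, dat_Y_eb, dat_O_eb, dat_N_eb, S2]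
  rfl

lemma Gam_eq_G (hh : ContDiff ℝ ∞ h) (m i j : Fin n) :
    Gam (metJ J h) x m i j = (dat J h x).G (eb m) (eb i) (eb j) := by
  simp only [Gam, Dat.G, pd_eq_T J x hh]

variable {κ : Type} [Fintype κ] {f : κ → V n}

lemma Rm_eq_R (hh : ContDiff ℝ ∞ h)
    (hM : ∀ i j, ginv (metJ J h) x i j = ∑ a, f a i * f a j) (i j k l : Fin n) :
    Rm (metJ J h) x i j k l = (dat J h x).R f (eb i) (eb j) (eb k) (eb l) := by
  unfold Rm Dat.R
  simp only [Gam_eq_G J x hh, pd_pd_eq_S J x hh]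
  congr 1
  exact Lin2.contract (f := f) hM
    (B := fun u v => (dat J h x).G u (eb j) (eb k) * (dat J h x).G v (eb i) (eb l)
      - (dat J h x).G u (eb i) (eb k) * (dat J h x).G v (eb j) (eb l))
    ⟨fun u v b => by simp only [Dat.G_add1]; ring, fun t v b => by simp only [Dat.G_smul1]; ring,
     fun u v b => by simp only [Dat.G_add1]; ring, fun t v b => by simp only [Dat.G_smul1]; ring⟩

lemma Ric_eq (hh : ContDiff ℝ ∞ h)
    (hM : ∀ i j, ginv (metJ J h) x i j = ∑ a, f a i * f a j) (j l : Fin n) :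
    Ric (metJ J h) x j l = (dat J h x).Rc f (eb j) (eb l) := by
  unfold Ric Dat.Rc
  simp only [Rm_eq_R J x hh hM]
  exact Lin2.contract (f := f) hM
    (B := fun u v => (dat J h x).R f u (eb j) v (eb l))
    ⟨fun u v b => by simp only [Dat.R_add1], fun t v b => by simp only [Dat.R_smul1],
     fun u v b => by simp only [Dat.R_add3], fun t v b => by simp only [Dat.R_smul3]⟩

lemma Scal_eq (hh : ContDiff ℝ ∞ h)
    (hM : ∀ i j, ginv (metJ J h) x i j = ∑ a, f a i * f a j) :
    Scal (metJ J h) x = ∑ a, (dat J h x).Rc f (f a) (f a) := by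
  unfold Scal
  simp only [Ric_eq J x hh hM]
  exact Lin2.contract (f := f) hM ((dat J h x).lin2_Rc f)

lemma L2_eq (hh : ContDiff ℝ ∞ h)
    (hM : ∀ i j, ginv (metJ J h) x i j = ∑ a, f a i * f a j) :
    L2 (metJ J h) x = (∑ a, ∑ b, ∑ c, ∑ d, (dat J h x).R f (f a) (f b) (f c) (f d) ^ 2)
      - 4 * (∑ a, ∑ b, (dat J h x).Rc f (f a) (f b) ^ 2)
      + (∑ a, (dat J h x).Rc f (f a) (f a)) ^ 2 := by
  unfold L2
  rw [Scal_eq J x hh hM]
  congr 1
  congr 1
  · unfold RmUp
    simp only [Rm_eq_R J x hh hM]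
    exact Lin4.norm hM ((dat J h x).lin4 f)
  · unfold RicUp
    simp only [Ric_eq J x hh hM]
    rw [Lin2.norm hM ((dat J h x).lin2_Rc f)]

end

end Pool.Agent.H498R3.GB
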