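import Pool.Agent.H498R3.GBMain

/-!
A metric which is the pull-back of the Euclidean metric has vanishing curvature.
-/

namespace Pool.Agent.H498R3.GB

open scoped BigOperators ContDiff Topology Matrix
open MeasureTheory Filter Metric

noncomputable section

variable {n : ℕ}

/-- `(ℝ^n, g)` is isometric to Euclidean space: there is a smooth bijection `φ` of `ℝ^n` whose
differential at every point is an isometry from `g` to the Euclidean inner product
(such a `φ` is a diffeomorphism, by the inverse function theorem). -/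
def IsIsometricToEuclidean (g : MetricField n) : Prop :=
  ∃ φ : E n → E n, ContDiff ℝ ∞ φ ∧ Function.Bijective φ ∧
    ∀ (x : E n) (v w : E n), inner ℝ (fderiv ℝ φ x v) (fderiv ℝ φ x w) =
      ∑ i, ∑ j, g x i j * v i * w j

/-- vector valued partial derivative -/
def pv (i : Fin n) (F : E n → E n) (x : E n) : E n := fderiv ℝ F x (EuclideanSpace.single i 1)

lemma contDiff_pv {F : E n → E n} (hF : ContDiff ℝ ∞ F) (i : Fin n) : ContDiff ℝ ∞ (pv i F) := by
  unfold pv
  exact (hF.fderiv_right (m := ∞) (by simp)).clm_apply contDiff_const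

lemma pd_inner {F G : E n → E n} (hF : ContDiff ℝ ∞ F) (hG : ContDiff ℝ ∞ G) (i : Fin n)
    (x : E n) :
    pd i (fun z => inner ℝ (F z) (G z)) x =
      inner ℝ (F x) (pv i G x) + inner ℝ (pv i F x) (G x) := by
  unfold pd pv
  rw [fderiv_inner_apply ℝ ((hF.differentiable (by simp)) x) ((hG.differentiable (by simp)) x)]

lemma pv_comm {F : E n → E n} (hF : ContDiff ℝ ∞ F) (i j : Fin n) (x : E n) :
    pv i (pv j F) x = pv j (pv i F) x := by
  have hd : DifferentiableAt ℝ (fderiv ℝ F) x :=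
    ((hF.fderiv_right (m := ∞) (by simp)).differentiable (by simp)) x
  have hs : IsSymmSndFDerivAt ℝ F x :=
    (hF.contDiffAt).isSymmSndFDerivAt (by
      rw [minSmoothness_of_isRCLikeNormedField]
      exact WithTop.coe_le_coe.2 (le_top : (2 : ℕ∞) ≤ ⊤))
  have e : ∀ a b : Fin n, pv a (pv b F) x =
      fderiv ℝ (fderiv ℝ F) x (EuclideanSpace.single a 1) (EuclideanSpace.single b 1) := by
    intro a b
    unfold pv
    rw [fderiv_clm_apply hd (differentiableAt_const _)]
    simp
  rw [e, e]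
  exact hs _ _

theorem Rm_eq_zero_of_isometric {g : MetricField n} (hg : ∀ x, (g x).PosDef)
    (hiso : IsIsometricToEuclidean g) (x : E n) (i j k l : Fin n) : Rm g x i j k l = 0 := by
  obtain ⟨φ, hφ, -, hiso⟩ := hiso
  have hgij : ∀ (z : E n) (a b : Fin n), g z a b = inner ℝ (pv a φ z) (pv b φ z) := by
    intro z a b
    unfold pv
    rw [hiso]
    simp [EuclideanSpace.single_apply]
  have hc := fun a => contDiff_pv hφ a
  have hcc := fun a b => contDiff_pv (hc a) b
  have hfun : ∀ a b : Fin n, (fun z => g z a b) = fun z => inner ℝ (pv a φ z) (pv b φ z) :=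
    fun a b => funext fun z => hgij z a b
  have hpd : ∀ (m a b : Fin n) (z : E n), pd m (fun z => g z a b) z =
      inner ℝ (pv a φ z) (pv m (pv b φ) z) + inner ℝ (pv m (pv a φ) z) (pv b φ z) := by
    intro m a b z
    rw [hfun, pd_inner (hc a) (hc b)]
  have hpd2 : ∀ (p m a b : Fin n), pd p (pd m (fun z => g z a b)) x =
      (inner ℝ (pv a φ x) (pv p (pv m (pv b φ)) x) + inner ℝ (pv p (pv a φ) x) (pv m (pv b φ) x))
      + (inner ℝ (pv m (pv a φ) x) (pv p (pv b φ) x)
        + inner ℝ (pv p (pv m (pv a φ)) x) (pv b φ x)) := by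
    intro p m a b
    have e : pd m (fun z => g z a b) = fun z =>
      inner ℝ (pv a φ z) (pv m (pv b φ) z) + inner ℝ (pv m (pv a φ) z) (pv b φ z) :=
      funext fun z => hpd m a b z
    rw [e, pd_add (diff_of ((hc a).inner ℝ (hcc b m)) x) (diff_of ((hcc a m).inner ℝ (hc b)) x),
      pd_inner (hc a) (hcc b m), pd_inner (hcc a m) (hc b)]
  have hs : ∀ a b : Fin n, pv a (pv b φ) = pv b (pv a φ) := fun a b =>
    funext fun z => pv_comm hφ a b z
  have hs3 : ∀ a b c : Fin n, pv a (pv b (pv c φ)) = pv b (pv a (pv c φ)) := fun a b c =>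
    funext fun z => pv_comm (hc c) a b z
  have hGam : ∀ m a b : Fin n, Gam g x m a b = inner ℝ (pv m φ x) (pv a (pv b φ) x) := by
    intro m a b
    unfold Gam
    rw [hpd, hpd, hpd, hs b a, hs m a, hs m b,
      real_inner_comm (pv a φ x), real_inner_comm (pv b φ x) (pv a (pv m φ) x)]
    ring_nf
    try simp only [real_inner_comm]
    try ring
  -- Gram identity
  have hgram : ∀ u w : E n, ∑ p, ∑ q, ginv g x p q *
      (inner ℝ (pv p φ x) u * inner ℝ (pv q φ x) w) = inner ℝ u w := by
    intro u w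
    let A : Matrix (Fin n) (Fin n) ℝ := fun a i => (pv i φ x) a
    have hgA : g x = Aᵀ * A := by
      ext a b
      rw [hgij, Matrix.mul_apply, PiLp.inner_apply]
      refine Finset.sum_congr rfl fun c _ => ?_
      simp [A, mul_comm]
    have hdet : IsUnit (g x).det := (hg x).det_pos.ne'.isUnit
    have hdetA : IsUnit A.det := by
      rw [hgA, Matrix.det_mul, Matrix.det_transpose] at hdet
      exact isUnit_of_mul_isUnit_left hdet
    have hinv : A * (g x)⁻¹ * Aᵀ = 1 := by
      have hAT : IsUnit (Aᵀ).det := by rwa [Matrix.det_transpose]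
      rw [hgA, Matrix.mul_inv_rev, ← mul_assoc, Matrix.mul_nonsing_inv _ hdetA, one_mul,
        Matrix.nonsing_inv_mul _ hAT]
    have e1 : ∀ p, inner ℝ (pv p φ x) u = ∑ a, A a p * u a := by
      intro p; rw [PiLp.inner_apply]
      refine Finset.sum_congr rfl fun a _ => ?_
      simp [A, mul_comm]
    have e2 : ∀ p, inner ℝ (pv p φ x) w = ∑ a, A a p * w a := by
      intro p; rw [PiLp.inner_apply]
      refine Finset.sum_congr rfl fun a _ => ?_
      simp [A, mul_comm]
    have e3 : ∑ p, ∑ q, ginv g x p q *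
      (inner ℝ (pv p φ x) u * inner ℝ (pv q φ x) w) =
        u.ofLp ⬝ᵥ ((A * (g x)⁻¹ * Aᵀ) *ᵥ w.ofLp) := by
      have e4 : ∀ p, inner ℝ (pv p φ x) u = (Aᵀ *ᵥ u.ofLp) p := by
        intro p; rw [e1]; simp [Matrix.mulVec, dotProduct]
      have e5 : ∀ p, inner ℝ (pv p φ x) w = (Aᵀ *ᵥ w.ofLp) p := by
        intro p; rw [e2]; simp [Matrix.mulVec, dotProduct]
      rw [← Matrix.mulVec_mulVec, ← Matrix.mulVec_mulVec, Matrix.dotProduct_mulVec,
        ← Matrix.mulVec_transpose]
      simp only [e4, e5, ginv]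
      simp only [dotProduct, Matrix.mulVec, Finset.mul_sum]
      refine Finset.sum_congr rfl fun p _ => Finset.sum_congr rfl fun q _ => ?_
      simp only [Finset.sum_mul, Finset.mul_sum]
      refine Finset.sum_congr rfl fun a _ => ?_
      refine Finset.sum_congr rfl fun b _ => ?_
      ring
    rw [e3, hinv, Matrix.one_mulVec]
    rw [PiLp.inner_apply]
    simp [dotProduct, mul_comm]
  unfold Rm
  simp only [hpd2, hGam, mul_sub, Finset.sum_sub_distrib, hgram]
  have a1 : inner ℝ (pv i φ x) (pv j (pv k (pv l φ)) x)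
      = inner ℝ (pv i φ x) (pv j (pv l (pv k φ)) x) := by rw [hs k l]
  have a2 : inner ℝ (pv j φ x) (pv i (pv l (pv k φ)) x)
      = inner ℝ (pv j φ x) (pv i (pv k (pv l φ)) x) := by rw [hs l k]
  have a3 : inner ℝ (pv j (pv k (pv i φ)) x) (pv l φ x)
      = inner ℝ (pv i (pv k (pv j φ)) x) (pv l φ x) := by rw [hs k i, hs3 j i k, hs j k]
  have a4 : inner ℝ (pv i (pv l (pv j φ)) x) (pv k φ x)
      = inner ℝ (pv j (pv l (pv i φ)) x) (pv k φ x) := by rw [hs l j, hs3 i j l, hs i l]
  have b1 : inner ℝ (pv j (pv i φ) x) (pv k (pv l φ) x)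
      = inner ℝ (pv i (pv j φ) x) (pv k (pv l φ) x) := by rw [hs j i]
  have b2 : inner ℝ (pv i (pv j φ) x) (pv l (pv k φ) x)
      = inner ℝ (pv j (pv i φ) x) (pv l (pv k φ) x) := by rw [hs j i]
  have b3 : inner ℝ (pv k (pv i φ) x) (pv j (pv l φ) x)
      = inner ℝ (pv i (pv k φ) x) (pv j (pv l φ) x) := by rw [hs k i]
  have b4 : inner ℝ (pv l (pv j φ) x) (pv i (pv k φ) x)
      = inner ℝ (pv i (pv k φ) x) (pv j (pv l φ) x) := by rw [hs l j, real_inner_comm]
  have b5 : inner ℝ (pv k (pv j φ) x) (pv i (pv l φ) x)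
      = inner ℝ (pv j (pv k φ) x) (pv i (pv l φ) x) := by rw [hs k j]
  have b6 : inner ℝ (pv l (pv i φ) x) (pv j (pv k φ) x)
      = inner ℝ (pv j (pv k φ) x) (pv i (pv l φ) x) := by rw [hs l i, real_inner_comm]
  linarith

theorem L2_eq_zero_of_isometric {g : MetricField n} (hg : ∀ x, (g x).PosDef)
    (hiso : IsIsometricToEuclidean g) (x : E n) : L2 g x = 0 := by
  have h := Rm_eq_zero_of_isometric hg hiso x
  simp [L2, RmUp, RicUp, Ric, Scal, h]

theorem g6_not_isometric : ¬ IsIsometricToEuclidean g6 := fun h => by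
  have h1 := L2_eq_zero_of_isometric g6_posDef h 0
  have h2 := L2_g6_zero_pos
  linarith

end

end Pool.Agent.H498R3.GB
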