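import Pool.Agent.H498R3.GBDeriv

namespace Pool.Agent.H498R3.GB

open scoped BigOperators ContDiff Topology Matrix
open MeasureTheory Filter Metric

noncomputable section

variable {n : ℕ}

abbrev V (n : ℕ) := Fin n → ℝ

/-- data: two linear forms and two bilinear forms -/
structure Dat (n : ℕ) where
  X : V n →ₗ[ℝ] ℝ
  Y : V n →ₗ[ℝ] ℝ
  N : V n →ₗ[ℝ] V n →ₗ[ℝ] ℝ
  O : V n →ₗ[ℝ] V n →ₗ[ℝ] ℝ
  h0 : ℝ
  h1 : ℝ
  h2 : ℝ

namespace Dat

variable (D : Dat n)

def T (k a b : V n) : ℝ :=
  2 * D.X k * D.h1 * (D.Y a * D.Y b) + D.h0 * (D.O a k * D.Y b + D.Y a * D.O b k)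

def S (k l i j : V n) : ℝ :=
  2 * D.N k l * D.h1 * (D.Y i * D.Y j)
    + 4 * D.X k * D.X l * D.h2 * (D.Y i * D.Y j)
    + 2 * D.X l * D.h1 * (D.O i k * D.Y j + D.Y i * D.O j k)
    + 2 * D.X k * D.h1 * (D.O i l * D.Y j + D.Y i * D.O j l)
    + D.h0 * (D.O i l * D.O j k + D.O i k * D.O j l)

def G (m a b : V n) : ℝ := (D.T a m b + D.T b m a - D.T m a b) / 2

variable {κ : Type} [Fintype κ] (f : κ → V n)

def R (a b c d : V n) : ℝ :=
  (D.S b c a d + D.S a d b c - D.S a c b d - D.S b d a c) / 2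
    + ∑ e, (D.G (f e) b c * D.G (f e) a d - D.G (f e) a c * D.G (f e) b d)

lemma T_add1 (u v a b : V n) : D.T (u + v) a b = D.T u a b + D.T v a b := by
  simp only [T, map_add, LinearMap.add_apply]; ring
lemma T_add2 (u v a b : V n) : D.T a (u + v) b = D.T a u b + D.T a v b := by
  simp only [T, map_add, LinearMap.add_apply]; ring
lemma T_add3 (u v a b : V n) : D.T a b (u + v) = D.T a b u + D.T a b v := by
  simp only [T, map_add, LinearMap.add_apply]; ring
lemma T_smul1 (c : ℝ) (v a b : V n) : D.T (c • v) a b = c * D.T v a b := by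
  simp only [T, map_smul, LinearMap.smul_apply, smul_eq_mul]; ring
lemma T_smul2 (c : ℝ) (v a b : V n) : D.T a (c • v) b = c * D.T a v b := by
  simp only [T, map_smul, LinearMap.smul_apply, smul_eq_mul]; ring
lemma T_smul3 (c : ℝ) (v a b : V n) : D.T a b (c • v) = c * D.T a b v := by
  simp only [T, map_smul, LinearMap.smul_apply, smul_eq_mul]; ring

lemma G_add1 (u v a b : V n) : D.G (u + v) a b = D.G u a b + D.G v a b := by
  simp only [G, T_add1, T_add2, T_add3]; ring
lemma G_add2 (u v a b : V n) : D.G a (u + v) b = D.G a u b + D.G a v b := by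
  simp only [G, T_add1, T_add2, T_add3]; ring
lemma G_add3 (u v a b : V n) : D.G a b (u + v) = D.G a b u + D.G a b v := by
  simp only [G, T_add1, T_add2, T_add3]; ring
lemma G_smul1 (c : ℝ) (v a b : V n) : D.G (c • v) a b = c * D.G v a b := by
  simp only [G, T_smul1, T_smul2, T_smul3]; ring
lemma G_smul2 (c : ℝ) (v a b : V n) : D.G a (c • v) b = c * D.G a v b := by
  simp only [G, T_smul1, T_smul2, T_smul3]; ring
lemma G_smul3 (c : ℝ) (v a b : V n) : D.G a b (c • v) = c * D.G a b v := by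
  simp only [G, T_smul1, T_smul2, T_smul3]; ring

lemma R_add1 (u v b c d : V n) : D.R f (u + v) b c d = D.R f u b c d + D.R f v b c d := by
  have : ∑ e, (D.G (f e) b c * D.G (f e) (u + v) d - D.G (f e) (u + v) c * D.G (f e) b d)
      = ∑ e, (D.G (f e) b c * D.G (f e) u d - D.G (f e) u c * D.G (f e) b d)
      + ∑ e, (D.G (f e) b c * D.G (f e) v d - D.G (f e) v c * D.G (f e) b d) := by
    rw [← Finset.sum_add_distrib]
    refine Finset.sum_congr rfl fun e _ => ?_
    rw [G_add2, G_add2]; ring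
  unfold R
  rw [this]
  simp only [S, map_add, LinearMap.add_apply]; ring

lemma R_smul1 (t : ℝ) (v b c d : V n) : D.R f (t • v) b c d = t * D.R f v b c d := by
  have : ∑ e, (D.G (f e) b c * D.G (f e) (t • v) d - D.G (f e) (t • v) c * D.G (f e) b d)
      = t * ∑ e, (D.G (f e) b c * D.G (f e) v d - D.G (f e) v c * D.G (f e) b d) := by
    rw [Finset.mul_sum]
    refine Finset.sum_congr rfl fun e _ => ?_
    rw [G_smul2, G_smul2]; ring
  unfold R
  rw [this]
  simp only [S, map_smul, LinearMap.smul_apply, smul_eq_mul]; ring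

lemma R_add2 (u v a c d : V n) : D.R f a (u + v) c d = D.R f a u c d + D.R f a v c d := by
  have : ∑ e, (D.G (f e) (u + v) c * D.G (f e) a d - D.G (f e) a c * D.G (f e) (u + v) d)
      = ∑ e, (D.G (f e) u c * D.G (f e) a d - D.G (f e) a c * D.G (f e) u d)
      + ∑ e, (D.G (f e) v c * D.G (f e) a d - D.G (f e) a c * D.G (f e) v d) := by
    rw [← Finset.sum_add_distrib]
    refine Finset.sum_congr rfl fun e _ => ?_
    rw [G_add2, G_add2]; ring
  unfold R
  rw [this]
  simp only [S, map_add, LinearMap.add_apply]; ring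

lemma R_smul2 (t : ℝ) (v a c d : V n) : D.R f a (t • v) c d = t * D.R f a v c d := by
  have : ∑ e, (D.G (f e) (t • v) c * D.G (f e) a d - D.G (f e) a c * D.G (f e) (t • v) d)
      = t * ∑ e, (D.G (f e) v c * D.G (f e) a d - D.G (f e) a c * D.G (f e) v d) := by
    rw [Finset.mul_sum]
    refine Finset.sum_congr rfl fun e _ => ?_
    rw [G_smul2, G_smul2]; ring
  unfold R
  rw [this]
  simp only [S, map_smul, LinearMap.smul_apply, smul_eq_mul]; ring

lemma R_add3 (u v a b d : V n) : D.R f a b (u + v) d = D.R f a b u d + D.R f a b v d := by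
  have : ∑ e, (D.G (f e) b (u + v) * D.G (f e) a d - D.G (f e) a (u + v) * D.G (f e) b d)
      = ∑ e, (D.G (f e) b u * D.G (f e) a d - D.G (f e) a u * D.G (f e) b d)
      + ∑ e, (D.G (f e) b v * D.G (f e) a d - D.G (f e) a v * D.G (f e) b d) := by
    rw [← Finset.sum_add_distrib]
    refine Finset.sum_congr rfl fun e _ => ?_
    rw [G_add3, G_add3]; ring
  unfold R
  rw [this]
  simp only [S, map_add, LinearMap.add_apply]; ring

lemma R_smul3 (t : ℝ) (v a b d : V n) : D.R f a b (t • v) d = t * D.R f a b v d := by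
  have : ∑ e, (D.G (f e) b (t • v) * D.G (f e) a d - D.G (f e) a (t • v) * D.G (f e) b d)
      = t * ∑ e, (D.G (f e) b v * D.G (f e) a d - D.G (f e) a v * D.G (f e) b d) := by
    rw [Finset.mul_sum]
    refine Finset.sum_congr rfl fun e _ => ?_
    rw [G_smul3, G_smul3]; ring
  unfold R
  rw [this]
  simp only [S, map_smul, LinearMap.smul_apply, smul_eq_mul]; ring

lemma R_add4 (u v a b c : V n) : D.R f a b c (u + v) = D.R f a b c u + D.R f a b c v := by
  have : ∑ e, (D.G (f e) b c * D.G (f e) a (u + v) - D.G (f e) a c * D.G (f e) b (u + v))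
      = ∑ e, (D.G (f e) b c * D.G (f e) a u - D.G (f e) a c * D.G (f e) b u)
      + ∑ e, (D.G (f e) b c * D.G (f e) a v - D.G (f e) a c * D.G (f e) b v) := by
    rw [← Finset.sum_add_distrib]
    refine Finset.sum_congr rfl fun e _ => ?_
    rw [G_add3, G_add3]; ring
  unfold R
  rw [this]
  simp only [S, map_add, LinearMap.add_apply]; ring

lemma R_smul4 (t : ℝ) (v a b c : V n) : D.R f a b c (t • v) = t * D.R f a b c v := by
  have : ∑ e, (D.G (f e) b c * D.G (f e) a (t • v) - D.G (f e) a c * D.G (f e) b (t • v))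
      = t * ∑ e, (D.G (f e) b c * D.G (f e) a v - D.G (f e) a c * D.G (f e) b v) := by
    rw [Finset.mul_sum]
    refine Finset.sum_congr rfl fun e _ => ?_
    rw [G_smul3, G_smul3]; ring
  unfold R
  rw [this]
  simp only [S, map_smul, LinearMap.smul_apply, smul_eq_mul]; ring

end Dat

/-- standard basis vector -/
def eb (i : Fin n) : V n := fun j => if i = j then 1 else 0

lemma lin_expand {φ : V n → ℝ} (ha : ∀ u v, φ (u + v) = φ u + φ v)
    (hs : ∀ (t : ℝ) v, φ (t • v) = t * φ v) (u : V n) :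
    φ u = ∑ i, u i * φ (eb i) := by
  let L : V n →ₗ[ℝ] ℝ := { toFun := φ, map_add' := ha, map_smul' := by intro t v; simpa using hs t v }
  exact L.pi_apply_eq_sum_univ u

/-- The contraction of a bilinear function with `M = ∑ f_a f_aᵀ`. -/
lemma contract2 {κ : Type} [Fintype κ] (f : κ → V n) {M : Matrix (Fin n) (Fin n) ℝ}
    (hM : ∀ i j, M i j = ∑ a, f a i * f a j) {B : V n → V n → ℝ}
    (h1 : ∀ u v w, B (u + v) w = B u w + B v w) (h2 : ∀ (t : ℝ) v w, B (t • v) w = t * B v w)
    (h3 : ∀ u v w, B w (u + v) = B w u + B w v) (h4 : ∀ (t : ℝ) v w, B w (t • v) = t * B w v) :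
    ∑ i, ∑ j, M i j * B (eb i) (eb j) = ∑ a, B (f a) (f a) := by
  have e1 : ∀ a, B (f a) (f a) = ∑ i, ∑ j, f a i * f a j * B (eb i) (eb j) := by
    intro a
    rw [lin_expand (φ := fun u => B u (f a)) (fun u v => h1 u v _) (fun t v => h2 t v _) (f a)]
    refine Finset.sum_congr rfl fun i _ => ?_
    rw [lin_expand (φ := fun u => B (eb i) u) (fun u v => h3 u v _) (fun t v => h4 t v _) (f a),
      Finset.mul_sum]
    refine Finset.sum_congr rfl fun j _ => ?_
    ring
  simp_rw [e1, hM, Finset.sum_mul]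
  have key : ∀ i : Fin n, ∑ j, ∑ a, f a i * f a j * B (eb i) (eb j)
      = ∑ a, ∑ j, f a i * f a j * B (eb i) (eb j) := fun i => Finset.sum_comm
  simp_rw [key]
  rw [Finset.sum_comm]

end

end Pool.Agent.H498R3.GB
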