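import Pool.Agent.H498R3.GBAdapted

namespace Pool.Agent.H498R3.GB

open scoped BigOperators ContDiff Topology Matrix
open MeasureTheory Filter Metric

noncomputable section

/-- The profile `h(s) = exp(11 - 11/(2-s))` for `s < 2` and `0` for `s ≥ 2`. -/
def hfun (s : ℝ) : ℝ := Real.exp 11 * expNegInvGlue ((2 - s) / 11)

lemma hfun_contDiff : ContDiff ℝ ∞ hfun := by
  unfold hfun
  exact contDiff_const.mul (expNegInvGlue.contDiff.comp (by fun_prop))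

lemma hfun_nonneg (s : ℝ) : 0 ≤ hfun s :=
  mul_nonneg (Real.exp_pos _).le (expNegInvGlue.nonneg _)

lemma hfun_zero {s : ℝ} (hs : 2 ≤ s) : hfun s = 0 := by
  unfold hfun; rw [expNegInvGlue.zero_of_nonpos (by linarith : (2 - s) / 11 ≤ 0), mul_zero]

lemma hfun_eq {s : ℝ} (hs : s < 2) : hfun s = Real.exp (11 - 11 * (2 - s)⁻¹) := by
  unfold hfun expNegInvGlue
  have : ¬ ((2 - s) / 11 ≤ 0) := by
    rw [not_le]; linarith
  rw [if_neg this, ← Real.exp_add]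
  congr 1
  have h2 : (2 - s) ≠ 0 := by linarith
  field_simp
  ring

lemma hfun_hasDerivAt {s : ℝ} (hs : s < 2) :
    HasDerivAt hfun (hfun s * (-11 * ((2 - s)⁻¹) ^ 2)) s := by
  have h2 : (2 - s) ≠ 0 := by linarith
  have e : (fun u => Real.exp (11 - 11 * (2 - u)⁻¹)) =ᶠ[𝓝 s] hfun := by
    filter_upwards [Iio_mem_nhds hs] with u hu
    exact (hfun_eq hu).symm
  have h1 : HasDerivAt (fun u : ℝ => 2 - u) (-1) s := by
    simpa using (hasDerivAt_id s).const_sub 2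
  have h3 : HasDerivAt (fun u : ℝ => (2 - u)⁻¹) (((2 - s)⁻¹) ^ 2) s :=
    (h1.fun_inv h2).congr_deriv (by field_simp)
  have h4 : HasDerivAt (fun u : ℝ => 11 - 11 * (2 - u)⁻¹) (-11 * ((2 - s)⁻¹) ^ 2) s :=
    ((h3.const_mul 11).const_sub 11).congr_deriv (by ring)
  have h6 := h4.exp
  rw [← hfun_eq hs] at h6
  exact h6.congr_of_eventuallyEq e.symm

lemma hfun_deriv {s : ℝ} (hs : s < 2) : deriv hfun s = hfun s * (-11 * ((2 - s)⁻¹) ^ 2) :=
  (hfun_hasDerivAt hs).deriv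

lemma hfun_deriv2 {s : ℝ} (hs : s < 2) :
    deriv (deriv hfun) s = hfun s * (121 * ((2 - s)⁻¹) ^ 4 - 22 * ((2 - s)⁻¹) ^ 3) := by
  have h2 : (2 - s) ≠ 0 := by linarith
  have e : deriv hfun =ᶠ[𝓝 s] fun u => hfun u * (-11 * ((2 - u)⁻¹) ^ 2) := by
    filter_upwards [Iio_mem_nhds hs] with u hu
    exact hfun_deriv hu
  rw [e.deriv_eq]
  have h1 : HasDerivAt (fun u : ℝ => 2 - u) (-1) s := by
    simpa using (hasDerivAt_id s).const_sub 2
  have h3 : HasDerivAt (fun u : ℝ => (2 - u)⁻¹) (((2 - s)⁻¹) ^ 2) s :=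
    (h1.fun_inv h2).congr_deriv (by field_simp)
  have h4 : HasDerivAt (fun u : ℝ => -11 * ((2 - u)⁻¹) ^ 2) (-22 * ((2 - s)⁻¹) ^ 3) s :=
    ((h3.fun_pow 2).const_mul (-11)).congr_deriv (by push_cast; ring)
  rw [((hfun_hasDerivAt hs).fun_mul h4).deriv]; ring

/-- the polynomial inequality on `[1/2, 1]` -/
lemma poly_pos {y : ℝ} (h0 : 0 ≤ y) (h1 : y ≤ 1) :
    0 ≤ y * (1 + (11 / 2 * (1 - y)) + (11 / 2 * (1 - y)) ^ 2 / 2 + (11 / 2 * (1 - y)) ^ 3 / 6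
        + (11 / 2 * (1 - y)) ^ 4 / 24)
      + (1 + y) / 2 * (13 - 77 * y * (1 + y) - 44 * y * (1 + y) ^ 2
        + 363 / 2 * y ^ 2 * (1 + y) ^ 2) := by
  rcases le_total y (1 / 4) with h | h
  · have e : y * (1 + (11 / 2 * (1 - y)) + (11 / 2 * (1 - y)) ^ 2 / 2 + (11 / 2 * (1 - y)) ^ 3 / 6
        + (11 / 2 * (1 - y)) ^ 4 / 24)
      + (1 + y) / 2 * (13 - 77 * y * (1 + y) - 44 * y * (1 + y) ^ 2
        + 363 / 2 * y ^ 2 * (1 + y) ^ 2)
      = (6656/1) * ((y - 0) ^ 0 * (1/4 - y) ^ 5) + (125554/3) * ((y - 0) ^ 1 * (1/4 - y) ^ 4) + (240386/3) * ((y - 0) ^ 2 * (1/4 - y) ^ 3) + (255021/4) * ((y - 0) ^ 3 * (1/4 - y) ^ 2) + (172239/8) * ((y - 0) ^ 4 * (1/4 - y) ^ 1) + (363115/128) * ((y - 0) ^ 5 * (1/4 - y) ^ 0) := by ring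
    rw [e]
    have a1 : 0 ≤ y - 0 := by linarith
    have a2 : 0 ≤ 1 / 4 - y := by linarith
    positivity
  · rcases le_total y (1 / 2) with h' | h'
    · have e : y * (1 + (11 / 2 * (1 - y)) + (11 / 2 * (1 - y)) ^ 2 / 2 + (11 / 2 * (1 - y)) ^ 3 / 6
        + (11 / 2 * (1 - y)) ^ 4 / 24)
      + (1 + y) / 2 * (13 - 77 * y * (1 + y) - 44 * y * (1 + y) ^ 2
        + 363 / 2 * y ^ 2 * (1 + y) ^ 2)
      = (363115/128) * ((y - 1/4) ^ 0 * (1/2 - y) ^ 5) + (437663/64) * ((y - 1/4) ^ 1 * (1/2 - y) ^ 4) + (79835/16) * ((y - 1/4) ^ 2 * (1/2 - y) ^ 3) + (303185/24) * ((y - 1/4) ^ 3 * (1/2 - y) ^ 2) + (585373/24) * ((y - 1/4) ^ 4 * (1/2 - y) ^ 1) + (51499/4) * ((y - 1/4) ^ 5 * (1/2 - y) ^ 0) := by ring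
      rw [e]
      have a1 : 0 ≤ y - 1 / 4 := by linarith
      have a2 : 0 ≤ 1 / 2 - y := by linarith
      positivity
    · have e : y * (1 + (11 / 2 * (1 - y)) + (11 / 2 * (1 - y)) ^ 2 / 2 + (11 / 2 * (1 - y)) ^ 3 / 6
        + (11 / 2 * (1 - y)) ^ 4 / 24)
      + (1 + y) / 2 * (13 - 77 * y * (1 + y) - 44 * y * (1 + y) ^ 2
        + 363 / 2 * y ^ 2 * (1 + y) ^ 2)
      = (51499/128) * ((y - 1/2) ^ 0 * (1 - y) ^ 5) + (866041/192) * ((y - 1/2) ^ 1 * (1 - y) ^ 4) + (233957/12) * ((y - 1/2) ^ 2 * (1 - y) ^ 3) + (39277/1) * ((y - 1/2) ^ 3 * (1 - y) ^ 2) + (36880/1) * ((y - 1/2) ^ 4 * (1 - y) ^ 1) + (13120/1) * ((y - 1/2) ^ 5 * (1 - y) ^ 0) := by ring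
      rw [e]
      have a1 : 0 ≤ y - 1 / 2 := by linarith
      have a2 : 0 ≤ 1 - y := by linarith
      positivity

lemma exp_taylor4 {u : ℝ} (hu : 0 ≤ u) :
    1 + u + u ^ 2 / 2 + u ^ 3 / 6 + u ^ 4 / 24 ≤ Real.exp u := by
  have := Real.sum_le_exp_of_nonneg hu 5
  simp [Finset.sum_range_succ, Nat.factorial] at this
  linarith

/-- the key scalar inequality, `t = 1/(2-s)` -/
lemma key_ineq {t : ℝ} (ht : 1 / 2 ≤ t) :
    0 ≤ 13 + Real.exp (11 - 11 * t) * (2 - t⁻¹) - 14 * (11 * t * (2 * t - 1))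
      - 16 * (11 * t * (2 * t - 1)) * t + 6 * (11 * t * (2 * t - 1)) ^ 2 := by
  have ht0 : 0 < t := by linarith
  have hti : t * t⁻¹ = 1 := mul_inv_cancel₀ ht0.ne'
  rcases le_total t 1 with h | h
  · have hy0 : 0 ≤ 2 * t - 1 := by linarith
    have hy1 : 2 * t - 1 ≤ 1 := by linarith
    have hp := poly_pos hy0 hy1
    have he := exp_taylor4 (u := 11 - 11 * t) (by linarith)
    have h3 : (2 - t⁻¹) = (2 * t - 1) * t⁻¹ := by
      have : (2 * t - 1) * t⁻¹ = 2 * (t * t⁻¹) - t⁻¹ := by ring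
      rw [this, hti]; ring
    have h4 : 0 ≤ t * (13 + Real.exp (11 - 11 * t) * (2 - t⁻¹) - 14 * (11 * t * (2 * t - 1))
      - 16 * (11 * t * (2 * t - 1)) * t + 6 * (11 * t * (2 * t - 1)) ^ 2) := by
      rw [h3]
      have e5 : t * (13 + Real.exp (11 - 11 * t) * ((2 * t - 1) * t⁻¹) - 14 * (11 * t * (2 * t - 1))
        - 16 * (11 * t * (2 * t - 1)) * t + 6 * (11 * t * (2 * t - 1)) ^ 2)
        = t * (13 - 14 * (11 * t * (2 * t - 1)) - 16 * (11 * t * (2 * t - 1)) * t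
          + 6 * (11 * t * (2 * t - 1)) ^ 2)
          + Real.exp (11 - 11 * t) * (2 * t - 1) * (t * t⁻¹) := by ring
      rw [e5, hti, mul_one]
      have h6 := mul_le_mul_of_nonneg_right he hy0
      nlinarith [hp, h6]
    exact nonneg_of_mul_nonneg_right h4 ht0
  · have h5 : 0 ≤ Real.exp (11 - 11 * t) * (2 - t⁻¹) := by
      have : t⁻¹ ≤ 1 := inv_le_one_of_one_le₀ h
      have h7 := Real.exp_pos (11 - 11 * t)
      exact mul_nonneg h7.le (by linarith)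
    have ha : t ≤ t * (2 * t - 1) := by nlinarith
    have ha1 : 1 ≤ t * (2 * t - 1) := by linarith
    set a := t * (2 * t - 1) with hadef
    have e6 : 11 * t * (2 * t - 1) = 11 * a := by rw [hadef]; ring
    rw [e6]
    nlinarith [mul_nonneg (sub_nonneg.2 ha) (by linarith : (0:ℝ) ≤ a),
      mul_nonneg (sub_nonneg.2 ha1) (by linarith : (0:ℝ) ≤ a)]

/-- `L_2 ≥ 0` for the metric `δ + h(|x|²) Jx ⊗ Jx`. -/
theorem L2_nonneg (x : E 6) : 0 ≤ L2 (metJ J6 hfun) x := by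
  set s := ‖x‖ ^ 2 with hs
  have hs0 : 0 ≤ s := by positivity
  have hk := hfun_nonneg s
  have hD : 0 < 1 + hfun s * s := by positivity
  rw [L2_metJ6 hfun_contDiff x (s := s) hs rfl rfl rfl rfl hD]
  rcases lt_or_ge s 2 with h2 | h2
  · rw [hfun_deriv h2, hfun_deriv2 h2]
    set t := (2 - s)⁻¹ with ht
    have h2s : 0 < 2 - s := by linarith
    have ht2 : 1 / 2 ≤ t := by
      rw [ht, one_div]; exact inv_anti₀ h2s (by linarith)
    have hts : t * (2 - s) = 1 := inv_mul_cancel₀ h2s.ne'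
    have ht0 : 0 < t := by linarith
    have hsv : s = 2 - t⁻¹ := by rw [ht, inv_inv]; ring
    have hkey := key_ineq ht2
    rw [← hsv] at hkey
    have hk2 : Real.exp (11 - 11 * t) = hfun s := by rw [hfun_eq h2]
    rw [hk2] at hkey
    set k := hfun s with hkdef
    set D := 1 + k * s with hDdef
    have hst : t * s = 2 * t - 1 := by linarith
    -- U = 1 - V
    have e : 24 * (5 * k ^ 2
      + 2 * k * (3 * (k + k * (-11 * t ^ 2) * s) / D
          + 2 * s * (2 * (k * (-11 * t ^ 2)) + k * (121 * t ^ 4 - 22 * t ^ 3) * s) / D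
          - s * ((k + k * (-11 * t ^ 2) * s) / D) ^ 2)
      - 4 * k * (s * (k ^ 2 - k * (-11 * t ^ 2)) / D)
      + 4 * ((k + k * (-11 * t ^ 2) * s) ^ 2 / D))
      = 24 * k ^ 2 / D * ((13 + k * s - 14 * (11 * t * (t * s))
          - 16 * (11 * t * (t * s)) * t + 6 * (11 * t * (t * s)) ^ 2)
          + 2 * (1 - k * s / D) * (1 - 11 * t * (t * s)) ^ 2
          + 8 * (11 * t * (t * s)) * (2 * t - 1 - t * s)) := by
      field_simp
      rw [hDdef]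
      ring
    rw [e, hst]
    have h1 : 0 ≤ 1 - k * s / D := by
      rw [sub_nonneg, div_le_one hD]; linarith
    have h7 : 0 ≤ 24 * k ^ 2 / D := by positivity
    apply mul_nonneg h7
    have h8 : 0 ≤ 2 * (1 - k * s / D) * (1 - 11 * t * (2 * t - 1)) ^ 2 := by positivity
    linarith
  · rw [hfun_zero h2]
    simp
    positivity

end

end Pool.Agent.H498R3.GB
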