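import Pool.Agent.H498R3.GBIneq

namespace Pool.Agent.H498R3.GB

open scoped BigOperators ContDiff Topology Matrix
open MeasureTheory Filter Metric

noncomputable section

/-- The metric `δ_ij + h(|x|²) (Jx)_i (Jx)_j` on `ℝ^6`. -/
def g6 : MetricField 6 := metJ J6 hfun

lemma g6_contDiff (i j : Fin 6) : ContDiff ℝ ∞ (fun x => g6 x i j) := by
  unfold g6 metJ
  simp only [Matrix.of_apply]
  exact contDiff_const.add ((contDiff_hn hfun_contDiff).mul ((contDiff_yv _ _).mul (contDiff_yv _ _)))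

lemma dt_self_nonneg (u : V 6) : 0 ≤ dt u u :=
  Finset.sum_nonneg fun i _ => mul_self_nonneg _

lemma g6_form (x : E 6) (u w : V 6) :
    ∑ i, ∑ j, u i * g6 x i j * w j = dt u w + hfun (‖x‖ ^ 2) * (dt u (Jv x.ofLp) * dt w (Jv x.ofLp)) := by
  have := metJ_form hfun x u w
  rw [dat_N_eq, dat_Y_eq, dat_Y_eq] at this
  exact this

lemma g6_symm (x : E 6) (i j : Fin 6) : g6 x i j = g6 x j i := by
  unfold g6 metJ
  simp only [Matrix.of_apply, Matrix.one_apply, eq_comm]
  ring

lemma g6_posDef (x : E 6) : (g6 x).PosDef := by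
  refine Matrix.PosDef.of_dotProduct_mulVec_pos ?_ ?_
  · ext i j
    simp [Matrix.conjTranspose_apply, g6_symm x i j]
  · intro u hu
    have e : star u ⬝ᵥ (g6 x *ᵥ u) = ∑ i, ∑ j, u i * g6 x i j * u j := by
      simp only [dotProduct, Matrix.mulVec, Pi.star_apply, star_trivial, Finset.mul_sum, mul_assoc]
    rw [e, g6_form]
    have h1 : 0 < dt u u := by
      obtain ⟨i, hi⟩ := Function.ne_iff.1 hu
      exact Finset.sum_pos' (fun j _ => mul_self_nonneg _) ⟨i, Finset.mem_univ _, by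
        have : u i ≠ 0 := hi
        exact mul_self_pos.2 this⟩
    have h2 := hfun_nonneg (‖x‖ ^ 2)
    have h3 : 0 ≤ hfun (‖x‖ ^ 2) * (dt u (Jv x.ofLp) * dt u (Jv x.ofLp)) :=
      mul_nonneg h2 (mul_self_nonneg _)
    linarith

lemma g6_riem : IsRiemannianOn g6 Set.univ :=
  ⟨fun i j => (g6_contDiff i j).contDiffOn, fun x _ => g6_posDef x⟩

lemma g6_eq_one {x : E 6} (hx : 2 ≤ ‖x‖ ^ 2) : g6 x = 1 := by
  ext i j
  simp [g6, metJ, hfun_zero hx]

lemma far_nhds {x : E 6} (hx : 2 < ‖x‖ ^ 2) : ∀ᶠ z in 𝓝 x, 2 < ‖z‖ ^ 2 := by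
  have : Continuous fun z : E 6 => ‖z‖ ^ 2 := by fun_prop
  exact this.continuousAt.eventually (lt_mem_nhds hx)

lemma pd_congr {n : ℕ} {f f' : E n → ℝ} {x : E n} (h : f =ᶠ[𝓝 x] f') (i : Fin n) :
    pd i f x = pd i f' x := by
  unfold pd; rw [h.fderiv_eq]

lemma pd_g6_far {x : E 6} (hx : 2 < ‖x‖ ^ 2) (k i j : Fin 6) :
    pd k (fun z => g6 z i j) x = 0 := by
  rw [pd_congr (f' := fun _ => (1 : Matrix (Fin 6) (Fin 6) ℝ) i j)
    ((far_nhds hx).mono fun z hz => by simp only [g6_eq_one hz.le]), pd_const]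

lemma pd_pd_g6_far {x : E 6} (hx : 2 < ‖x‖ ^ 2) (k l i j : Fin 6) :
    pd l (pd k (fun z => g6 z i j)) x = 0 := by
  rw [pd_congr (f' := fun _ => (0 : ℝ))
    ((far_nhds hx).mono fun z hz => by simp only [pd_g6_far hz]), pd_const]

lemma g6_AF (τ : ℝ) : IsAsymptoticallyFlat g6 τ := by
  refine ⟨0, 2, by norm_num, fun x hx i j k l => ?_⟩
  have h2 : 2 < ‖x‖ ^ 2 := by nlinarith
  rw [g6_eq_one h2.le, pd_g6_far h2, pd_pd_g6_far h2]
  simp

lemma g6_mass : HasGBCMass g6 0 := by
  unfold HasGBCMass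
  have h : (fun r : ℝ => ((6 - 4).factorial : ℝ) / (2 * ((6 - 1).factorial : ℝ) * omegaSphere 6) *
    sphereIntegral (massIntegrand g6) r) =ᶠ[atTop] fun _ => 0 := by
    filter_upwards [eventually_gt_atTop 2] with r hr
    have : sphereIntegral (massIntegrand g6) r = 0 := by
      unfold sphereIntegral
      have h0 : ∀ u : sphere (0 : E 6) 1, massIntegrand g6 (r • (u : E 6)) = 0 := by
        intro u
        have hn : ‖r • (u : E 6)‖ = r := by
          rw [norm_smul, norm_eq_of_mem_sphere u, mul_one, Real.norm_of_nonneg (by linarith)]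
        have h2 : 2 < ‖r • (u : E 6)‖ ^ 2 := by rw [hn]; nlinarith
        unfold massIntegrand
        simp [pd_g6_far h2]
      simp [h0]
    rw [this, mul_zero]
  exact tendsto_const_nhds.congr' h.symm

/-- The value of `L_2` as a function of `s = |x|²`. -/
def Lam (s : ℝ) : ℝ :=
  24 * (5 * hfun s ^ 2
      + 2 * hfun s * (3 * (hfun s + deriv hfun s * s) / (1 + hfun s * s)
          + 2 * s * (2 * deriv hfun s + deriv (deriv hfun) s * s) / (1 + hfun s * s)
          - s * ((hfun s + deriv hfun s * s) / (1 + hfun s * s)) ^ 2)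
      - 4 * hfun s * (s * (hfun s ^ 2 - deriv hfun s) / (1 + hfun s * s))
      + 4 * ((hfun s + deriv hfun s * s) ^ 2 / (1 + hfun s * s)))

lemma D_pos {s : ℝ} (hs : 0 ≤ s) : 0 < 1 + hfun s * s := by
  have := hfun_nonneg s; positivity

lemma L2_g6 (x : E 6) : L2 g6 x = Lam (‖x‖ ^ 2) :=
  L2_metJ6 hfun_contDiff x rfl rfl rfl rfl rfl (D_pos (by positivity))

lemma L2_g6_continuous : Continuous (L2 g6) := by
  have e : L2 g6 = fun x => Lam (‖x‖ ^ 2) := funext L2_g6
  rw [e]
  have h0 : Continuous fun x : E 6 => hfun (‖x‖ ^ 2) :=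
    hfun_contDiff.continuous.comp (by fun_prop)
  have h1 : Continuous fun x : E 6 => deriv hfun (‖x‖ ^ 2) :=
    (contDiff_deriv_of hfun_contDiff).continuous.comp (by fun_prop)
  have h2 : Continuous fun x : E 6 => deriv (deriv hfun) (‖x‖ ^ 2) :=
    (contDiff_deriv_of (contDiff_deriv_of hfun_contDiff)).continuous.comp (by fun_prop)
  have hs : Continuous fun x : E 6 => ‖x‖ ^ 2 := by fun_prop
  have hD : ∀ x : E 6, 1 + hfun (‖x‖ ^ 2) * ‖x‖ ^ 2 ≠ 0 := fun x => (D_pos (by positivity)).ne'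
  unfold Lam
  have hDc : Continuous fun x : E 6 => 1 + hfun (‖x‖ ^ 2) * ‖x‖ ^ 2 :=
    continuous_const.add (h0.mul hs)
  have hq : Continuous fun x : E 6 => hfun (‖x‖ ^ 2) + deriv hfun (‖x‖ ^ 2) * ‖x‖ ^ 2 :=
    h0.add (h1.mul hs)
  refine continuous_const.mul ((((continuous_const.mul (h0.pow 2)).add
    ((continuous_const.mul h0).mul ((((continuous_const.mul hq).div hDc hD).add
      (((continuous_const.mul hs).mul ((continuous_const.mul h1).add (h2.mul hs))).div hDc hD)).sub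
      (hs.mul ((hq.div hDc hD).pow 2))))).sub
    ((continuous_const.mul h0).mul ((hs.mul ((h0.pow 2).sub h1)).div hDc hD))).add
    (continuous_const.mul ((hq.pow 2).div hDc hD)))

lemma Lam_far {s : ℝ} (hs : 2 < s) : Lam s = 0 := by
  have h1 : deriv hfun s = 0 := by
    have : hfun =ᶠ[𝓝 s] fun _ => 0 := by
      filter_upwards [lt_mem_nhds hs] with u hu
      exact hfun_zero hu.le
    rw [this.deriv_eq]; simp
  unfold Lam
  rw [hfun_zero hs.le, h1]; simp

lemma volDensity_g6_continuous : Continuous (volDensity g6) := by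
  unfold volDensity
  refine Real.continuous_sqrt.comp ?_
  refine Continuous.matrix_det ?_
  refine continuous_matrix fun i j => (g6_contDiff i j).continuous

lemma L2_g6_integrable : Integrable (fun x => L2 g6 x * volDensity g6 x) := by
  refine (L2_g6_continuous.mul volDensity_g6_continuous).integrable_of_hasCompactSupport ?_
  refine HasCompactSupport.intro (isCompact_closedBall (0 : E 6) 2) fun x hx => ?_
  have h2 : 2 < ‖x‖ := by simpa using hx
  show L2 g6 x * volDensity g6 x = 0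
  rw [L2_g6, Lam_far (by nlinarith), zero_mul]

lemma L2_g6_nonneg (x : E 6) : 0 ≤ L2 g6 x := L2_nonneg x

lemma L2_g6_zero_pos : 0 < L2 g6 0 := by
  rw [L2_g6]
  have h : 0 < hfun 0 := by rw [hfun_eq (by norm_num)]; exact Real.exp_pos _
  unfold Lam
  simp
  nlinarith [mul_pos h h]

end

end Pool.Agent.H498R3.GB
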