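import Pool.Agent.H498R3.GBMain

/-!
Area outer minimizing horizons and the Penrose inequality for the Gauss-Bonnet-Chern mass.
-/

namespace Pool.Agent.H498R3.GB

open scoped BigOperators ContDiff Topology Matrix ENNReal
open MeasureTheory Filter Metric

noncomputable section

variable {n : ℕ}

/-- The Riemannian divergence `(det g)^{-1/2} ∂_i ((det g)^{1/2} X^i)`. -/
def divg (g : MetricField n) (X : E n → Fin n → ℝ) (x : E n) : ℝ :=
  (∑ i, pd i (fun z => volDensity g z * X z i) x) / volDensity g x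

/-- The squared `g`-length `g^{ij} ν_i ν_j` of the covector `ν = x / |x|`. -/
def conormSq (g : MetricField n) (x : E n) : ℝ :=
  ∑ i, ∑ j, ginv g x i j * (x i / ‖x‖) * (x j / ‖x‖)

/-- The outward `g`-unit normal vector field of the coordinate spheres centred at `0`,
`g^{ij} ν_j / √(g^{kl} ν_k ν_l)` with `ν = x / |x|`. -/
def sphereNormal (g : MetricField n) (x : E n) (i : Fin n) : ℝ :=
  (∑ j, ginv g x i j * (x j / ‖x‖)) / Real.sqrt (conormSq g x)

/-- The mean curvature at `x` of the coordinate sphere through `x`, with respect to `g` and the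
outward normal: the divergence of the unit normal field. -/
def sphereMeanCurv (g : MetricField n) (x : E n) : ℝ := divg g (sphereNormal g) x

/-- The area of the coordinate sphere of radius `r` with respect to `g`: the Riemannian surface
element is `√(det g) √(g^{ij} ν_i ν_j)` times the Euclidean one. -/
def sphereArea (g : MetricField n) (r : ℝ) : ℝ :=
  sphereIntegral (fun x => volDensity g x * Real.sqrt (conormSq g x)) r

/-- `X` is a compactly supported `C^1` vector field with `g(X, X) ≤ 1`. -/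
structure IsTestField (g : MetricField n) (X : E n → E n) : Prop where
  smooth : ContDiff ℝ 1 X
  compact : HasCompactSupport X
  le_one : ∀ x, ∑ i, ∑ j, g x i j * X x i * X x j ≤ 1

/-- The perimeter of `Ω` with respect to the Riemannian metric `g`:
`sup ∫_Ω div_g X dV_g` over compactly supported `C^1` vector fields with `|X|_g ≤ 1`
(`div_g X dV_g = ∂_i (√(det g) X^i) dx`). For a bounded region with `C^1` boundary this is the
area of its boundary. -/
def gPerimeter (g : MetricField n) (Ω : Set (E n)) : ℝ≥0∞ :=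
  ⨆ (X : E n → E n) (_ : IsTestField g X),
    ENNReal.ofReal (∫ x in Ω, ∑ i, pd i (fun z => volDensity g z * X z i) x)

/-- The unit sphere is area outer minimizing in `{|x| ≥ 1}` with respect to `g`: it is minimal,
and every bounded measurable region containing the unit ball has perimeter at least the area of
the unit sphere. -/
def UnitSphereOuterMinimizing (g : MetricField n) : Prop :=
  (∀ x : E n, ‖x‖ = 1 → sphereMeanCurv g x = 0) ∧
  ∀ Ω : Set (E n), MeasurableSet Ω → Bornology.IsBounded Ω → ball 0 1 ⊆ Ω →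
    ENNReal.ofReal (sphereArea g 1) ≤ gPerimeter g Ω

/-! ### radial fields -/

lemma pd_radial {Q : ℝ → ℝ} {Q' : ℝ} {x : E n} (hQ : HasDerivAt Q Q' (‖x‖ ^ 2)) (i : Fin n) :
    pd i (fun z => Q (‖z‖ ^ 2) * z i) x = Q (‖x‖ ^ 2) + 2 * Q' * (x i) ^ 2 := by
  have h1 : HasFDerivAt (fun z : E n => ‖z‖ ^ 2) (2 • (innerSL ℝ x)) x :=
    (hasStrictFDerivAt_norm_sq x).hasFDerivAt
  have h2 := hQ.comp_hasFDerivAt x h1
  have h3 : HasFDerivAt (fun z : E n => z i) (EuclideanSpace.proj (𝕜 := ℝ) i : E n →L[ℝ] ℝ) x :=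
    (EuclideanSpace.proj (𝕜 := ℝ) i : E n →L[ℝ] ℝ).hasFDerivAt
  have h4 := h2.mul h3
  have h5 : pd i (fun z => Q (‖z‖ ^ 2) * z i) x = _ := pd_of_hasFDerivAt h4 i
  rw [h5]
  simp [EuclideanSpace.inner_single_right]
  ring

lemma div_radial {Q : ℝ → ℝ} {Q' : ℝ} {x : E n} (hQ : HasDerivAt Q Q' (‖x‖ ^ 2)) :
    ∑ i, pd i (fun z => Q (‖z‖ ^ 2) * z i) x = n * Q (‖x‖ ^ 2) + 2 * Q' * ‖x‖ ^ 2 := by
  simp only [pd_radial hQ]
  rw [Finset.sum_add_distrib, ← Finset.mul_sum, EuclideanSpace.norm_sq_eq x]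
  simp

/-! ### the metric `g6` -/

lemma g6_det (x : E 6) : (g6 x).det = 1 + hfun (‖x‖ ^ 2) * ‖x‖ ^ 2 := by
  have e : g6 x = 1 + Matrix.replicateCol Unit (fun i => hfun (‖x‖ ^ 2) * yv J6 i x)
      * Matrix.replicateRow Unit (fun j => yv J6 j x) := by
    ext i j
    simp [g6, metJ, Matrix.mul_apply, mul_assoc]
  rw [e, Matrix.det_one_add_replicateCol_mul_replicateRow]
  have h1 := dt_Jv_Jv x.ofLp x.ofLp
  have hx : dt x.ofLp x.ofLp = ‖x‖ ^ 2 := by
    rw [EuclideanSpace.norm_sq_eq]; simp [dt, sq]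
  rw [hx] at h1
  rw [← h1]
  have h2 : dt (Jv x.ofLp) (Jv x.ofLp) = ∑ i, yv J6 i x * yv J6 i x := rfl
  rw [h2]
  simp only [dotProduct, Finset.mul_sum]
  congr 1
  exact Finset.sum_congr rfl fun i _ => by ring

/-- `√(1 + h(s) s)` -/
def wfun (s : ℝ) : ℝ := Real.sqrt (1 + hfun s * s)

lemma volDensity_g6 (x : E 6) : volDensity g6 x = wfun (‖x‖ ^ 2) := by
  unfold volDensity wfun; rw [g6_det]

lemma g6_mulVec (x : E 6) : g6 x *ᵥ x.ofLp = x.ofLp := by
  funext i
  have h0 : ∑ j, yv J6 j x * x j = 0 := by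
    have := dt_Jv_self x.ofLp
    rw [dt_comm] at this
    exact this
  simp only [Matrix.mulVec, dotProduct, g6, metJ, Matrix.of_apply, add_mul,
    Finset.sum_add_distrib]
  have h1 : ∑ j, hfun (‖x‖ ^ 2) * (yv J6 i x * yv J6 j x) * x j
      = hfun (‖x‖ ^ 2) * yv J6 i x * ∑ j, yv J6 j x * x j := by
    rw [Finset.mul_sum]; exact Finset.sum_congr rfl fun j _ => by ring
  rw [h1, h0]
  simp [Matrix.one_apply]

lemma ginv_g6_mulVec (x : E 6) : ginv g6 x *ᵥ x.ofLp = x.ofLp := by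
  have h : IsUnit (g6 x).det := by
    rw [g6_det]
    have := D_pos (s := ‖x‖ ^ 2) (by positivity)
    exact isUnit_iff_ne_zero.2 this.ne'
  unfold ginv
  conv_lhs => rw [← g6_mulVec x]
  rw [Matrix.mulVec_mulVec, Matrix.nonsing_inv_mul _ h, Matrix.one_mulVec]

lemma ginv_g6_sum (x : E 6) (i : Fin 6) : ∑ j, ginv g6 x i j * (x j / ‖x‖) = x i / ‖x‖ := by
  have h := congrFun (ginv_g6_mulVec x) i
  simp only [Matrix.mulVec, dotProduct] at h
  have e : ∑ j, ginv g6 x i j * (x j / ‖x‖) = (∑ j, ginv g6 x i j * x j) / ‖x‖ := by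
    rw [Finset.sum_div]; exact Finset.sum_congr rfl fun j _ => by ring
  rw [e, h]

lemma conormSq_g6 {x : E 6} (hx : x ≠ 0) : conormSq g6 x = 1 := by
  have hn : ‖x‖ ≠ 0 := norm_ne_zero_iff.2 hx
  have e : conormSq g6 x = ∑ i, (x i / ‖x‖) * ∑ j, ginv g6 x i j * (x j / ‖x‖) := by
    unfold conormSq
    refine Finset.sum_congr rfl fun i _ => ?_
    rw [Finset.mul_sum]
    exact Finset.sum_congr rfl fun j _ => by ring
  rw [e]
  simp only [ginv_g6_sum]
  have e2 : ∑ i, x i / ‖x‖ * (x i / ‖x‖) = (∑ i, x i ^ 2) / ‖x‖ ^ 2 := by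
    rw [Finset.sum_div]; exact Finset.sum_congr rfl fun j _ => by ring
  rw [e2]
  have e3 : ∑ i, x i ^ 2 = ‖x‖ ^ 2 := by rw [EuclideanSpace.norm_sq_eq]; simp
  rw [e3, div_self (by positivity)]

lemma sphereNormal_g6 (x : E 6) (i : Fin 6) : sphereNormal g6 x i = x i / ‖x‖ := by
  unfold sphereNormal
  by_cases hx : x = 0
  · simp [hx]
  · rw [ginv_g6_sum, conormSq_g6 hx, Real.sqrt_one, div_one]

lemma sphereArea_g6 : sphereArea g6 1 = Real.sqrt 2 * omegaSphere 6 := by
  unfold sphereArea sphereIntegral omegaSphere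
  have h : ∀ u : sphere (0 : E 6) 1,
      volDensity g6 ((1 : ℝ) • (u : E 6)) * Real.sqrt (conormSq g6 ((1 : ℝ) • (u : E 6)))
        = Real.sqrt 2 := by
    intro u
    have hu : ‖(u : E 6)‖ = 1 := norm_eq_of_mem_sphere u
    have hu0 : (u : E 6) ≠ 0 := by
      intro h0; rw [h0, norm_zero] at hu; norm_num at hu
    rw [one_smul, conormSq_g6 hu0, volDensity_g6, hu]
    unfold wfun
    rw [hfun_eq (by norm_num)]
    norm_num
  simp only [h]
  simp [mul_comm]

lemma hasDerivAt_wfun {s : ℝ} (hs : 0 ≤ s) :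
    HasDerivAt wfun ((deriv hfun s * s + hfun s) / (2 * wfun s)) s := by
  have h1 : HasDerivAt hfun (deriv hfun s) s :=
    ((hfun_contDiff.differentiable (by simp)) s).hasDerivAt
  have h2 : HasDerivAt (fun u => 1 + hfun u * u) (deriv hfun s * s + hfun s) s := by
    simpa using (h1.fun_mul (hasDerivAt_id s)).const_add 1
  exact h2.sqrt (D_pos hs).ne'

lemma wfun_pos {s : ℝ} (hs : 0 ≤ s) : 0 < wfun s := Real.sqrt_pos.2 (D_pos hs)

lemma wfun_sq {s : ℝ} (hs : 0 ≤ s) : wfun s ^ 2 = 1 + hfun s * s := Real.sq_sqrt (D_pos hs).le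

/-- the sign of the mean curvature of the coordinate spheres outside the unit sphere -/
lemma curv_nonneg {s : ℝ} (hs : 1 ≤ s) : 0 ≤ 5 + 6 * hfun s * s + deriv hfun s * s ^ 2 := by
  rcases lt_or_ge s 2 with h2 | h2
  · rw [hfun_deriv h2]
    set t := (2 - s)⁻¹ with ht
    have h2s : 0 < 2 - s := by linarith
    have hts : t * (2 - s) = 1 := inv_mul_cancel₀ h2s.ne'
    have ht1 : 1 ≤ t := by
      rw [ht]; exact one_le_inv_iff₀.2 ⟨h2s, by linarith⟩
    have hst : t * s = 2 * t - 1 := by linarith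
    have hk : hfun s = Real.exp (-(11 * (t - 1))) := by rw [hfun_eq h2]; congr 1; ring
    set τ := t - 1 with hτ
    have hτ0 : 0 ≤ τ := by linarith
    have hE : 1 + 11 * τ + (11 * τ) ^ 2 / 2 ≤ Real.exp (11 * τ) := by
      have := Real.quadratic_le_exp_of_nonneg (x := 11 * τ) (by positivity)
      linarith
    -- multiply by t * exp
    have hpos : 0 < t * Real.exp (11 * τ) := by positivity
    have hkE : hfun s * Real.exp (11 * τ) = 1 := by
      rw [hk, ← Real.exp_add]; simp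
    have key : 0 ≤ (t * Real.exp (11 * τ)) *
        (5 + 6 * hfun s * s + hfun s * (-11 * t ^ 2) * s ^ 2) := by
      have e : (t * Real.exp (11 * τ)) *
          (5 + 6 * hfun s * s + hfun s * (-11 * t ^ 2) * s ^ 2)
          = 5 * t * Real.exp (11 * τ) + (hfun s * Real.exp (11 * τ)) *
            (6 * (t * s) - 11 * t * (t * s) ^ 2) := by ring
      rw [e, hkE, hst]
      have ht' : t = 1 + τ := by rw [hτ]; ring
      rw [ht']
      have h5 : 5 * (1 + τ) * (1 + 11 * τ + (11 * τ) ^ 2 / 2) ≤ 5 * (1 + τ) * Real.exp (11 * τ) :=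
        mul_le_mul_of_nonneg_left hE (by positivity)
      nlinarith [pow_nonneg hτ0 2, pow_nonneg hτ0 3]
    exact nonneg_of_mul_nonneg_right key hpos
  · have h1 : deriv hfun s = 0 := by
      rcases h2.lt_or_eq with h3 | h3
      · have : hfun =ᶠ[𝓝 s] fun _ => 0 := by
          filter_upwards [lt_mem_nhds h3] with u hu
          exact hfun_zero hu.le
        rw [this.deriv_eq]; simp
      · -- minimum of a nonnegative function
        have hmin : IsLocalMin hfun s := by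
          filter_upwards with u
          rw [hfun_zero h2]; exact hfun_nonneg u
        exact hmin.deriv_eq_zero
    rw [hfun_zero h2, h1]; norm_num

lemma hasDerivAt_inv_sqrt {s : ℝ} (hs : 0 < s) :
    HasDerivAt (fun u => (Real.sqrt u)⁻¹) (-(Real.sqrt s)⁻¹ / (2 * s)) s := by
  have h1 : HasDerivAt Real.sqrt (1 / (2 * Real.sqrt s)) s := Real.hasDerivAt_sqrt hs.ne'
  have h2 := h1.inv (Real.sqrt_pos.2 hs).ne'
  refine h2.congr_deriv ?_
  have h3 := Real.sq_sqrt hs.le
  have h4 := Real.sqrt_pos.2 hs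
  field_simp
  rw [h3]

/-- the derivative of `w(s) / √s` and the resulting divergence -/
lemma hasDerivAt_q {s : ℝ} (hs : 0 < s) :
    HasDerivAt (fun u => wfun u * (Real.sqrt u)⁻¹)
      ((deriv hfun s * s + hfun s) / (2 * wfun s) * (Real.sqrt s)⁻¹
        + wfun s * (-(Real.sqrt s)⁻¹ / (2 * s))) s :=
  (hasDerivAt_wfun hs.le).mul (hasDerivAt_inv_sqrt hs)

lemma div_q_value {s : ℝ} (hs : 0 < s) :
    6 * (wfun s * (Real.sqrt s)⁻¹) + 2 * ((deriv hfun s * s + hfun s) / (2 * wfun s)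
      * (Real.sqrt s)⁻¹ + wfun s * (-(Real.sqrt s)⁻¹ / (2 * s))) * s
      = (Real.sqrt s)⁻¹ / wfun s * (5 + 6 * hfun s * s + deriv hfun s * s ^ 2) := by
  have hw := wfun_pos hs.le
  have hw2 := wfun_sq hs.le
  have hs' := Real.sqrt_pos.2 hs
  field_simp
  rw [hw2]
  ring

lemma sphereMeanCurv_g6 {x : E 6} (hx : x ≠ 0) :
    sphereMeanCurv g6 x = (Real.sqrt (‖x‖ ^ 2))⁻¹ / wfun (‖x‖ ^ 2)
      * (5 + 6 * hfun (‖x‖ ^ 2) * ‖x‖ ^ 2 + deriv hfun (‖x‖ ^ 2) * (‖x‖ ^ 2) ^ 2)
      / wfun (‖x‖ ^ 2) := by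
  have hs : 0 < ‖x‖ ^ 2 := by have := norm_pos_iff.2 hx; positivity
  unfold sphereMeanCurv divg
  rw [volDensity_g6]
  congr 1
  have e : ∀ i, (fun z : E 6 => volDensity g6 z * sphereNormal g6 z i)
      = fun z => (fun u => wfun u * (Real.sqrt u)⁻¹) (‖z‖ ^ 2) * z i := by
    intro i; funext z
    show _ = wfun (‖z‖ ^ 2) * (Real.sqrt (‖z‖ ^ 2))⁻¹ * z i
    rw [sphereNormal_g6, volDensity_g6, Real.sqrt_sq (norm_nonneg z)]
    ring
  simp only [e]
  rw [div_radial (hasDerivAt_q hs), ← div_q_value hs]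
  push_cast
  ring

lemma g6_minimal (x : E 6) (hx : ‖x‖ = 1) : sphereMeanCurv g6 x = 0 := by
  have hx0 : x ≠ 0 := by
    intro h0; rw [h0, norm_zero] at hx; norm_num at hx
  rw [sphereMeanCurv_g6 hx0, hx]
  have h1 : hfun 1 = 1 := by rw [hfun_eq (by norm_num)]; norm_num
  rw [one_pow, hfun_deriv (by norm_num), h1]
  norm_num

/-! ### the calibration -/

/-- cut-off -/
def chiR (R s : ℝ) : ℝ := Real.smoothTransition (4 * s - 1) * Real.smoothTransition (R ^ 2 + 2 - s)

/-- `χ(s) / √s` -/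
def pR (R s : ℝ) : ℝ := chiR R s * (Real.sqrt s)⁻¹

/-- the test field -/
def XR (R : ℝ) (z : E 6) : E 6 := pR R (‖z‖ ^ 2) • z

lemma chiR_contDiff (R : ℝ) : ContDiff ℝ 1 (chiR R) := by
  unfold chiR
  exact ((Real.smoothTransition.contDiff (n := 1)).comp (by fun_prop)).mul
    ((Real.smoothTransition.contDiff (n := 1)).comp (by fun_prop))

lemma chiR_nonneg (R s : ℝ) : 0 ≤ chiR R s :=
  mul_nonneg (Real.smoothTransition.nonneg _) (Real.smoothTransition.nonneg _)

lemma chiR_le_one (R s : ℝ) : chiR R s ≤ 1 :=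
  mul_le_one₀ (Real.smoothTransition.le_one _) (Real.smoothTransition.nonneg _)
    (Real.smoothTransition.le_one _)

lemma chiR_one {R s : ℝ} (h1 : 1 / 2 ≤ s) (h2 : s ≤ R ^ 2 + 1) : chiR R s = 1 := by
  unfold chiR
  rw [Real.smoothTransition.one_of_one_le (by linarith),
    Real.smoothTransition.one_of_one_le (by linarith), one_mul]

lemma chiR_zero_left {R s : ℝ} (h : s ≤ 1 / 4) : chiR R s = 0 := by
  unfold chiR
  rw [Real.smoothTransition.zero_of_nonpos (by linarith), zero_mul]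

lemma chiR_zero_right {R s : ℝ} (h : R ^ 2 + 2 ≤ s) : chiR R s = 0 := by
  unfold chiR
  rw [Real.smoothTransition.zero_of_nonpos (x := R ^ 2 + 2 - s) (by linarith), mul_zero]

lemma pR_contDiff (R : ℝ) : ContDiff ℝ 1 (pR R) := by
  rw [contDiff_iff_contDiffAt]
  intro s
  rcases lt_or_ge s (1 / 4) with h | h
  · have e : pR R =ᶠ[𝓝 s] fun _ => 0 := by
      filter_upwards [Iio_mem_nhds h] with u hu
      unfold pR
      rw [chiR_zero_left (le_of_lt hu), zero_mul]
    exact contDiffAt_const.congr_of_eventuallyEq e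
  · have hs : s ≠ 0 := by
      intro h0; rw [h0] at h; norm_num at h
    have h1 : ContDiffAt ℝ 1 Real.sqrt s := Real.contDiffAt_sqrt hs
    have h2 : Real.sqrt s ≠ 0 := (Real.sqrt_pos.2 (by linarith)).ne'
    exact (chiR_contDiff R).contDiffAt.mul (h1.inv h2)

lemma pR_zero_right {R s : ℝ} (h : R ^ 2 + 2 ≤ s) : pR R s = 0 := by
  unfold pR; rw [chiR_zero_right h, zero_mul]

lemma XR_contDiff (R : ℝ) : ContDiff ℝ 1 (XR R) := by
  unfold XR
  exact ((pR_contDiff R).comp (contDiff_norm_sq ℝ)).smul contDiff_id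

lemma XR_compact (R : ℝ) : HasCompactSupport (XR R) := by
  refine HasCompactSupport.intro (isCompact_closedBall (0 : E 6) (R ^ 2 + 2)) fun x hx => ?_
  have h2 : R ^ 2 + 2 < ‖x‖ := by simpa using hx
  unfold XR
  rw [pR_zero_right, zero_smul]
  nlinarith [sq_nonneg R]

lemma g6_form'' (x v : E 6) : ∑ i, ∑ j, g6 x i j * v i * v j
    = ‖v‖ ^ 2 + hfun (‖x‖ ^ 2) * (dt v.ofLp (Jv x.ofLp)) ^ 2 := by
  have h := g6_form x v.ofLp v.ofLp
  have h2 : dt v.ofLp v.ofLp = ‖v‖ ^ 2 := by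
    rw [EuclideanSpace.norm_sq_eq]; simp [dt, sq]
  rw [h2] at h
  rw [sq (dt _ _), ← h]
  refine Finset.sum_congr rfl fun i _ => Finset.sum_congr rfl fun j _ => ?_
  ring

lemma XR_test (R : ℝ) : IsTestField g6 (XR R) := by
  refine ⟨XR_contDiff R, XR_compact R, fun x => ?_⟩
  rw [g6_form'']
  have h1 : dt (XR R x).ofLp (Jv x.ofLp) = 0 := by
    have : (XR R x).ofLp = pR R (‖x‖ ^ 2) • x.ofLp := rfl
    rw [this, dt_smul_left, dt_Jv_self, mul_zero]
  rw [h1]
  unfold XR pR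
  rw [Real.sqrt_sq (norm_nonneg x), norm_smul, norm_mul, norm_inv, norm_norm,
    Real.norm_of_nonneg (chiR_nonneg _ _)]
  have h2 : chiR R (‖x‖ ^ 2) * ‖x‖⁻¹ * ‖x‖ ≤ 1 := by
    rw [mul_assoc]
    have h3 : ‖x‖⁻¹ * ‖x‖ ≤ 1 := by
      by_cases hx : ‖x‖ = 0
      · rw [hx]; norm_num
      · rw [inv_mul_cancel₀ hx]
    exact mul_le_one₀ (chiR_le_one _ _) (by positivity) h3
  have h4 : 0 ≤ chiR R (‖x‖ ^ 2) * ‖x‖⁻¹ * ‖x‖ := by
    have := chiR_nonneg R (‖x‖ ^ 2); positivity
  nlinarith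

/-- the flux density -/
def QR (R s : ℝ) : ℝ := wfun s * pR R s

/-- its divergence, as a function of `s = |x|²` -/
def FR (R s : ℝ) : ℝ := 6 * QR R s + 2 * deriv (QR R) s * s

lemma QR_diff (R : ℝ) {s : ℝ} (hs : 0 ≤ s) : HasDerivAt (QR R) (deriv (QR R) s) s := by
  have h1 := hasDerivAt_wfun hs
  have h2 : HasDerivAt (pR R) (deriv (pR R) s) s :=
    (((pR_contDiff R).differentiable (by simp)) s).hasDerivAt
  exact (h1.mul h2).differentiableAt.hasDerivAt

lemma QR_contDiffAt (R : ℝ) {s : ℝ} (hs : 0 ≤ s) : ContDiffAt ℝ 1 (QR R) s := by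
  have h1 : ContDiffAt ℝ 1 (fun u => 1 + hfun u * u) s :=
    contDiffAt_const.add (((hfun_contDiff.of_le (by exact_mod_cast le_top)).contDiffAt).mul
      contDiffAt_id)
  exact (h1.sqrt (D_pos hs).ne').mul (pR_contDiff R).contDiffAt

lemma div_XR (R : ℝ) (x : E 6) :
    ∑ i, pd i (fun z => volDensity g6 z * XR R z i) x = FR R (‖x‖ ^ 2) := by
  have e : ∀ i, (fun z : E 6 => volDensity g6 z * XR R z i)
      = fun z => QR R (‖z‖ ^ 2) * z i := by
    intro i; funext z
    rw [volDensity_g6]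
    unfold QR XR
    simp [mul_assoc]
  simp only [e]
  rw [div_radial (QR_diff R (by positivity : 0 ≤ ‖x‖ ^ 2))]
  unfold FR
  push_cast
  ring

lemma deriv_QR_continuousAt (R : ℝ) {s : ℝ} (hs : 0 ≤ s) : ContinuousAt (deriv (QR R)) s := by
  have h := (QR_contDiffAt R hs).continuousAt_fderiv (by simp)
  have e : deriv (QR R) = fun u => fderiv ℝ (QR R) u 1 := by
    funext u; exact (fderiv_apply_one_eq_deriv).symm
  rw [e]
  exact h.clm_apply continuousAt_const

lemma FR_norm_continuous (R : ℝ) : Continuous fun x : E 6 => FR R (‖x‖ ^ 2) := by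
  rw [continuous_iff_continuousAt]
  intro x
  have hs : (0 : ℝ) ≤ ‖x‖ ^ 2 := by positivity
  have h1 : ContinuousAt (FR R) (‖x‖ ^ 2) := by
    unfold FR
    exact (continuousAt_const.mul (QR_diff R hs).continuousAt).add
      ((continuousAt_const.mul (deriv_QR_continuousAt R hs)).mul continuousAt_id)
  exact h1.comp (f := fun x : E 6 => ‖x‖ ^ 2) (by fun_prop)

lemma FR_far {R s : ℝ} (hs : R ^ 2 + 2 < s) : FR R s = 0 := by
  have e : QR R =ᶠ[𝓝 s] fun _ => 0 := by
    filter_upwards [lt_mem_nhds hs] with u hu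
    unfold QR; rw [pR_zero_right hu.le, mul_zero]
  unfold FR
  rw [e.deriv_eq, e.eq_of_nhds]; simp

lemma FR_integrable (R : ℝ) : Integrable fun x : E 6 => FR R (‖x‖ ^ 2) := by
  refine (FR_norm_continuous R).integrable_of_hasCompactSupport ?_
  refine HasCompactSupport.intro (isCompact_closedBall (0 : E 6) (R ^ 2 + 2)) fun x hx => ?_
  have h2 : R ^ 2 + 2 < ‖x‖ := by simpa using hx
  exact FR_far (by nlinarith [sq_nonneg R])

lemma QR_eq {R s : ℝ} (h1 : 1 / 2 ≤ s) (h2 : s ≤ R ^ 2 + 1) :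
    QR R s = wfun s * (Real.sqrt s)⁻¹ := by
  unfold QR pR; rw [chiR_one h1 h2, one_mul]

lemma FR_nonneg {R s : ℝ} (h1 : 1 ≤ s) (h2 : s ≤ R ^ 2) : 0 ≤ FR R s := by
  have e : QR R =ᶠ[𝓝 s] fun u => wfun u * (Real.sqrt u)⁻¹ := by
    filter_upwards [Ioo_mem_nhds (by linarith : (1 / 2 : ℝ) < s) (by linarith : s < R ^ 2 + 1)]
      with u hu
    exact QR_eq hu.1.le hu.2.le
  have hs : 0 < s := by linarith
  unfold FR
  rw [e.deriv_eq, e.eq_of_nhds, (hasDerivAt_q hs).deriv, div_q_value hs]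
  have hw := wfun_pos hs.le
  have := curv_nonneg h1
  positivity

lemma ball_flux (R : ℝ) :
    ∫ x in ball (0 : E 6) 1, FR R (‖x‖ ^ 2) = omegaSphere 6 * QR R 1 := by
  have e1 : ∫ x in ball (0 : E 6) 1, FR R (‖x‖ ^ 2)
      = ∫ x : E 6, (Set.Iio (1 : ℝ)).indicator (fun y => FR R (y ^ 2)) ‖x‖ := by
    rw [← integral_indicator measurableSet_ball]
    refine integral_congr_ae (Filter.Eventually.of_forall fun x => ?_)
    simp [Set.indicator]
  rw [e1, integral_fun_norm_addHaar]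
  have e2 : ∫ y in Set.Ioi (0 : ℝ), y ^ (Module.finrank ℝ (E 6) - 1) •
      (Set.Iio (1 : ℝ)).indicator (fun y => FR R (y ^ 2)) y
      = ∫ y in (0 : ℝ)..1, y ^ 5 * FR R (y ^ 2) := by
    have hd : Module.finrank ℝ (E 6) - 1 = 5 := by simp
    rw [hd, intervalIntegral.integral_of_le zero_le_one, integral_Ioc_eq_integral_Ioo,
      ← Set.Ioi_inter_Iio, ← setIntegral_indicator measurableSet_Iio]
    refine integral_congr_ae (Filter.Eventually.of_forall fun y => ?_)
    by_cases hy : y < 1 <;> simp [Set.indicator, hy]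
  rw [e2]
  have e3 : ∫ y in (0 : ℝ)..1, y ^ 5 * FR R (y ^ 2) = QR R 1 := by
    have hder : ∀ y ∈ Set.uIcc (0 : ℝ) 1,
        HasDerivAt (fun y => y ^ 6 * QR R (y ^ 2)) (y ^ 5 * FR R (y ^ 2)) y := by
      intro y _
      have h1 : HasDerivAt (fun y : ℝ => y ^ 2) (2 * y) y := by
        simpa using hasDerivAt_pow 2 y
      have hy2 : (0 : ℝ) ≤ y ^ 2 := by positivity
      have h2 := HasDerivAt.comp (h₂ := QR R) (h := fun y : ℝ => y ^ 2) y (QR_diff R hy2) h1
      have h3 : HasDerivAt (fun y : ℝ => y ^ 6) (6 * y ^ 5) y := by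
        simpa using hasDerivAt_pow 6 y
      refine (h3.mul h2).congr_deriv ?_
      unfold FR
      simp only [Function.comp_def]
      ring
    have hint : IntervalIntegrable (fun y : ℝ => y ^ 5 * FR R (y ^ 2)) volume 0 1 := by
      refine Continuous.intervalIntegrable ?_ _ _
      refine (continuous_pow 5).mul ?_
      rw [continuous_iff_continuousAt]
      intro y
      have hs : (0 : ℝ) ≤ y ^ 2 := by positivity
      have h1 : ContinuousAt (FR R) (y ^ 2) := by
        unfold FR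
        exact (continuousAt_const.mul (QR_diff R hs).continuousAt).add
          ((continuousAt_const.mul (deriv_QR_continuousAt R hs)).mul continuousAt_id)
      exact h1.comp (f := fun y : ℝ => y ^ 2) (by fun_prop)
    rw [intervalIntegral.integral_eq_sub_of_hasDerivAt hder hint]
    norm_num
  rw [e3]
  unfold omegaSphere
  rw [Measure.toSphere_real_apply_univ]
  simp
  ring

lemma g6_outer (Ω : Set (E 6)) (hΩ : MeasurableSet Ω) (hb : Bornology.IsBounded Ω)
    (hsub : ball 0 1 ⊆ Ω) : ENNReal.ofReal (sphereArea g6 1) ≤ gPerimeter g6 Ω := by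
  obtain ⟨R, hR⟩ := hb.subset_closedBall 0
  have hR1 : (1 : ℝ) ≤ R ^ 2 + 1 := by nlinarith [sq_nonneg R]
  unfold gPerimeter
  refine le_trans ?_ (le_iSup₂ (f := fun (X : E 6 → E 6) (_ : IsTestField g6 X) =>
    ENNReal.ofReal (∫ x in Ω, ∑ i, pd i (fun z => volDensity g6 z * X z i) x))
    (XR R) (XR_test R))
  refine ENNReal.ofReal_le_ofReal ?_
  simp only [div_XR]
  have hd : Ω = ball 0 1 ∪ (Ω \ ball 0 1) := (Set.union_diff_cancel hsub).symm
  have hF := FR_integrable R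
  rw [hd, setIntegral_union Set.disjoint_sdiff_right (hΩ.diff measurableSet_ball)
    hF.integrableOn hF.integrableOn, ball_flux]
  have h0 : 0 ≤ ∫ x in Ω \ ball 0 1, FR R (‖x‖ ^ 2) := by
    refine setIntegral_nonneg (hΩ.diff measurableSet_ball) fun x hx => ?_
    have hx1 : 1 ≤ ‖x‖ := by simpa using hx.2
    have hx2 : ‖x‖ ≤ R := by simpa using hR hx.1
    exact FR_nonneg (by nlinarith) (by nlinarith)
  have h1 : QR R 1 = Real.sqrt 2 := by
    rw [QR_eq (by norm_num) hR1]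
    unfold wfun
    rw [hfun_eq (by norm_num)]
    norm_num
  rw [sphereArea_g6, h1]
  linarith

theorem g6_outerMinimizing : UnitSphereOuterMinimizing g6 :=
  ⟨g6_minimal, g6_outer⟩

lemma omegaSphere_pos : 0 < omegaSphere 6 := by
  unfold omegaSphere
  rw [Measure.toSphere_real_apply_univ]
  have h1 : 0 < (volume : Measure (E 6)).real (ball 0 1) :=
    ENNReal.toReal_pos (measure_ball_pos _ _ one_pos).ne' measure_ball_lt_top.ne
  simp
  exact h1

lemma g6_rhs_pos :
    0 < 1 / 4 * (sphereArea g6 1 / omegaSphere 6) ^ (((6 : ℝ) - 4) / (6 - 1)) := by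
  rw [sphereArea_g6, mul_div_assoc, div_self omegaSphere_pos.ne']
  positivity

end

end Pool.Agent.H498R3.GB
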