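import Pool.Agent.H498R3.GBEval

namespace Pool.Agent.H498R3.GB

open scoped BigOperators ContDiff Topology Matrix
open MeasureTheory Filter Metric

noncomputable section

def z1 : Fin 6 → ℤ := ![1, 0, 0, 0, 0, 0]
def z2 : Fin 6 → ℤ := ![0, 1, 0, 0, 0, 0]
def zW : Matrix (Fin 6) (Fin 6) ℤ :=
  !![0, 0, 0, 0, 0, 0;
     0, 0, 0, 0, 0, 0;
     0, 0, 0, -1, 0, 0;
     0, 0, 1, 0, 0, 0;
     0, 0, 0, 0, 0, -1;
     0, 0, 0, 0, 1, 0]
def zP : Matrix (Fin 6) (Fin 6) ℤ :=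
  !![0, 0, 0, 0, 0, 0;
     0, 0, 0, 0, 0, 0;
     0, 0, 1, 0, 0, 0;
     0, 0, 0, 1, 0, 0;
     0, 0, 0, 0, 1, 0;
     0, 0, 0, 0, 0, 1]

def e1 (a : Fin 6) : ℝ := (z1 a : ℝ)
def e2 (a : Fin 6) : ℝ := (z2 a : ℝ)
def W (a b : Fin 6) : ℝ := (zW a b : ℝ)
def P (a b : Fin 6) : ℝ := (zP a b : ℝ)

def zt1 (a b c d : Fin 6) : ℤ := (z1 a * z2 b - z1 b * z2 a) * (z1 c * z2 d - z1 d * z2 c)
def zt2 (a b c d : Fin 6) : ℤ :=
  z2 a * z2 c * zP b d - z2 b * z2 c * zP a d - z2 a * z2 d * zP b c + z2 b * z2 d * zP a c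
def zt3 (a b c d : Fin 6) : ℤ :=
  -(2 * zW a b * zW c d + zW a c * zW b d - zW a d * zW b c)
def zt4 (a b c d : Fin 6) : ℤ :=
  2 * (z1 a * z2 b - z1 b * z2 a) * zW c d + 2 * zW a b * (z1 c * z2 d - z1 d * z2 c)
  + (z1 a * z2 c - z1 c * z2 a) * zW b d + zW a c * (z1 b * z2 d - z1 d * z2 b)
  - (z1 a * z2 d - z1 d * z2 a) * zW b c - zW a d * (z1 b * z2 c - z1 c * z2 b)

/-- A family of vectors whose arrays are the adapted ones. -/
structure Adapted (D : Dat 6) (f : Fin 6 → V 6) (r v : ℝ) : Prop where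
  hX : ∀ a, D.X (f a) = r * e1 a
  hY : ∀ a, D.Y (f a) = r * v * e2 a
  hN : ∀ a b, D.N (f a) (f b) = e1 a * e1 b + v ^ 2 * (e2 a * e2 b) + P a b
  hO : ∀ a b, D.O (f a) (f b) = W a b + v * (e2 a * e1 b - e1 a * e2 b)

lemma W_anti (a b : Fin 6) : W b a = - W a b := by
  have : ∀ a b : Fin 6, zW b a = - zW a b := by decide
  unfold W; rw [this a b]; push_cast; rfl

lemma P_symm (a b : Fin 6) : P b a = P a b := by
  have : ∀ a b : Fin 6, zP b a = zP a b := by decide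
  unfold P; rw [this a b]

lemma P_eq (a b : Fin 6) : P a b = ∑ e, W e a * W e b := by
  have : ∀ a b : Fin 6, zP a b = ∑ e, zW e a * zW e b := by decide
  unfold P W; rw [this a b]; push_cast; rfl

lemma sum_table (α β α' β' u1 u2 u3 u4 γ : ℝ) (a b c d : Fin 6) :
    ∑ e, (e1 e * α + e2 e * β + γ * (W e b * u1 + W e c * u2)) *
      (e1 e * α' + e2 e * β' + γ * (W e a * u3 + W e d * u4))
    = α * α' + β * β' + γ ^ 2 * (P b a * (u1 * u3) + P b d * (u1 * u4) + P c a * (u2 * u3)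
      + P c d * (u2 * u4)) := by
  have h0 : ∀ b, W 0 b = 0 := by
    intro b; have : ∀ b, zW 0 b = 0 := by decide
    unfold W; rw [this b]; simp
  have h1 : ∀ b, W 1 b = 0 := by
    intro b; have : ∀ b, zW 1 b = 0 := by decide
    unfold W; rw [this b]; simp
  simp only [P_eq, Fin.sum_univ_six, h0, h1]
  simp [e1, e2, z1, z2]
  ring

lemma G_table {D : Dat 6} {f : Fin 6 → V 6} {r v : ℝ} (hf : Adapted D f r v) (e a b : Fin 6) :
    D.G (f e) (f a) (f b) =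
      e1 e * (-(D.h1 * r ^ 3 * v ^ 2 + 2 * D.h0 * r * v ^ 2) * (e2 a * e2 b))
      + e2 e * ((D.h1 * r ^ 3 * v ^ 2 + D.h0 * r * v ^ 2) * (e1 a * e2 b + e1 b * e2 a))
      + (D.h0 * r * v) * (W e a * e2 b + W e b * e2 a) := by
  simp only [Dat.G, Dat.T, hf.hX, hf.hY, hf.hO]
  rw [W_anti e a, W_anti e b, W_anti a b]
  ring

lemma R_table {D : Dat 6} {f : Fin 6 → V 6} {r v : ℝ} (hf : Adapted D f r v) (a b c d : Fin 6) :
    D.R f (f a) (f b) (f c) (f d) =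
      (-(3 * (D.h0 + D.h1 * r ^ 2) * v ^ 2 + 2 * r ^ 2 * (2 * D.h1 + D.h2 * r ^ 2) * v ^ 2
        - r ^ 2 * ((D.h0 + D.h1 * r ^ 2) * v ^ 2) ^ 2)) * (zt1 a b c d : ℝ)
      + (r ^ 2 * (D.h0 ^ 2 - D.h1) * v ^ 2) * (zt2 a b c d : ℝ)
      + D.h0 * (zt3 a b c d : ℝ)
      + ((D.h0 + D.h1 * r ^ 2) * v) * (zt4 a b c d : ℝ) := by
  unfold Dat.R
  rw [Finset.sum_sub_distrib]
  simp only [G_table hf]
  rw [sum_table, sum_table]
  simp only [Dat.S, hf.hX, hf.hY, hf.hN, hf.hO, zt1, zt2, zt3, zt4]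
  push_cast
  simp only [show ∀ a, ((z1 a : ℤ) : ℝ) = e1 a from fun _ => rfl,
    show ∀ a, ((z2 a : ℤ) : ℝ) = e2 a from fun _ => rfl,
    show ∀ a b, ((zW a b : ℤ) : ℝ) = W a b from fun _ _ => rfl,
    show ∀ a b, ((zP a b : ℤ) : ℝ) = P a b from fun _ _ => rfl]
  rw [W_anti a b, W_anti a c, W_anti a d, W_anti b c, W_anti b d, W_anti c d,
    P_symm a b, P_symm a c, P_symm b c]
  try rw [P_symm a d]
  try rw [P_symm b d]
  try rw [P_symm c d]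
  ring

end

end Pool.Agent.H498R3.GB
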