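import Pool.Agent.H498R3.GBTable

namespace Pool.Agent.H498R3.GB

open scoped BigOperators ContDiff Topology Matrix
open MeasureTheory Filter Metric

noncomputable section

lemma sum4_quad (p q r s : ℝ) (A B C D : Fin 6 → Fin 6 → Fin 6 → Fin 6 → ℤ)
    (m : ℕ → ℤ)
    (h0 : ∑ a, ∑ b, ∑ c, ∑ d, A a b c d * A a b c d = m 0)
    (h1 : ∑ a, ∑ b, ∑ c, ∑ d, B a b c d * B a b c d = m 1)
    (h2 : ∑ a, ∑ b, ∑ c, ∑ d, C a b c d * C a b c d = m 2)
    (h3 : ∑ a, ∑ b, ∑ c, ∑ d, D a b c d * D a b c d = m 3)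
    (h4 : ∑ a, ∑ b, ∑ c, ∑ d, A a b c d * B a b c d = m 4)
    (h5 : ∑ a, ∑ b, ∑ c, ∑ d, A a b c d * C a b c d = m 5)
    (h6 : ∑ a, ∑ b, ∑ c, ∑ d, A a b c d * D a b c d = m 6)
    (h7 : ∑ a, ∑ b, ∑ c, ∑ d, B a b c d * C a b c d = m 7)
    (h8 : ∑ a, ∑ b, ∑ c, ∑ d, B a b c d * D a b c d = m 8)
    (h9 : ∑ a, ∑ b, ∑ c, ∑ d, C a b c d * D a b c d = m 9) :
    ∑ a, ∑ b, ∑ c, ∑ d, (p * (A a b c d : ℝ) + q * (B a b c d : ℝ) + r * (C a b c d : ℝ)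
        + s * (D a b c d : ℝ)) ^ 2
      = p ^ 2 * m 0 + q ^ 2 * m 1 + r ^ 2 * m 2 + s ^ 2 * m 3
        + 2 * (p * q) * m 4 + 2 * (p * r) * m 5 + 2 * (p * s) * m 6 + 2 * (q * r) * m 7
        + 2 * (q * s) * m 8 + 2 * (r * s) * m 9 := by
  rw [← h0, ← h1, ← h2, ← h3, ← h4, ← h5, ← h6, ← h7, ← h8, ← h9]
  push_cast
  simp only [Finset.mul_sum, ← Finset.sum_add_distrib]
  refine Finset.sum_congr rfl fun a _ => Finset.sum_congr rfl fun b _ =>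
    Finset.sum_congr rfl fun c _ => Finset.sum_congr rfl fun d _ => ?_
  ring

lemma sum2_quad (p q r s : ℝ) (A B C D : Fin 6 → Fin 6 → ℤ) (m : ℕ → ℤ)
    (h0 : ∑ a, ∑ b, A a b * A a b = m 0)
    (h1 : ∑ a, ∑ b, B a b * B a b = m 1)
    (h2 : ∑ a, ∑ b, C a b * C a b = m 2)
    (h3 : ∑ a, ∑ b, D a b * D a b = m 3)
    (h4 : ∑ a, ∑ b, A a b * B a b = m 4)
    (h5 : ∑ a, ∑ b, A a b * C a b = m 5)
    (h6 : ∑ a, ∑ b, A a b * D a b = m 6)
    (h7 : ∑ a, ∑ b, B a b * C a b = m 7)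
    (h8 : ∑ a, ∑ b, B a b * D a b = m 8)
    (h9 : ∑ a, ∑ b, C a b * D a b = m 9) :
    ∑ a, ∑ b, (p * (A a b : ℝ) + q * (B a b : ℝ) + r * (C a b : ℝ)
        + s * (D a b : ℝ)) ^ 2
      = p ^ 2 * m 0 + q ^ 2 * m 1 + r ^ 2 * m 2 + s ^ 2 * m 3
        + 2 * (p * q) * m 4 + 2 * (p * r) * m 5 + 2 * (p * s) * m 6 + 2 * (q * r) * m 7
        + 2 * (q * s) * m 8 + 2 * (r * s) * m 9 := by
  rw [← h0, ← h1, ← h2, ← h3, ← h4, ← h5, ← h6, ← h7, ← h8, ← h9]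
  push_cast
  simp only [Finset.mul_sum, ← Finset.sum_add_distrib]
  refine Finset.sum_congr rfl fun a _ => Finset.sum_congr rfl fun b _ => ?_
  ring

/-- The value of the Gauss-Bonnet curvature of `metJ` in terms of an adapted frame. -/
theorem L2_value {J : Matrix (Fin 6) (Fin 6) ℝ} {h : ℝ → ℝ} (hh : ContDiff ℝ ∞ h) (x : E 6)
    {f : Fin 6 → V 6} (hM : ∀ i j, ginv (metJ J h) x i j = ∑ a, f a i * f a j)
    {r v : ℝ} (hf : Adapted (dat J h x) f r v) {k0 k1 k2 X Z M : ℝ}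
    (hk0 : (dat J h x).h0 = k0) (hk1 : (dat J h x).h1 = k1) (hk2 : (dat J h x).h2 = k2)
    (hX : X = -(3 * (k0 + k1 * r ^ 2) * v ^ 2 + 2 * r ^ 2 * (2 * k1 + k2 * r ^ 2) * v ^ 2
        - r ^ 2 * ((k0 + k1 * r ^ 2) * v ^ 2) ^ 2))
    (hZ : Z = r ^ 2 * (k0 ^ 2 - k1) * v ^ 2) (hMu : M = (k0 + k1 * r ^ 2) * v) :
    L2 (metJ J h) x = 24 * (5 * k0 ^ 2 - 2 * k0 * X - 4 * k0 * Z + 4 * M ^ 2) := by
  have key : ∀ a b c d, (dat J h x).R f (f a) (f b) (f c) (f d) =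
      X * (zt1 a b c d : ℝ) + Z * (zt2 a b c d : ℝ) + k0 * (zt3 a b c d : ℝ)
        + M * (zt4 a b c d : ℝ) := by
    intro a b c d
    rw [R_table hf, hk0, hk1, hk2, ← hX, ← hZ, ← hMu]
  have keyR : ∀ b d, (dat J h x).Rc f (f b) (f d) =
      X * ((∑ a, zt1 a b a d : ℤ) : ℝ) + Z * ((∑ a, zt2 a b a d : ℤ) : ℝ)
        + k0 * ((∑ a, zt3 a b a d : ℤ) : ℝ) + M * ((∑ a, zt4 a b a d : ℤ) : ℝ) := by
    intro b d
    unfold Dat.Rc
    simp only [key]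
    push_cast
    simp only [Finset.mul_sum, ← Finset.sum_add_distrib]
  have keyS : ∑ b, (dat J h x).Rc f (f b) (f b) = 2 * X + 8 * Z - 12 * k0 := by
    simp only [keyR, Finset.sum_add_distrib, ← Finset.mul_sum]
    have s1 : (∑ b, ∑ a, zt1 a b a b) = 2 := by decide +kernel
    have s2 : (∑ b, ∑ a, zt2 a b a b) = 8 := by decide +kernel
    have s3 : (∑ b, ∑ a, zt3 a b a b) = -12 := by decide +kernel
    have s4 : (∑ b, ∑ a, zt4 a b a b) = 0 := by decide +kernel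
    rw [← Int.cast_sum, ← Int.cast_sum, ← Int.cast_sum, ← Int.cast_sum, s1, s2, s3, s4]
    push_cast; ring
  rw [L2_eq J x hh hM, keyS]
  simp only [key, keyR]
  rw [sum4_quad X Z k0 M zt1 zt2 zt3 zt4
      (fun k => [4, 16, 120, 96, 0, 0, 0, 0, 0, 0].getD k 0)
      (by decide +kernel) (by decide +kernel) (by decide +kernel) (by decide +kernel)
      (by decide +kernel) (by decide +kernel) (by decide +kernel) (by decide +kernel)
      (by decide +kernel) (by decide +kernel),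
    sum2_quad X Z k0 M (fun b d => ∑ a, zt1 a b a d) (fun b d => ∑ a, zt2 a b a d)
      (fun b d => ∑ a, zt3 a b a d) (fun b d => ∑ a, zt4 a b a d)
      (fun k => [2, 20, 36, 0, 4, 0, 0, -12, 0, 0].getD k 0)
      (by decide +kernel) (by decide +kernel) (by decide +kernel) (by decide +kernel)
      (by decide +kernel) (by decide +kernel) (by decide +kernel) (by decide +kernel)
      (by decide +kernel) (by decide +kernel)]
  norm_num
  ring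

end

end Pool.Agent.H498R3.GB
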