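import Mathlib

set_option autoImplicit false
open Set Filter Topology

namespace Pool.Agent.H498R3.NLW

/-- Uniqueness for the constant solutions outside the light cone. -/
theorem tail_const {α : ℝ} (ha : 1 / 2 < α) (f f' Φ Φ₁ Φ₂ : ℝ → ℝ)
    (hf : ∀ x, HasDerivAt f (f' x) x) (hf' : Continuous f')
    (hd : ∀ y, 0 < y → HasDerivAt Φ (Φ₁ y) y)
    (hd1 : ∀ y, 0 < y → HasDerivAt Φ₁ (Φ₂ y) y)
    (hode : ∀ y, 0 < y → (1 - y ^ 2) * Φ₂ y + (2 / y - 2 * (1 + α) * y) * Φ₁ y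
      - α * (1 + α) * Φ y + f (Φ y) = 0)
    (hβ : f (Φ 1) = α * (1 + α) * Φ 1) :
    ∀ y, 1 ≤ y → Φ y = Φ 1 := by
  intro Y hY
  set β := Φ 1 with hβdef
  have hpos : ∀ y ∈ Icc (1 : ℝ) Y, 0 < y := fun y hy => lt_of_lt_of_le one_pos hy.1
  have hΦc : ContinuousOn Φ (Icc 1 Y) := fun y hy => (hd y (hpos y hy)).continuousAt.continuousWithinAt
  have hΦ1c : ContinuousOn Φ₁ (Icc 1 Y) :=
    fun y hy => (hd1 y (hpos y hy)).continuousAt.continuousWithinAt
  obtain ⟨R, hR⟩ := isCompact_Icc.exists_bound_of_continuousOn hΦc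
  have hg' : Continuous fun x => f' x - α * (1 + α) := hf'.sub continuous_const
  obtain ⟨K, hK⟩ := (isCompact_Icc (a := -R) (b := R)).exists_bound_of_continuousOn
    hg'.continuousOn
  have hmemR : ∀ y ∈ Icc (1 : ℝ) Y, Φ y ∈ Icc (-R) R := fun y hy => by
    have := hR y hy
    rw [Real.norm_eq_abs] at this
    exact abs_le.1 this
  have h1mem : (1 : ℝ) ∈ Icc (1 : ℝ) Y := ⟨le_rfl, hY⟩
  have hK0 : 0 ≤ K := le_trans (norm_nonneg _) (hK β (hmemR 1 h1mem))
  have hLip : ∀ x ∈ Icc (-R) R, |f x - α * (1 + α) * x| ≤ K * |x - β| := by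
    intro x hx
    have hD : ∀ z ∈ Icc (-R) R, HasDerivWithinAt (fun x => f x - α * (1 + α) * x)
        (f' z - α * (1 + α)) (Icc (-R) R) z := by
      intro z _
      have := (hf z).sub ((hasDerivAt_id z).const_mul (α * (1 + α)))
      simp only [mul_one] at this
      exact this.hasDerivWithinAt
    have := (convex_Icc (-R) R).norm_image_sub_le_of_norm_hasDerivWithin_le hD hK
      (hmemR 1 h1mem) hx
    rw [← hβdef, Real.norm_eq_abs, Real.norm_eq_abs] at this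
    rw [hβ, sub_self, sub_zero] at this
    exact this
  set δ : ℝ := 2 * α - 1 with hδ
  have hδ0 : 0 < δ := by rw [hδ]; linarith
  set C : ℝ := (K + 1) ^ 2 / (2 * δ) with hC
  have hC0 : 0 ≤ C := by positivity
  set E : ℝ → ℝ := fun y => (y ^ 2 - 1) * (Φ₁ y) ^ 2 / 2 + (Φ y - β) ^ 2 / 2 with hE
  have hEd : ∀ y, 0 < y → HasDerivAt E
      (-((1 + 2 * α) * y - 2 / y) * (Φ₁ y) ^ 2
        + Φ₁ y * ((f (Φ y) - α * (1 + α) * Φ y) + (Φ y - β))) y := by
    intro y hy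
    have e0 := hd y hy
    have e1 := hd1 y hy
    have e2 : HasDerivAt (fun y : ℝ => y ^ 2 - 1) (2 * y) y := by
      simpa using ((hasDerivAt_id y).pow 2).sub_const 1
    have e4 := ((e2.mul (e1.pow 2)).div_const 2).add (((e0.sub_const β).pow 2).div_const 2)
    refine e4.congr_deriv ?_
    have hy0 : y ≠ 0 := ne_of_gt hy
    have ho := hode y hy
    have : f (Φ y) = -((1 - y ^ 2) * Φ₂ y + (2 / y - 2 * (1 + α) * y) * Φ₁ y
      - α * (1 + α) * Φ y) := by linarith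
    simp only [Pi.pow_apply]
    rw [this]
    field_simp
    ring
  set H : ℝ → ℝ := fun y => Real.exp (-(C * y)) * E y with hH
  have hHd : ∀ y, 0 < y → HasDerivAt H
      (Real.exp (-(C * y)) * ((-((1 + 2 * α) * y - 2 / y) * (Φ₁ y) ^ 2
        + Φ₁ y * ((f (Φ y) - α * (1 + α) * Φ y) + (Φ y - β))) - C * E y)) y := by
    intro y hy
    have e1 : HasDerivAt (fun y : ℝ => Real.exp (-(C * y))) (Real.exp (-(C * y)) * (-C)) y := by
      have := (((hasDerivAt_id y).const_mul C).neg).exp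
      simpa using this
    refine (e1.mul (hEd y hy)).congr_deriv ?_
    ring
  have hHc : ContinuousOn H (Icc 1 Y) :=
    fun y hy => (hHd y (hpos y hy)).continuousAt.continuousWithinAt
  have hanti : AntitoneOn H (Icc 1 Y) := by
    apply antitoneOn_of_deriv_nonpos (convex_Icc 1 Y) hHc
    · intro y hy
      rw [interior_Icc] at hy
      exact (hHd y (lt_trans one_pos hy.1)).differentiableAt.differentiableWithinAt
    · intro y hy
      rw [interior_Icc] at hy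
      have hy0 : 0 < y := lt_trans one_pos hy.1
      rw [(hHd y hy0).deriv]
      apply mul_nonpos_of_nonneg_of_nonpos (Real.exp_pos _).le
      have hyI : y ∈ Icc (1 : ℝ) Y := ⟨hy.1.le, hy.2.le⟩
      have hl := hLip (Φ y) (hmemR y hyI)
      have h2y : 2 / y ≤ 2 := by
        rw [div_le_iff₀ hy0]; linarith [hy.1]
      have hk : δ ≤ (1 + 2 * α) * y - 2 / y := by
        have : (1 + 2 * α) * 1 ≤ (1 + 2 * α) * y :=
          mul_le_mul_of_nonneg_left hy.1.le (by linarith)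
        rw [hδ]; linarith
      have h3 : Φ₁ y * ((f (Φ y) - α * (1 + α) * Φ y) + (Φ y - β))
          ≤ (K + 1) * (|Φ₁ y| * |Φ y - β|) := by
        calc Φ₁ y * ((f (Φ y) - α * (1 + α) * Φ y) + (Φ y - β))
            ≤ |Φ₁ y * ((f (Φ y) - α * (1 + α) * Φ y) + (Φ y - β))| := le_abs_self _
          _ = |Φ₁ y| * |(f (Φ y) - α * (1 + α) * Φ y) + (Φ y - β)| := abs_mul _ _
          _ ≤ |Φ₁ y| * (|f (Φ y) - α * (1 + α) * Φ y| + |Φ y - β|) := by
              gcongr; exact abs_add_le _ _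
          _ ≤ |Φ₁ y| * (K * |Φ y - β| + |Φ y - β|) := by gcongr
          _ = (K + 1) * (|Φ₁ y| * |Φ y - β|) := by ring
      have h4 : -((1 + 2 * α) * y - 2 / y) * (Φ₁ y) ^ 2 ≤ -δ * (Φ₁ y) ^ 2 := by
        have := mul_le_mul_of_nonneg_right hk (sq_nonneg (Φ₁ y))
        linarith
      have h5 : -δ * (Φ₁ y) ^ 2 + (K + 1) * (|Φ₁ y| * |Φ y - β|)
          ≤ C * ((Φ y - β) ^ 2 / 2) := by
        have e1 : (Φ₁ y) ^ 2 = |Φ₁ y| ^ 2 := (sq_abs _).symm
        have e2 : (Φ y - β) ^ 2 = |Φ y - β| ^ 2 := (sq_abs _).symm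
        rw [e1, e2, hC]
        have : (K + 1) ^ 2 / (2 * δ) * (|Φ y - β| ^ 2 / 2)
          - (-δ * |Φ₁ y| ^ 2 + (K + 1) * (|Φ₁ y| * |Φ y - β|))
          = (2 * δ * |Φ₁ y| - (K + 1) * |Φ y - β|) ^ 2 / (4 * δ) := by
          field_simp
          ring
        have h6 : 0 ≤ (2 * δ * |Φ₁ y| - (K + 1) * |Φ y - β|) ^ 2 / (4 * δ) := by positivity
        linarith
      have h7 : C * ((Φ y - β) ^ 2 / 2) ≤ C * E y := by
        apply mul_le_mul_of_nonneg_left _ hC0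
        have : 0 ≤ (y ^ 2 - 1) * (Φ₁ y) ^ 2 / 2 := by
          have : 0 ≤ y ^ 2 - 1 := by nlinarith [hy.1]
          positivity
        simp only [hE]
        linarith
      linarith
  have hH1 : H 1 = 0 := by
    simp [hH, hE, hβdef]
  have hHY := hanti h1mem (right_mem_Icc.2 hY) hY
  rw [hH1] at hHY
  have hEY : E Y ≤ 0 := by
    by_contra hcon
    push Not at hcon
    have := mul_pos (Real.exp_pos (-(C * Y))) hcon
    exact absurd hHY (not_le.2 this)
  have h8 : 0 ≤ (Y ^ 2 - 1) * (Φ₁ Y) ^ 2 / 2 := by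
    have : 0 ≤ Y ^ 2 - 1 := by nlinarith [hY]
    positivity
  have h9 : (Φ Y - β) ^ 2 ≤ 0 := by
    simp only [hE] at hEY
    linarith
  have h10 : Φ Y - β = 0 := by
    have := le_antisymm h9 (sq_nonneg _)
    exact pow_eq_zero_iff (two_ne_zero) |>.1 this
  linarith

/-- Growth outside the light cone. -/
theorem tail_grow {α : ℝ} (f Φ Φ₁ Φ₂ : ℝ → ℝ)
    (hd : ∀ y, 0 < y → HasDerivAt Φ (Φ₁ y) y)
    (hd1 : ∀ y, 0 < y → HasDerivAt Φ₁ (Φ₂ y) y)
    (hode : ∀ y, 0 < y → (1 - y ^ 2) * Φ₂ y + (2 / y - 2 * (1 + α) * y) * Φ₁ y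
      - α * (1 + α) * Φ y + f (Φ y) = 0)
    (hβ : 0 < Φ 1 * Φ₁ 1)
    (hS : ∀ x, Φ 1 * Φ 1 < Φ 1 * x → 0 < Φ 1 * (f x - α * (1 + α) * x)) :
    ∀ y, 1 ≤ y → 0 < Φ 1 * Φ₁ y := by
  intro Y hY
  by_contra hneg
  push Not at hneg
  set q : ℝ → ℝ := fun y => Φ 1 * Φ₁ y with hq
  have hqc : ContinuousOn q (Icc 1 Y) := fun y hy =>
    ((hd1 y (lt_of_lt_of_le one_pos hy.1)).continuousAt.continuousWithinAt).const_mul _
  -- first zero
  have hZc : IsCompact (Icc (1 : ℝ) Y ∩ q ⁻¹' (Iic 0)) := by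
    have : IsClosed (Icc (1 : ℝ) Y ∩ q ⁻¹' (Iic 0)) :=
      hqc.preimage_isClosed_of_isClosed isClosed_Icc isClosed_Iic
    exact isCompact_Icc.of_isClosed_subset this inter_subset_left
  have hZn : (Icc (1 : ℝ) Y ∩ q ⁻¹' (Iic 0)).Nonempty := ⟨Y, ⟨hY, le_rfl⟩, hneg⟩
  obtain ⟨z, hz, hzl⟩ := hZc.exists_isLeast hZn
  have hz1 : 1 ≤ z := hz.1.1
  have hqz : q z ≤ 0 := hz.2
  have hzne : z ≠ 1 := by
    intro h
    rw [h] at hqz
    exact absurd hqz (not_le.2 hβ)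
  have hz1' : 1 < z := lt_of_le_of_ne hz1 (Ne.symm hzne)
  have hz0 : 0 < z := lt_trans one_pos hz1'
  have hbefore : ∀ y, 1 ≤ y → y < z → 0 < q y := by
    intro y hy hyz
    by_contra hcon
    push Not at hcon
    have : z ≤ y := hzl ⟨⟨hy, (hyz.trans_le hz.1.2).le⟩, hcon⟩
    linarith
  have hqd : HasDerivAt q (Φ 1 * Φ₂ z) z := (hd1 z hz0).const_mul _
  -- value at `z` is zero
  have hqz0 : q z = 0 := by
    apply le_antisymm hqz
    have hc : ContinuousWithinAt q (Ico 1 z) z := hqd.continuousAt.continuousWithinAt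
    have hne : (𝓝[Ico 1 z] z).NeBot := by
      rw [← mem_closure_iff_nhdsWithin_neBot, closure_Ico hz1'.ne]
      exact right_mem_Icc.2 hz1'.le
    refine ge_of_tendsto hc ?_
    filter_upwards [self_mem_nhdsWithin] with y hy
    exact (hbefore y hy.1 hy.2).le
  have hΦ1z : Φ₁ z = 0 := by
    have h1 : Φ 1 ≠ 0 := by
      intro h; rw [h, zero_mul] at hβ; exact lt_irrefl _ hβ
    exact (mul_eq_zero.1 hqz0).resolve_left h1
  -- `Φ 1 * Φ z > Φ 1 * Φ 1`
  have hstrict : StrictMonoOn (fun y => Φ 1 * Φ y) (Icc 1 z) := by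
    apply strictMonoOn_of_deriv_pos (convex_Icc 1 z)
    · intro y hy
      exact ((hd y (lt_of_lt_of_le one_pos hy.1)).continuousAt.continuousWithinAt).const_mul _
    · intro y hy
      rw [interior_Icc] at hy
      rw [((hd y (lt_trans one_pos hy.1)).const_mul (Φ 1)).deriv]
      exact hbefore y hy.1.le hy.2
  have hgt := hstrict (left_mem_Icc.2 hz1) (right_mem_Icc.2 hz1) hz1'
  have hS' := hS (Φ z) hgt
  have ho := hode z hz0
  rw [hΦ1z, mul_zero, add_zero] at ho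
  have hΦ2 : 0 < Φ 1 * Φ₂ z := by
    have e : (z ^ 2 - 1) * (Φ 1 * Φ₂ z) = Φ 1 * (f (Φ z) - α * (1 + α) * Φ z) := by
      have : (z ^ 2 - 1) * Φ₂ z = f (Φ z) - α * (1 + α) * Φ z := by linarith
      rw [← this]; ring
    have hw : 0 < z ^ 2 - 1 := by nlinarith
    rw [← e] at hS'
    exact (pos_iff_pos_of_mul_pos hS').1 hw
  -- but `q` is positive before `z` and zero at `z`
  have hle : Φ 1 * Φ₂ z ≤ 0 := by
    have hslope := hqd.hasDerivWithinAt (s := Iio z)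
    rw [hasDerivWithinAt_iff_tendsto_slope' (by simp)] at hslope
    refine le_of_tendsto hslope ?_
    have : ∀ᶠ y in 𝓝[<] z, 1 ≤ y := by
      filter_upwards [Ioo_mem_nhdsLT hz1'] with y hy
      exact hy.1.le
    filter_upwards [this, self_mem_nhdsWithin] with y hy1 hyz
    rw [slope_def_field, hqz0, sub_zero]
    have h1 := hbefore y hy1 hyz
    have hyz' : y - z < 0 := sub_neg.2 hyz
    exact div_nonpos_of_nonneg_of_nonpos h1.le hyz'.le
  linarith

end Pool.Agent.H498R3.NLW
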