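import Mathlib
import Pool.Agent.H498R3.NLWTail

set_option autoImplicit false
open Set Filter Topology

namespace Pool.Agent.H498R3.NLW

/-- No first crossing of zero. -/
theorem pos_of_no_crossing (q q' : ℝ → ℝ) (hq : ∀ y, 1 ≤ y → HasDerivAt q (q' y) y)
    (h1 : 0 < q 1) (hcr : ∀ z, 1 < z → q z = 0 → 0 < q' z) :
    ∀ y, 1 ≤ y → 0 < q y := by
  intro Y hY
  by_contra hneg
  push Not at hneg
  have hqc : ContinuousOn q (Icc 1 Y) := fun y hy =>
    (hq y hy.1).continuousAt.continuousWithinAt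
  have hZc : IsCompact (Icc (1 : ℝ) Y ∩ q ⁻¹' (Iic 0)) := by
    have : IsClosed (Icc (1 : ℝ) Y ∩ q ⁻¹' (Iic 0)) :=
      hqc.preimage_isClosed_of_isClosed isClosed_Icc isClosed_Iic
    exact isCompact_Icc.of_isClosed_subset this inter_subset_left
  have hZn : (Icc (1 : ℝ) Y ∩ q ⁻¹' (Iic 0)).Nonempty := ⟨Y, ⟨hY, le_rfl⟩, hneg⟩
  obtain ⟨z, hz, hzl⟩ := hZc.exists_isLeast hZn
  have hz1 : 1 ≤ z := hz.1.1
  have hqz : q z ≤ 0 := hz.2
  have hzne : z ≠ 1 := by
    intro h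
    rw [h] at hqz
    exact absurd hqz (not_le.2 h1)
  have hz1' : 1 < z := lt_of_le_of_ne hz1 (Ne.symm hzne)
  have hbefore : ∀ y, 1 ≤ y → y < z → 0 < q y := by
    intro y hy hyz
    by_contra hcon
    push Not at hcon
    have : z ≤ y := hzl ⟨⟨hy, (hyz.trans_le hz.1.2).le⟩, hcon⟩
    linarith
  have hqd : HasDerivAt q (q' z) z := hq z hz1
  have hqz0 : q z = 0 := by
    apply le_antisymm hqz
    have hc : ContinuousWithinAt q (Ico 1 z) z := hqd.continuousAt.continuousWithinAt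
    have hne : (𝓝[Ico 1 z] z).NeBot := by
      rw [← mem_closure_iff_nhdsWithin_neBot, closure_Ico hz1'.ne]
      exact right_mem_Icc.2 hz1'.le
    refine ge_of_tendsto hc ?_
    filter_upwards [self_mem_nhdsWithin] with y hy
    exact (hbefore y hy.1 hy.2).le
  have hpos := hcr z hz1' hqz0
  have hle : q' z ≤ 0 := by
    have hslope := hqd.hasDerivWithinAt (s := Iio z)
    rw [hasDerivWithinAt_iff_tendsto_slope' (by simp)] at hslope
    refine le_of_tendsto hslope ?_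
    have : ∀ᶠ y in 𝓝[<] z, 1 ≤ y := by
      filter_upwards [Ioo_mem_nhdsLT hz1'] with y hy
      exact hy.1.le
    filter_upwards [this, self_mem_nhdsWithin] with y hy1 hyz
    rw [slope_def_field, hqz0, sub_zero]
    have h1 := hbefore y hy1 hyz
    have hyz' : y - z < 0 := sub_neg.2 hyz
    exact div_nonpos_of_nonneg_of_nonpos h1.le hyz'.le
  linarith

/-- Blow-up outside the light cone. -/
theorem tail_blowup {α : ℝ} (ha : 0 < α) (f Φ Φ₁ Φ₂ : ℝ → ℝ)
    (hd : ∀ y, 0 < y → HasDerivAt Φ (Φ₁ y) y)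
    (hd1 : ∀ y, 0 < y → HasDerivAt Φ₁ (Φ₂ y) y)
    (hode : ∀ y, 0 < y → (1 - y ^ 2) * Φ₂ y + (2 / y - 2 * (1 + α) * y) * Φ₁ y
      - α * (1 + α) * Φ y + f (Φ y) = 0)
    (hβ : 0 < Φ 1 * Φ₁ 1)
    (hS : ∃ μ : ℝ, 0 < μ ∧ ∀ x, Φ 1 * Φ 1 ≤ Φ 1 * x →
      μ * (Φ 1 * x) ^ 3 ≤ Φ 1 * (f x - α * (1 + α) * x)) : False := by
  obtain ⟨μ, hμ, hS⟩ := hS
  have hΦ1 : Φ 1 ≠ 0 := by
    intro h; rw [h, zero_mul] at hβ; exact lt_irrefl _ hβ
  have hb : 0 < Φ 1 * Φ 1 := mul_self_pos.2 hΦ1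
  have hgrow : ∀ y, 1 ≤ y → 0 < Φ 1 * Φ₁ y := by
    apply tail_grow f Φ Φ₁ Φ₂ hd hd1 hode hβ
    intro x hx
    have h1 := hS x hx.le
    have h2 : 0 < Φ 1 * x := lt_trans hb hx
    have : 0 < μ * (Φ 1 * x) ^ 3 := by positivity
    linarith
  set V : ℝ → ℝ := fun y => Φ 1 * Φ y with hV
  set V₁ : ℝ → ℝ := fun y => Φ 1 * Φ₁ y with hV1
  set b : ℝ := Φ 1 * Φ 1 with hbdef
  have hVd : ∀ y, 0 < y → HasDerivAt V (V₁ y) y := fun y hy => (hd y hy).const_mul _
  have hVd1 : ∀ y, 0 < y → HasDerivAt V₁ (Φ 1 * Φ₂ y) y := fun y hy => (hd1 y hy).const_mul _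
  have hVmono : ∀ y, 1 ≤ y → b ≤ V y := by
    intro y hy
    have hm : MonotoneOn V (Icc 1 y) := by
      apply monotoneOn_of_deriv_nonneg (convex_Icc 1 y)
      · intro z hz
        exact (hVd z (lt_of_lt_of_le one_pos hz.1)).continuousAt.continuousWithinAt
      · intro z hz
        rw [interior_Icc] at hz
        exact (hVd z (lt_trans one_pos hz.1)).differentiableAt.differentiableWithinAt
      · intro z hz
        rw [interior_Icc] at hz
        rw [(hVd z (lt_trans one_pos hz.1)).deriv]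
        exact (hgrow z hz.1.le).le
    exact hm (left_mem_Icc.2 hy) (right_mem_Icc.2 hy) hy
  -- the small constant
  set κ : ℝ := 2 * (1 + α) with hκ
  have hκ0 : 0 < κ := by rw [hκ]; linarith
  obtain ⟨ε, hε0, hε1, hε2⟩ : ∃ ε : ℝ, 0 < ε ∧ ε * b ^ 2 < V₁ 1 ∧ κ * ε / b + 2 * ε ^ 2 < μ := by
    refine ⟨min (V₁ 1 / (2 * b ^ 2)) (min 1 (μ / (2 * (κ / b + 2)))), ?_, ?_, ?_⟩
    · apply lt_min
      · exact div_pos hβ (by positivity)
      · apply lt_min one_pos
        positivity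
    · have h1 : min (V₁ 1 / (2 * b ^ 2)) (min 1 (μ / (2 * (κ / b + 2)))) ≤ V₁ 1 / (2 * b ^ 2) :=
        min_le_left _ _
      have h2 : V₁ 1 / (2 * b ^ 2) * b ^ 2 = V₁ 1 / 2 := by field_simp
      have h3 := mul_le_mul_of_nonneg_right h1 (by positivity : (0 : ℝ) ≤ b ^ 2)
      rw [h2] at h3
      have h4 : 0 < V₁ 1 := hβ
      linarith
    · set ε := min (V₁ 1 / (2 * b ^ 2)) (min 1 (μ / (2 * (κ / b + 2)))) with hε
      have hε0 : 0 < ε := by
        apply lt_min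
        · exact div_pos hβ (by positivity)
        · apply lt_min one_pos
          positivity
      have h1 : ε ≤ 1 := le_trans (min_le_right _ _) (min_le_left _ _)
      have h2 : ε ≤ μ / (2 * (κ / b + 2)) := le_trans (min_le_right _ _) (min_le_right _ _)
      have h3 : ε * (κ / b + 2) ≤ μ / 2 := by
        have h4 : 0 < κ / b + 2 := by positivity
        calc ε * (κ / b + 2) ≤ μ / (2 * (κ / b + 2)) * (κ / b + 2) :=
              mul_le_mul_of_nonneg_right h2 h4.le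
          _ = μ / 2 := by field_simp
      have h5 : 2 * ε ^ 2 ≤ 2 * ε := by nlinarith
      have h6 : κ * ε / b + 2 * ε ^ 2 ≤ ε * (κ / b + 2) := by
        have : κ * ε / b = ε * (κ / b) := by ring
        rw [this]; linarith
      linarith
  set q : ℝ → ℝ := fun y => y * V₁ y - ε * (V y) ^ 2 with hq
  have hqd : ∀ y, 1 ≤ y → HasDerivAt q
      (V₁ y + y * (Φ 1 * Φ₂ y) - ε * (2 * V y * V₁ y)) y := by
    intro y hy
    have hy0 : 0 < y := lt_of_lt_of_le one_pos hy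
    have e1 := ((hasDerivAt_id y).mul (hVd1 y hy0)).sub (((hVd y hy0).pow 2).const_mul ε)
    refine e1.congr_deriv ?_
    simp
  have hq1 : 0 < q 1 := by
    have : V 1 = b := rfl
    simp only [hq]
    rw [this]
    linarith
  have hqpos : ∀ y, 1 ≤ y → 0 < q y := by
    apply pos_of_no_crossing q _ hqd hq1
    intro z hz hqz
    have hz0 : 0 < z := lt_trans one_pos hz
    have hw : 0 < z ^ 2 - 1 := by nlinarith
    have hV1z : z * V₁ z = ε * (V z) ^ 2 := by
      simp only [hq] at hqz; linarith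
    have hVz : b ≤ V z := hVmono z hz.le
    have hVz0 : 0 < V z := lt_of_lt_of_le hb hVz
    have hg : μ * (V z) ^ 3 ≤ Φ 1 * (f (Φ z) - α * (1 + α) * Φ z) := hS (Φ z) hVz
    have ho := hode z hz0
    -- `(z^2-1) z V₂`
    have e1 : (z ^ 2 - 1) * (z * (Φ 1 * Φ₂ z))
        = 2 * V₁ z - κ * z * (z * V₁ z) + z * (Φ 1 * (f (Φ z) - α * (1 + α) * Φ z)) := by
      have : (z ^ 2 - 1) * Φ₂ z = (2 / z - 2 * (1 + α) * z) * Φ₁ z
        + (f (Φ z) - α * (1 + α) * Φ z) := by linarith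
      calc (z ^ 2 - 1) * (z * (Φ 1 * Φ₂ z)) = z * Φ 1 * ((z ^ 2 - 1) * Φ₂ z) := by ring
        _ = _ := by
          rw [this]
          simp only [hV1, hκ]
          field_simp
    have hprod : 0 < (z ^ 2 - 1) * (V₁ z + z * (Φ 1 * Φ₂ z) - ε * (2 * V z * V₁ z)) := by
      have e2 : (z ^ 2 - 1) * (V₁ z + z * (Φ 1 * Φ₂ z) - ε * (2 * V z * V₁ z))
          = (z ^ 2 - 1) * V₁ z + (2 * V₁ z - κ * z * (z * V₁ z)
            + z * (Φ 1 * (f (Φ z) - α * (1 + α) * Φ z))) - 2 * ε * V z * ((z ^ 2 - 1) * V₁ z) := by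
        rw [← e1]; ring
      rw [e2, hV1z]
      have hV1pos : 0 < V₁ z := hgrow z hz.le
      have h1 : 0 ≤ (z ^ 2 - 1) * V₁ z := by positivity
      have h2 : (z ^ 2 - 1) * V₁ z ≤ z * (ε * (V z) ^ 2) := by
        rw [← hV1z]
        nlinarith
      have h3 : 2 * ε * V z * ((z ^ 2 - 1) * V₁ z) ≤ 2 * ε * V z * (z * (ε * (V z) ^ 2)) := by
        apply mul_le_mul_of_nonneg_left h2 (by positivity)
      have h4 : κ * z * (ε * (V z) ^ 2) ≤ (κ * ε / b) * (z * (V z) ^ 3) := by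
        have : (κ * ε / b) * (z * (V z) ^ 3) = κ * z * (ε * (V z) ^ 2) * (V z / b) := by
          field_simp
        rw [this]
        have h5 : 1 ≤ V z / b := by rw [le_div_iff₀ hb]; linarith
        have h6 : 0 ≤ κ * z * (ε * (V z) ^ 2) := by positivity
        nlinarith
      have h5 : z * (μ * (V z) ^ 3) ≤ z * (Φ 1 * (f (Φ z) - α * (1 + α) * Φ z)) :=
        mul_le_mul_of_nonneg_left hg hz0.le
      have h6 : 0 < (μ - (κ * ε / b + 2 * ε ^ 2)) * (z * (V z) ^ 3) := by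
        have : 0 < μ - (κ * ε / b + 2 * ε ^ 2) := by linarith
        positivity
      have h7 : 2 * ε * V z * (z * (ε * (V z) ^ 2)) = 2 * ε ^ 2 * (z * (V z) ^ 3) := by ring
      nlinarith
    exact (pos_iff_pos_of_mul_pos hprod).1 hw
  -- integrate
  set W : ℝ → ℝ := fun y => -(V y)⁻¹ - ε * Real.log y with hW
  have hWd : ∀ y, 1 ≤ y → HasDerivAt W (V₁ y / (V y) ^ 2 - ε * y⁻¹) y := by
    intro y hy
    have hy0 : 0 < y := lt_of_lt_of_le one_pos hy
    have hVy : V y ≠ 0 := (lt_of_lt_of_le hb (hVmono y hy)).ne'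
    have e1 := ((hVd y hy0).inv hVy).neg.sub ((Real.hasDerivAt_log hy0.ne').const_mul ε)
    refine e1.congr_deriv ?_
    ring
  have hWmono : ∀ y, 1 ≤ y → W 1 ≤ W y := by
    intro y hy
    have hm : MonotoneOn W (Icc 1 y) := by
      apply monotoneOn_of_deriv_nonneg (convex_Icc 1 y)
      · intro z hz
        exact (hWd z hz.1).continuousAt.continuousWithinAt
      · intro z hz
        rw [interior_Icc] at hz
        exact (hWd z hz.1.le).differentiableAt.differentiableWithinAt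
      · intro z hz
        rw [interior_Icc] at hz
        rw [(hWd z hz.1.le).deriv]
        have hz0 : 0 < z := lt_trans one_pos hz.1
        have hVz0 : 0 < V z := lt_of_lt_of_le hb (hVmono z hz.1.le)
        have h1 := hqpos z hz.1.le
        have : V₁ z / (V z) ^ 2 - ε * z⁻¹ = q z / (z * (V z) ^ 2) := by
          simp only [hq]
          field_simp
        rw [this]
        positivity
    exact hm (left_mem_Icc.2 hy) (right_mem_Icc.2 hy) hy
  set y₀ : ℝ := Real.exp (1 / (b * ε)) with hy₀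
  have hy₀1 : 1 ≤ y₀ := Real.one_le_exp (by positivity)
  have h1 := hWmono y₀ hy₀1
  have h2 : 0 < V y₀ := lt_of_lt_of_le hb (hVmono y₀ hy₀1)
  have h3 : W 1 = -b⁻¹ := by
    simp only [hW]
    rw [Real.log_one, mul_zero, sub_zero]
  have h4 : W y₀ = -(V y₀)⁻¹ - b⁻¹ := by
    simp only [hW]
    rw [hy₀, Real.log_exp]
    field_simp
  rw [h3, h4] at h1
  have h5 : 0 < (V y₀)⁻¹ := inv_pos.2 h2
  linarith

end Pool.Agent.H498R3.NLW
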