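import Mathlib

set_option autoImplicit false
open Set Filter Topology

namespace Pool.Agent.H498R3.NLW

/-- The two monotone quantities inside the light cone. -/
theorem key {α : ℝ} (ha : 1 / 2 < α) (F f Φ Φ₁ Φ₂ : ℝ → ℝ)
    (hF : ∀ x, HasDerivAt F (f x) x)
    (hxf : ∀ x, α * (x * f x) = 2 * (1 + α) * F x)
    (h0 : ContinuousOn Φ (Icc 0 1)) (h1 : ContinuousOn Φ₁ (Icc 0 1))
    (hd : ∀ y ∈ Ioo (0 : ℝ) 1, HasDerivAt Φ (Φ₁ y) y)
    (hd1 : ∀ y ∈ Ioo (0 : ℝ) 1, HasDerivAt Φ₁ (Φ₂ y) y)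
    (hode : ∀ y ∈ Ioo (0 : ℝ) 1, (1 - y ^ 2) * Φ₂ y + (2 / y - 2 * (1 + α) * y) * Φ₁ y
      - α * (1 + α) * Φ y + f (Φ y) = 0)
    (hode1 : 2 * α * Φ₁ 1 = f (Φ 1) - α * (1 + α) * Φ 1) :
    0 ≤ Φ 1 * Φ₁ 1 ∧ (Φ 1 * Φ₁ 1 = 0 → ∀ y ∈ Ioo (0 : ℝ) 1, Φ₁ y = 0) := by
  have ha0 : 0 < α := by linarith
  set κ : ℝ := 1 + 2 * α with hκ
  set P : ℝ → ℝ := fun y => (1 - y ^ 2) * (Φ₁ y) ^ 2 / 2 + F (Φ y) - α ^ 2 * (Φ y) ^ 2 / 2 with hP
  set N : ℝ → ℝ := fun y => (1 + κ * y ^ 2) * P y + α * y * (1 - κ * y ^ 2) * (Φ y * Φ₁ y) with hN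
  set G : ℝ → ℝ := fun y => (1 - y ^ 2) ^ α * N y with hG
  set M : ℝ → ℝ := fun y => κ * y ^ 3 * P y + α * y ^ 2 * (2 - κ * y ^ 2) * (Φ y * Φ₁ y) with hM
  have hFc : Continuous F := continuous_iff_continuousAt.2 fun x => (hF x).continuousAt
  have hPc : ContinuousOn P (Icc 0 1) := by
    apply ContinuousOn.sub
    · apply ContinuousOn.add
      · exact ((continuousOn_const.sub (continuousOn_id.pow 2)).mul (h1.pow 2)).div_const 2
      · exact hFc.comp_continuousOn h0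
    · exact (continuousOn_const.mul (h0.pow 2)).div_const 2
  have hNc : ContinuousOn N (Icc 0 1) := by
    apply ContinuousOn.add
    · exact (continuousOn_const.add (continuousOn_const.mul (continuousOn_id.pow 2))).mul hPc
    · exact ((continuousOn_const.mul continuousOn_id).mul
        (continuousOn_const.sub (continuousOn_const.mul (continuousOn_id.pow 2)))).mul (h0.mul h1)
  have hGc : ContinuousOn G (Icc 0 1) := by
    apply ContinuousOn.mul _ hNc
    apply ContinuousOn.rpow_const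
    · exact continuousOn_const.sub (continuousOn_id.pow 2)
    · intro x _; right; exact ha0.le
  have hMc : ContinuousOn M (Icc 0 1) := by
    apply ContinuousOn.add
    · exact (continuousOn_const.mul (continuousOn_id.pow 3)).mul hPc
    · exact ((continuousOn_const.mul (continuousOn_id.pow 2)).mul
        (continuousOn_const.sub (continuousOn_const.mul (continuousOn_id.pow 2)))).mul (h0.mul h1)
  -- derivative of `P`
  have hPd : ∀ y ∈ Ioo (0 : ℝ) 1, HasDerivAt P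
      (-((2 - κ * y ^ 2) / y) * (Φ₁ y) ^ 2 + α * (Φ y * Φ₁ y)) y := by
    intro y hy
    have e0 := hd y hy
    have e1 := hd1 y hy
    have e2 : HasDerivAt (fun y : ℝ => 1 - y ^ 2) (-(2 * y)) y := by
      simpa using ((hasDerivAt_id y).pow 2).const_sub 1
    have e3 : HasDerivAt (fun y => F (Φ y)) (f (Φ y) * Φ₁ y) y := (hF (Φ y)).comp y e0
    have e4 := (((e2.mul (e1.pow 2)).div_const 2).add e3).sub
      (((e0.pow 2).const_mul (α ^ 2)).div_const 2)
    refine e4.congr_deriv ?_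
    have hy0 : y ≠ 0 := ne_of_gt hy.1
    have ho := hode y hy
    have : f (Φ y) = -((1 - y ^ 2) * Φ₂ y + (2 / y - 2 * (1 + α) * y) * Φ₁ y
      - α * (1 + α) * Φ y) := by linarith
    simp only [Pi.pow_apply]
    rw [this, hκ]
    field_simp
    ring
  have hΦΦ : ∀ y ∈ Ioo (0 : ℝ) 1, HasDerivAt (fun y => Φ y * Φ₁ y)
      (Φ₁ y * Φ₁ y + Φ y * Φ₂ y) y := fun y hy => (hd y hy).mul (hd1 y hy)
  have hid : ∀ y : ℝ, HasDerivAt (fun y : ℝ => y) 1 y := fun y => hasDerivAt_id y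
  -- `x f x` in terms of `P`
  have hxP : ∀ y, α * (Φ y * f (Φ y)) = 2 * (1 + α) * (P y - (1 - y ^ 2) * (Φ₁ y) ^ 2 / 2
      + α ^ 2 * (Φ y) ^ 2 / 2) := by
    intro y
    rw [hxf]
    simp only [hP]
    ring
  have hNd : ∀ y ∈ Ioo (0 : ℝ) 1, HasDerivAt N
      (2 * κ * y * P y + (1 + κ * y ^ 2) * (-((2 - κ * y ^ 2) / y) * (Φ₁ y) ^ 2
        + α * (Φ y * Φ₁ y)) + (α * (1 - 3 * κ * y ^ 2) * (Φ y * Φ₁ y)
        + α * y * (1 - κ * y ^ 2) * (Φ₁ y * Φ₁ y + Φ y * Φ₂ y))) y := by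
    intro y hy
    have a1 : HasDerivAt (fun y : ℝ => 1 + κ * y ^ 2) (2 * κ * y) y := by
      have := (((hid y).pow 2).const_mul κ).const_add 1
      refine this.congr_deriv ?_
      simp; ring
    have a2 : HasDerivAt (fun y : ℝ => α * y * (1 - κ * y ^ 2)) (α * (1 - 3 * κ * y ^ 2)) y := by
      have b1 := (hid y).const_mul α
      have b2 := (((hid y).pow 2).const_mul κ).const_sub 1
      refine (b1.mul b2).congr_deriv ?_
      simp; ring
    refine ((a1.mul (hPd y hy)).add (a2.mul (hΦΦ y hy))).congr_deriv ?_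
    ring
  have hGd : ∀ y ∈ Ioo (0 : ℝ) 1, HasDerivAt G
      (-(2 / y) * (1 - y ^ 2) ^ α * (Φ₁ y) ^ 2) y := by
    intro y hy
    have hy0 : y ≠ 0 := ne_of_gt hy.1
    have hw : 0 < 1 - y ^ 2 := by nlinarith [hy.1, hy.2]
    have e2 : HasDerivAt (fun y : ℝ => 1 - y ^ 2) (-(2 * y)) y := by
      simpa using ((hasDerivAt_id y).pow 2).const_sub 1
    have e3 := (e2.rpow_const (p := α) (Or.inl hw.ne')).mul (hNd y hy)
    refine e3.congr_deriv ?_
    have hr : (1 - y ^ 2) ^ (α - 1) = (1 - y ^ 2) ^ α / (1 - y ^ 2) := by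
      rw [Real.rpow_sub hw, Real.rpow_one]
    rw [hr]
    have ho := hode y hy
    have hx := hxP y
    have h2 : Φ₂ y = (-(2 / y - 2 * (1 + α) * y) * Φ₁ y
      + α * (1 + α) * Φ y - f (Φ y)) / (1 - y ^ 2) := by
      rw [eq_div_iff hw.ne']; linarith
    set w := (1 - y ^ 2) ^ α with hw'
    have hNy : N y = (1 + κ * y ^ 2) * P y + α * y * (1 - κ * y ^ 2) * (Φ y * Φ₁ y) := rfl
    rw [hNy, h2]
    have hPf : P y = α * (Φ y * f (Φ y)) / (2 * (1 + α)) + (1 - y ^ 2) * (Φ₁ y) ^ 2 / 2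
      - α ^ 2 * (Φ y) ^ 2 / 2 := by
      have h1a : (2 * (1 + α)) ≠ 0 := by positivity
      field_simp
      linarith
    rw [hPf, hκ]
    have h1a : (1 + α) ≠ 0 := by positivity
    field_simp
    ring
  have hMd : ∀ y ∈ Ioo (0 : ℝ) 1, HasDerivAt M
      ((2 * α - 1) * y ^ 2 * N y / (1 - y ^ 2)) y := by
    intro y hy
    have hy0 : y ≠ 0 := ne_of_gt hy.1
    have hw : 0 < 1 - y ^ 2 := by nlinarith [hy.1, hy.2]
    have a1 : HasDerivAt (fun y : ℝ => κ * y ^ 3) (3 * κ * y ^ 2) y := by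
      refine (((hid y).pow 3).const_mul κ).congr_deriv ?_
      simp; ring
    have a2 : HasDerivAt (fun y : ℝ => α * y ^ 2 * (2 - κ * y ^ 2))
        (α * (4 * y - 4 * κ * y ^ 3)) y := by
      have b1 := ((hid y).pow 2).const_mul α
      have b2 := (((hid y).pow 2).const_mul κ).const_sub 2
      refine (b1.mul b2).congr_deriv ?_
      simp; ring
    refine ((a1.mul (hPd y hy)).add (a2.mul (hΦΦ y hy))).congr_deriv ?_
    have ho := hode y hy
    have h2 : Φ₂ y = (-(2 / y - 2 * (1 + α) * y) * Φ₁ y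
      + α * (1 + α) * Φ y - f (Φ y)) / (1 - y ^ 2) := by
      rw [eq_div_iff hw.ne']; linarith
    have hNy : N y = (1 + κ * y ^ 2) * P y + α * y * (1 - κ * y ^ 2) * (Φ y * Φ₁ y) := rfl
    have hPf : P y = α * (Φ y * f (Φ y)) / (2 * (1 + α)) + (1 - y ^ 2) * (Φ₁ y) ^ 2 / 2
      - α ^ 2 * (Φ y) ^ 2 / 2 := by
      have h1a : (2 * (1 + α)) ≠ 0 := by positivity
      have hx := hxP y
      field_simp
      linarith
    rw [hNy, h2, hPf, hκ]
    have h1a : (1 + α) ≠ 0 := by positivity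
    field_simp
    ring
  -- `G` is antitone and vanishes at `1`
  have hGanti : AntitoneOn G (Icc 0 1) := by
    apply antitoneOn_of_deriv_nonpos (convex_Icc 0 1) hGc
    · intro y hy
      rw [interior_Icc] at hy
      exact (hGd y hy).differentiableAt.differentiableWithinAt
    · intro y hy
      rw [interior_Icc] at hy
      rw [(hGd y hy).deriv]
      have hw : 0 < 1 - y ^ 2 := by nlinarith [hy.1, hy.2]
      have := Real.rpow_pos_of_pos hw α
      have h3 : 0 < 2 / y := div_pos two_pos hy.1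
      have : 0 ≤ (2 / y) * (1 - y ^ 2) ^ α * (Φ₁ y) ^ 2 := by positivity
      linarith
  have hG1 : G 1 = 0 := by
    simp only [hG]
    rw [one_pow, sub_self, Real.zero_rpow ha0.ne', zero_mul]
  have hNnonneg : ∀ y ∈ Ioo (0 : ℝ) 1, 0 ≤ N y := by
    intro y hy
    have hw : 0 < 1 - y ^ 2 := by nlinarith [hy.1, hy.2]
    have h3 := hGanti ⟨hy.1.le, hy.2.le⟩ (right_mem_Icc.2 zero_le_one) hy.2.le
    rw [hG1] at h3
    exact nonneg_of_mul_nonneg_right h3 (Real.rpow_pos_of_pos hw α)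
  have hMmono : MonotoneOn M (Icc 0 1) := by
    apply monotoneOn_of_deriv_nonneg (convex_Icc 0 1) hMc
    · intro y hy
      rw [interior_Icc] at hy
      exact (hMd y hy).differentiableAt.differentiableWithinAt
    · intro y hy
      rw [interior_Icc] at hy
      rw [(hMd y hy).deriv]
      have hw : 0 < 1 - y ^ 2 := by nlinarith [hy.1, hy.2]
      have h3 := hNnonneg y hy
      have h4 : 0 < 2 * α - 1 := by linarith
      positivity
  have hM0 : M 0 = 0 := by simp [hM]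
  have hM1 : M 1 = α / (1 + α) * (Φ 1 * Φ₁ 1) := by
    have hx := hxf (Φ 1)
    have h1a : (1 + α) ≠ 0 := by positivity
    have hf1 : f (Φ 1) = 2 * α * Φ₁ 1 + α * (1 + α) * Φ 1 := by linarith
    have hF1 : F (Φ 1) = α ^ 2 * (Φ 1 * Φ₁ 1) / (1 + α) + α ^ 2 * (Φ 1) ^ 2 / 2 := by
      rw [hf1] at hx
      field_simp
      linarith
    simp only [hM, hP]
    rw [hF1, hκ]
    field_simp
    ring
  have hpos : 0 ≤ M 1 := by
    have := hMmono (left_mem_Icc.2 zero_le_one) (right_mem_Icc.2 zero_le_one) zero_le_one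
    rwa [hM0] at this
  have hc : 0 < α / (1 + α) := by positivity
  refine ⟨?_, ?_⟩
  · rw [hM1] at hpos
    exact nonneg_of_mul_nonneg_right hpos hc
  · intro hz
    have hM10 : M 1 = 0 := by rw [hM1, hz, mul_zero]
    have hMz : ∀ y ∈ Icc (0 : ℝ) 1, M y = 0 := by
      intro y hy
      have u1 := hMmono (left_mem_Icc.2 zero_le_one) hy hy.1
      have u2 := hMmono hy (right_mem_Icc.2 zero_le_one) hy.2
      rw [hM0] at u1; rw [hM10] at u2
      exact le_antisymm u2 u1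
    have hNz : ∀ y ∈ Ioo (0 : ℝ) 1, N y = 0 := by
      intro y hy
      have hw : 0 < 1 - y ^ 2 := by nlinarith [hy.1, hy.2]
      have e1 : HasDerivAt M 0 y := by
        refine (hasDerivAt_const y (0 : ℝ)).congr_of_eventuallyEq ?_
        filter_upwards [Ioo_mem_nhds hy.1 hy.2] with z hz
        exact hMz z ⟨hz.1.le, hz.2.le⟩
      have e2 := (hMd y hy).unique e1
      have h4 : 0 < (2 * α - 1) * y ^ 2 := by
        have : 0 < 2 * α - 1 := by linarith
        have := hy.1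
        positivity
      rw [div_eq_zero_iff] at e2
      rcases e2 with e2 | e2
      · rcases mul_eq_zero.1 e2 with e3 | e3
        · exact absurd e3 h4.ne'
        · exact e3
      · exact absurd e2 hw.ne'
    intro y hy
    have hw : 0 < 1 - y ^ 2 := by nlinarith [hy.1, hy.2]
    have e1 : HasDerivAt G 0 y := by
      refine (hasDerivAt_const y (0 : ℝ)).congr_of_eventuallyEq ?_
      filter_upwards [Ioo_mem_nhds hy.1 hy.2] with z hz
      simp only [hG]
      rw [hNz z hz, mul_zero]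
    have e2 := (hGd y hy).unique e1
    have h3 : 0 < (2 / y) * (1 - y ^ 2) ^ α :=
      mul_pos (div_pos two_pos hy.1) (Real.rpow_pos_of_pos hw α)
    have h5 : (2 / y) * (1 - y ^ 2) ^ α * (Φ₁ y) ^ 2 = 0 := by linarith
    rcases mul_eq_zero.1 h5 with h6 | h6
    · exact absurd h6 h3.ne'
    · exact pow_eq_zero_iff (two_ne_zero) |>.1 h6

end Pool.Agent.H498R3.NLW
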