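import Mathlib
import Pool.Agent.H498R3.NLWKey
import Pool.Agent.H498R3.NLWTail
import Pool.Agent.H498R3.NLWBlow

set_option autoImplicit false
open Set Filter Topology Asymptotics

namespace Pool.Agent.H498R3.NLW

/-- Abstract form: a solution on `[0, ∞)` is constant. -/
theorem constant {α : ℝ} (ha : 1 / 2 < α) (F f f' Φ Φ₁ Φ₂ : ℝ → ℝ)
    (hF : ∀ x, HasDerivAt F (f x) x)
    (hf : ∀ x, HasDerivAt f (f' x) x) (hf' : Continuous f') (hf0 : f 0 = 0)
    (hxf : ∀ x, α * (x * f x) = 2 * (1 + α) * F x)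
    (hS : ∀ β, 0 < β * (f β - α * (1 + α) * β) → ∃ μ : ℝ, 0 < μ ∧
      ∀ x, β * β ≤ β * x → μ * (β * x) ^ 3 ≤ β * (f x - α * (1 + α) * x))
    (h0 : ContinuousOn Φ (Icc 0 1)) (h1 : ContinuousOn Φ₁ (Icc 0 1))
    (hd : ∀ y, 0 < y → HasDerivAt Φ (Φ₁ y) y)
    (hd1 : ∀ y, 0 < y → HasDerivAt Φ₁ (Φ₂ y) y)
    (hode : ∀ y, 0 < y → (1 - y ^ 2) * Φ₂ y + (2 / y - 2 * (1 + α) * y) * Φ₁ y
      - α * (1 + α) * Φ y + f (Φ y) = 0) :
    ∀ y, 0 ≤ y → Φ y = Φ 1 := by
  have hode1 : 2 * α * Φ₁ 1 = f (Φ 1) - α * (1 + α) * Φ 1 := by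
    have := hode 1 one_pos
    norm_num at this
    linarith
  obtain ⟨hA, hB⟩ := key ha F f Φ Φ₁ Φ₂ hF hxf h0 h1 (fun y hy => hd y hy.1)
    (fun y hy => hd1 y hy.1) (fun y hy => hode y hy.1) hode1
  rcases eq_or_lt_of_le hA with hz | hpos
  · have hz' := hB hz.symm
    have hfβ : f (Φ 1) = α * (1 + α) * Φ 1 := by
      rcases mul_eq_zero.1 hz.symm with h | h
      · rw [h, hf0, mul_zero]
      · rw [h, mul_zero] at hode1
        linarith
    have htail := tail_const ha f f' Φ Φ₁ Φ₂ hf hf' hd hd1 hode hfβ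
    intro y hy
    rcases le_total y 1 with hy1 | hy1
    · have hmono : MonotoneOn Φ (Icc 0 1) := by
        apply monotoneOn_of_deriv_nonneg (convex_Icc 0 1) h0
        · intro z hz
          rw [interior_Icc] at hz
          exact (hd z hz.1).differentiableAt.differentiableWithinAt
        · intro z hz
          rw [interior_Icc] at hz
          rw [(hd z hz.1).deriv, hz' z hz]
      have hanti : AntitoneOn Φ (Icc 0 1) := by
        apply antitoneOn_of_deriv_nonpos (convex_Icc 0 1) h0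
        · intro z hz
          rw [interior_Icc] at hz
          exact (hd z hz.1).differentiableAt.differentiableWithinAt
        · intro z hz
          rw [interior_Icc] at hz
          rw [(hd z hz.1).deriv, hz' z hz]
      exact le_antisymm (hmono ⟨hy, hy1⟩ (right_mem_Icc.2 zero_le_one) hy1)
        (hanti ⟨hy, hy1⟩ (right_mem_Icc.2 zero_le_one) hy1)
    · exact htail y hy1
  · exfalso
    apply tail_blowup (by linarith) f Φ Φ₁ Φ₂ hd hd1 hode hpos
    apply hS
    rw [← hode1]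
    by_contra hcon
    push Not at hcon
    have : 0 < 2 * α := by linarith
    have := mul_pos this hpos
    nlinarith

/-- The nonlinearity `x ↦ |x| ^ (p - 1) * x`. -/
theorem power_abs {p : ℝ} (hp3 : 3 < p) {f : ℝ → ℝ} (hf : ∀ x, f x = |x| ^ (p - 1) * x) :
    ∃ F f' : ℝ → ℝ, (∀ x, HasDerivAt F (f x) x) ∧ (∀ x, HasDerivAt f (f' x) x) ∧
      Continuous f' ∧ f 0 = 0 ∧
      (∀ x, 2 / (p - 1) * (x * f x) = 2 * (1 + 2 / (p - 1)) * F x) ∧
      (∀ c, 0 < c → ∀ β, 0 < β * (f β - c * β) → ∃ μ : ℝ, 0 < μ ∧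
        ∀ x, β * β ≤ β * x → μ * (β * x) ^ 3 ≤ β * (f x - c * x)) := by
  have hfe : f = fun x => |x| ^ (p - 1) * x := funext hf
  refine ⟨fun x => |x| ^ (p + 1) / (p + 1),
    fun x => (p - 1) * |x| ^ (p - 1 - 2) * x * x + |x| ^ (p - 1), ?_, ?_, ?_, ?_, ?_, ?_⟩
  · intro x
    have h := (hasDerivAt_abs_rpow x (p := p + 1) (by linarith)).div_const (p + 1)
    refine h.congr_deriv ?_
    rw [hf x]
    have e : p + 1 - 2 = p - 1 := by ring
    rw [e]
    have : p + 1 ≠ 0 := by linarith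
    field_simp
  · intro x
    rw [hfe]
    have h := (hasDerivAt_abs_rpow x (p := p - 1) (by linarith)).mul (hasDerivAt_id x)
    refine h.congr_deriv ?_
    simp
  · apply Continuous.add
    · apply Continuous.mul _ continuous_id
      apply Continuous.mul _ continuous_id
      apply Continuous.mul continuous_const
      exact continuous_abs.rpow_const (fun x => Or.inr (by linarith))
    · exact continuous_abs.rpow_const (fun x => Or.inr (by linarith))
  · rw [hf, mul_zero]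
  · intro x
    have hp1 : p - 1 ≠ 0 := by linarith
    have hp2 : p + 1 ≠ 0 := by linarith
    have e : |x| ^ (p + 1) = |x| ^ (p - 1) * x ^ 2 := by
      have : (p + 1 : ℝ) = (p - 1) + 2 := by ring
      rw [this, Real.rpow_add' (abs_nonneg x) (by linarith)]
      congr 1
      rw [← sq_abs x]
      norm_cast
    show 2 / (p - 1) * (x * f x) = 2 * (1 + 2 / (p - 1)) * (|x| ^ (p + 1) / (p + 1))
    rw [hf x, e]
    field_simp
    ring
  · intro c hc β hβ
    rw [hf] at hβ
    have hβ0 : β ≠ 0 := by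
      intro h; rw [h] at hβ; simp at hβ
    have hβ2 : 0 < β * β := mul_self_pos.2 hβ0
    have e1 : β * (|β| ^ (p - 1) * β - c * β) = (β * β) * (|β| ^ (p - 1) - c) := by ring
    rw [e1] at hβ
    have h1 : 0 < |β| ^ (p - 1) - c := (pos_iff_pos_of_mul_pos hβ).1 hβ2
    refine ⟨(|β| ^ (p - 1) - c) / β ^ 4, by positivity, ?_⟩
    intro x hx
    rw [hf]
    have e2 : β * (|x| ^ (p - 1) * x - c * x) = (β * x) * (|x| ^ (p - 1) - c) := by ring
    rw [e2]
    have hle : |β| ≤ |x| := by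
      have h3 : |β| * |β| ≤ |β| * |x| := by
        calc |β| * |β| = β * β := abs_mul_abs_self β
          _ ≤ β * x := hx
          _ ≤ |β * x| := le_abs_self _
          _ = |β| * |x| := abs_mul _ _
      exact le_of_mul_le_mul_left h3 (abs_pos.2 hβ0)
    have hbp : 0 < |β| := abs_pos.2 hβ0
    set t : ℝ := |x| / |β| with ht
    have ht1 : 1 ≤ t := by rw [ht, le_div_iff₀ hbp, one_mul]; exact hle
    have hxt : |x| = |β| * t := by rw [ht]; field_simp
    have ht2 : t ^ 2 ≤ t ^ (p - 1) := by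
      have := Real.rpow_le_rpow_of_exponent_le ht1 (show (2 : ℝ) ≤ p - 1 by linarith)
      calc t ^ 2 = t ^ (2 : ℝ) := by norm_cast
        _ ≤ _ := this
    have h2 : (|β| ^ (p - 1) - c) * t ^ 2 ≤ |x| ^ (p - 1) - c := by
      rw [hxt, Real.mul_rpow hbp.le (by linarith)]
      have h3 : 0 ≤ |β| ^ (p - 1) := by positivity
      have h4 := mul_le_mul_of_nonneg_left ht2 h3
      have h5 : c * 1 ≤ c * t ^ 2 := by
        apply mul_le_mul_of_nonneg_left _ hc.le
        nlinarith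
      linarith
    have hβx : 0 < β * x := lt_of_lt_of_le hβ2 hx
    have h6 : (|β| ^ (p - 1) - c) / β ^ 4 * (β * x) ^ 3
        = (β * x) * ((|β| ^ (p - 1) - c) * t ^ 2) := by
      have : t ^ 2 = x ^ 2 / β ^ 2 := by rw [ht, div_pow, sq_abs, sq_abs]
      rw [this]
      field_simp
    rw [h6]
    exact mul_le_mul_of_nonneg_left h2 hβx.le

/-- The nonlinearity `x ↦ x ^ 4`. -/
theorem power_four {p : ℝ} (hp : p = 4) {f : ℝ → ℝ} (hf : ∀ x, f x = x ^ 4) :
    ∃ F f' : ℝ → ℝ, (∀ x, HasDerivAt F (f x) x) ∧ (∀ x, HasDerivAt f (f' x) x) ∧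
      Continuous f' ∧ f 0 = 0 ∧
      (∀ x, 2 / (p - 1) * (x * f x) = 2 * (1 + 2 / (p - 1)) * F x) ∧
      (∀ c, 0 < c → ∀ β, 0 < β * (f β - c * β) → ∃ μ : ℝ, 0 < μ ∧
        ∀ x, β * β ≤ β * x → μ * (β * x) ^ 3 ≤ β * (f x - c * x)) := by
  have hfe : f = fun x => x ^ 4 := funext hf
  refine ⟨fun x => x ^ 5 / 5, fun x => 4 * x ^ 3, ?_, ?_, ?_, ?_, ?_, ?_⟩
  · intro x
    refine (((hasDerivAt_id x).pow 5).div_const 5).congr_deriv ?_
    rw [hf x]; simp
  · intro x
    rw [hfe]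
    refine ((hasDerivAt_id x).pow 4).congr_deriv ?_
    simp
  · fun_prop
  · rw [hf]; norm_num
  · intro x
    rw [hf x, hp]
    norm_num
    ring
  · intro c hc β hβ
    rw [hf] at hβ
    have hβ0 : β ≠ 0 := by
      intro h; rw [h] at hβ; simp at hβ
    have hβ2 : 0 < β * β := mul_self_pos.2 hβ0
    have e1 : β * (β ^ 4 - c * β) = (β * β) * (β ^ 3 - c) := by ring
    rw [e1] at hβ
    have h1 : 0 < β ^ 3 - c := (pos_iff_pos_of_mul_pos hβ).1 hβ2
    have hβpos : 0 < β := by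
      by_contra hcon
      push Not at hcon
      have : β ^ 3 ≤ 0 := by
        have : β ^ 3 = β * (β * β) := by ring
        rw [this]
        exact mul_nonpos_of_nonpos_of_nonneg hcon hβ2.le
      linarith
    refine ⟨(β ^ 3 - c) / β ^ 4, by positivity, ?_⟩
    intro x hx
    rw [hf]
    have e2 : β * (x ^ 4 - c * x) = (β * x) * (x ^ 3 - c) := by ring
    rw [e2]
    have hle : β ≤ x := le_of_mul_le_mul_left hx hβpos
    set t : ℝ := x / β with ht
    have ht1 : 1 ≤ t := by rw [ht, le_div_iff₀ hβpos, one_mul]; exact hle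
    have hxt : x = β * t := by rw [ht]; field_simp
    have h2 : (β ^ 3 - c) * t ^ 2 ≤ x ^ 3 - c := by
      have ht2 : t ^ 2 ≤ t ^ 3 := by
        have : t ^ 3 = t ^ 2 * t := by ring
        nlinarith [sq_nonneg t]
      have h4 := mul_le_mul_of_nonneg_left ht2 (by positivity : (0 : ℝ) ≤ β ^ 3)
      have h5 : c * 1 ≤ c * t ^ 2 := by
        apply mul_le_mul_of_nonneg_left _ hc.le
        nlinarith
      have h6 : x ^ 3 = β ^ 3 * t ^ 3 := by rw [hxt]; ring
      rw [h6]
      linarith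
    have hβx : 0 < β * x := lt_of_lt_of_le hβ2 hx
    have h6 : (β ^ 3 - c) / β ^ 4 * (β * x) ^ 3
        = (β * x) * ((β ^ 3 - c) * t ^ 2) := by
      rw [ht]
      field_simp
    rw [h6]
    exact mul_le_mul_of_nonneg_left h2 hβx.le

end Pool.Agent.H498R3.NLW
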