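import Pool.Agent.H498R3.GBDeriv

/-!
Geodesics, Hessians, strictly convex functions for Riemannian metrics given in coordinates on
`ℝ^n`; conformally flat metrics.
-/

namespace Pool.Agent.H498R3.NT

open Pool.Agent.H498R3.GB
open scoped BigOperators ContDiff Topology InnerProductSpace
open Filter Metric

noncomputable section

variable {n : ℕ}

/-- Christoffel symbols `Γ^k_ij = g^{km} Γ_{m,ij}` of the metric `g`. -/
def christoffel (g : MetricField n) (x : E n) (k i j : Fin n) : ℝ :=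
  ∑ m, ginv g x k m * Gam g x m i j

/-- The Riemannian Hessian as a quadratic form:
`∇²f (v, v) = (∂_i ∂_j f - Γ^k_ij ∂_k f) v^i v^j` at the point `x`. -/
def hessForm (g : MetricField n) (f : E n → ℝ) (x v : E n) : ℝ :=
  ∑ i, ∑ j, (pd i (pd j f) x - ∑ k, christoffel g x k i j * pd k f x) * v i * v j

/-- `γ` is a unit-speed geodesic of `g` on the interval `(a, b)`: it is twice continuously
differentiable, `g(γ', γ') = 1` and `γ''^k + Γ^k_ij γ'^i γ'^j = 0`. -/
structure IsUnitSpeedGeodesic (g : MetricField n) (γ : ℝ → E n) (a b : ℝ) : Prop where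
  smooth : ContDiffOn ℝ 2 γ (Set.Ioo a b)
  unit : ∀ t ∈ Set.Ioo a b, ∑ i, ∑ j, g (γ t) i j * deriv γ t i * deriv γ t j = 1
  geod : ∀ t ∈ Set.Ioo a b, ∀ k : Fin n, deriv (deriv γ) t k
    + ∑ i, ∑ j, christoffel g (γ t) k i j * deriv γ t i * deriv γ t j = 0

/-- The boundary sphere of `M = {|x| ≤ R}` is strictly convex with respect to `g`: the Hessian of
the boundary defining function `|x|²` is positive on nonzero tangent vectors of the sphere. (The
second fundamental form with respect to the inward unit normal is this Hessian divided by the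
positive number `|∇_g |x|²|_g`.) -/
def StrictlyConvexSphere (g : MetricField n) (R : ℝ) : Prop :=
  ∀ x : E n, ‖x‖ = R → ∀ v : E n, v ≠ 0 → ⟪x, v⟫_ℝ = 0 →
    0 < hessForm g (fun z => ‖z‖ ^ 2) x v

/-- The ball `M = {|x| ≤ R}` with the metric `g` is nontrapping: its boundary is strictly convex
and there is a bound `T` for the length of the geodesics which stay in `M`. -/
def NontrappingBall (g : MetricField n) (R : ℝ) : Prop :=
  StrictlyConvexSphere g R ∧
  ∃ T : ℝ, ∀ (γ : ℝ → E n) (a b : ℝ), IsUnitSpeedGeodesic g γ a b →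
    (∀ t ∈ Set.Ioo a b, γ t ∈ closedBall (0 : E n) R) → b - a ≤ T

/-- The conformally flat metric `e^{2φ} |dx|²`. -/
def conf (φ : E n → ℝ) : MetricField n := fun x => Real.exp (2 * φ x) • (1 : Matrix _ _ ℝ)

/-- the Euclidean gradient -/
def gr (φ : E n → ℝ) (x : E n) : E n := (InnerProductSpace.toDual ℝ (E n)).symm (fderiv ℝ φ x)

lemma inner_gr (φ : E n → ℝ) (x v : E n) : ⟪gr φ x, v⟫_ℝ = fderiv ℝ φ x v :=
  InnerProductSpace.toDual_symm_apply

lemma gr_apply (φ : E n → ℝ) (x : E n) (k : Fin n) : gr φ x k = pd k φ x := by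
  unfold pd
  rw [← inner_gr, EuclideanSpace.inner_single_right]
  simp

lemma norm_gr_le {φ : E n → ℝ} {x : E n} {C : ℝ} (h : ∀ v, |fderiv ℝ φ x v| ≤ C * ‖v‖)
    (hC : 0 ≤ C) : ‖gr φ x‖ ≤ C := by
  unfold gr
  rw [LinearIsometryEquiv.norm_map]
  exact ContinuousLinearMap.opNorm_le_bound _ hC h

lemma sum_pd_mul (φ : E n → ℝ) (x v : E n) : ∑ k, pd k φ x * v k = fderiv ℝ φ x v := by
  rw [← inner_gr, PiLp.inner_apply]
  refine Finset.sum_congr rfl fun k _ => ?_
  simp [gr_apply, mul_comm]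

lemma conf_riem {φ : E n → ℝ} (hφ : ContDiff ℝ ∞ φ) : IsRiemannianOn (conf φ) Set.univ := by
  refine ⟨fun i j => ?_, fun x _ => ?_⟩
  · unfold conf
    simp only [Matrix.smul_apply, smul_eq_mul]
    exact ((Real.contDiff_exp.comp (contDiff_const.mul hφ)).mul contDiff_const).contDiffOn
  · unfold conf
    exact Matrix.PosDef.one.smul (Real.exp_pos _)

lemma pd_conf {φ : E n → ℝ} {x : E n} (hφ : DifferentiableAt ℝ φ x) (k i j : Fin n) :
    pd k (fun z => conf φ z i j) x
      = 2 * pd k φ x * Real.exp (2 * φ x) * (1 : Matrix (Fin n) (Fin n) ℝ) i j := by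
  have h1 : HasFDerivAt (fun z => Real.exp (2 * φ z))
      (Real.exp (2 * φ x) • ((2 : ℝ) • fderiv ℝ φ x)) x :=
    ((hφ.hasFDerivAt).const_mul 2).exp
  have h2 : HasFDerivAt (fun z => conf φ z i j)
      ((1 : Matrix (Fin n) (Fin n) ℝ) i j • (Real.exp (2 * φ x) • ((2 : ℝ) • fderiv ℝ φ x))) x := by
    unfold conf
    simp only [Matrix.smul_apply, smul_eq_mul]
    exact h1.mul_const _
  rw [pd_of_hasFDerivAt h2]
  unfold pd
  simp
  ring

lemma ginv_conf (φ : E n → ℝ) (x : E n) :
    ginv (conf φ) x = (Real.exp (2 * φ x))⁻¹ • (1 : Matrix _ _ ℝ) := by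
  unfold ginv conf
  refine Matrix.inv_eq_left_inv ?_
  rw [Matrix.smul_mul, Matrix.mul_smul, smul_smul, inv_mul_cancel₀ (Real.exp_pos _).ne']
  simp

lemma christoffel_conf {φ : E n → ℝ} {x : E n} (hφ : DifferentiableAt ℝ φ x) (k i j : Fin n) :
    christoffel (conf φ) x k i j
      = pd i φ x * (1 : Matrix (Fin n) (Fin n) ℝ) k j + pd j φ x * (1 : Matrix (Fin n) (Fin n) ℝ) k i
        - pd k φ x * (1 : Matrix (Fin n) (Fin n) ℝ) i j := by
  have he := (Real.exp_pos (2 * φ x)).ne'
  unfold christoffel Gam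
  simp only [pd_conf hφ, ginv_conf, Matrix.smul_apply, smul_eq_mul]
  rw [Finset.sum_eq_single k]
  · simp only [Matrix.one_apply_eq, mul_one]
    field_simp
  · intro m _ hm
    simp [Matrix.one_apply, hm.symm]
  · intro h; exact absurd (Finset.mem_univ _) h

lemma christoffel_conf_quad {φ : E n → ℝ} {x : E n} (hφ : DifferentiableAt ℝ φ x) (k : Fin n)
    (v : E n) :
    ∑ i, ∑ j, christoffel (conf φ) x k i j * v i * v j
      = 2 * fderiv ℝ φ x v * v k - ‖v‖ ^ 2 * pd k φ x := by
  simp only [christoffel_conf hφ]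
  have e : ∀ i j, (pd i φ x * (1 : Matrix (Fin n) (Fin n) ℝ) k j
      + pd j φ x * (1 : Matrix (Fin n) (Fin n) ℝ) k i
      - pd k φ x * (1 : Matrix (Fin n) (Fin n) ℝ) i j) * v i * v j
      = (pd i φ x * v i) * ((1 : Matrix (Fin n) (Fin n) ℝ) k j * v j)
        + ((1 : Matrix (Fin n) (Fin n) ℝ) k i * v i) * (pd j φ x * v j)
        - pd k φ x * ((1 : Matrix (Fin n) (Fin n) ℝ) i j * (v i * v j)) := by
    intro i j; ring
  simp only [e, Finset.sum_sub_distrib, Finset.sum_add_distrib]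
  simp only [← Finset.mul_sum, ← Finset.sum_mul, sum_pd_mul]
  have h1 : ∑ i, (1 : Matrix (Fin n) (Fin n) ℝ) k i * v i = v k := by
    simp [Matrix.one_apply]
  have h2 : ∑ i, ∑ j, (1 : Matrix (Fin n) (Fin n) ℝ) i j * (v i * v j) = ‖v‖ ^ 2 := by
    rw [EuclideanSpace.norm_sq_eq]
    refine Finset.sum_congr rfl fun i _ => ?_
    simp [Matrix.one_apply, sq]
  rw [h1, h2]
  ring

lemma hessForm_conf {φ f : E n → ℝ} {x : E n} (hφ : DifferentiableAt ℝ φ x) (v : E n) :
    hessForm (conf φ) f x v = (∑ i, ∑ j, pd i (pd j f) x * v i * v j)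
      - 2 * fderiv ℝ φ x v * fderiv ℝ f x v + ‖v‖ ^ 2 * fderiv ℝ f x (gr φ x) := by
  have h1 : hessForm (conf φ) f x v = (∑ i, ∑ j, pd i (pd j f) x * v i * v j)
      - ∑ k, pd k f x * ∑ i, ∑ j, christoffel (conf φ) x k i j * v i * v j := by
    unfold hessForm
    have e : ∀ i j, (pd i (pd j f) x - ∑ k, christoffel (conf φ) x k i j * pd k f x) * v i * v j
        = pd i (pd j f) x * v i * v j
          - ∑ k, pd k f x * (christoffel (conf φ) x k i j * v i * v j) := by
      intro i j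
      rw [sub_mul, sub_mul, Finset.sum_mul, Finset.sum_mul]
      congr 1
      exact Finset.sum_congr rfl fun k _ => by ring
    simp only [e, Finset.sum_sub_distrib]
    congr 1
    simp only [Finset.mul_sum]
    rw [Finset.sum_comm]
    have : ∀ j, ∑ i, ∑ k, pd k f x * (christoffel (conf φ) x k i j * v i * v j)
        = ∑ k, ∑ i, pd k f x * (christoffel (conf φ) x k i j * v i * v j) :=
      fun j => Finset.sum_comm
    simp only [this]
    rw [Finset.sum_comm]
    refine Finset.sum_congr rfl fun k _ => ?_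
    rw [Finset.sum_comm]
  rw [h1]
  simp only [christoffel_conf_quad hφ]
  have h2 : ∑ k, pd k f x * (2 * fderiv ℝ φ x v * v k - ‖v‖ ^ 2 * pd k φ x)
      = 2 * fderiv ℝ φ x v * fderiv ℝ f x v - ‖v‖ ^ 2 * fderiv ℝ f x (gr φ x) := by
    rw [← sum_pd_mul f x v, ← sum_pd_mul f x (gr φ x), Finset.mul_sum, Finset.mul_sum,
      ← Finset.sum_sub_distrib]
    refine Finset.sum_congr rfl fun k _ => ?_
    rw [gr_apply]; ring
  rw [h2]; ring

lemma conf_quad (φ : E n → ℝ) (x v : E n) :
    ∑ i, ∑ j, conf φ x i j * v i * v j = Real.exp (2 * φ x) * ‖v‖ ^ 2 := by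
  unfold conf
  rw [EuclideanSpace.norm_sq_eq, Finset.mul_sum]
  refine Finset.sum_congr rfl fun i _ => ?_
  simp [Matrix.one_apply, sq, mul_assoc]

/-- second derivatives -/
lemma sum_pd_pd {f : E n → ℝ} {x : E n} (hf : ContDiffAt ℝ 2 f x) (v : E n) :
    ∑ i, ∑ j, pd i (pd j f) x * v i * v j = fderiv ℝ (fderiv ℝ f) x v v := by
  have hd : DifferentiableAt ℝ (fderiv ℝ f) x :=
    (hf.fderiv_right (m := 1) (by norm_num)).differentiableAt (by simp)
  have e : ∀ i j : Fin n, pd i (pd j f) x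
      = fderiv ℝ (fderiv ℝ f) x (EuclideanSpace.single i 1) (EuclideanSpace.single j 1) := by
    intro i j
    unfold pd
    rw [fderiv_clm_apply hd (differentiableAt_const _)]
    simp
  have hv : v = ∑ i, v i • (EuclideanSpace.single i (1 : ℝ) : E n) := by
    ext j
    simp [Finset.sum_apply, Pi.single_apply]
  conv_rhs => rw [hv]
  simp only [map_sum, map_smul, _root_.sum_apply, _root_.smul_apply,
    smul_eq_mul, e, Finset.mul_sum]
  rw [Finset.sum_comm]
  refine Finset.sum_congr rfl fun i _ => Finset.sum_congr rfl fun j _ => ?_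
  ring

end

end Pool.Agent.H498R3.NT
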