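import Pool.Agent.H498R3.NTPot

/-!
Estimates for the geodesics of `e^{2φ} |dx|²`.
-/

namespace Pool.Agent.H498R3.NT

open Pool.Agent.H498R3.GB
open scoped BigOperators ContDiff Topology InnerProductSpace
open Filter Metric

noncomputable section

variable {n : ℕ}

lemma taylor_le {γ v w : ℝ → E n} {a b C : ℝ} (h1 : ∀ t ∈ Set.Ioo a b, HasDerivAt γ (v t) t)
    (h2 : ∀ t ∈ Set.Ioo a b, HasDerivAt v (w t) t) (h3 : ∀ t ∈ Set.Ioo a b, ‖w t‖ ≤ C)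
    (hC : 0 ≤ C) {t t' : ℝ} (ht : t ∈ Set.Ioo a b) (ht' : t' ∈ Set.Ioo a b) :
    ‖γ t' - γ t - (t' - t) • v t‖ ≤ C * (t' - t) ^ 2 := by
  have hsub : Set.uIcc t t' ⊆ Set.Ioo a b := (Set.ordConnected_Ioo).uIcc_subset ht ht'
  have hv : ∀ u ∈ Set.uIcc t t', ‖v u - v t‖ ≤ C * |t' - t| := by
    intro u hu
    have h4 := (convex_Ioo a b).norm_image_sub_le_of_norm_hasDerivWithin_le (f := v) (f' := w)
      (fun x hx => (h2 x hx).hasDerivWithinAt) h3 ht (hsub hu)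
    refine h4.trans ?_
    rw [Real.norm_eq_abs]
    have h5 : |u - t| ≤ |t' - t| := by
      have := Set.abs_sub_left_of_mem_uIcc hu
      exact this
    gcongr
  have h6 := (convex_uIcc t t').norm_image_sub_le_of_norm_hasDerivWithin_le
    (f := fun u => γ u - (u - t) • v t) (f' := fun u => v u - v t) (C := C * |t' - t|)
    (fun u hu => by
      have a1 := h1 u (hsub hu)
      have a2 : HasDerivAt (fun u : ℝ => (u - t) • v t) ((1 : ℝ) • v t) u :=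
        ((hasDerivAt_id u).sub_const t).smul_const (v t)
      rw [one_smul] at a2
      exact (a1.sub a2).hasDerivWithinAt)
    hv Set.left_mem_uIcc Set.right_mem_uIcc
  simp only [sub_self, zero_smul, sub_zero] at h6
  have e : γ t' - (t' - t) • v t - γ t = γ t' - γ t - (t' - t) • v t := by abel
  rw [e] at h6
  refine h6.trans (le_of_eq ?_)
  rw [Real.norm_eq_abs, mul_assoc, ← sq, sq_abs]

section Geod

variable {φ : E n → ℝ} {γ : ℝ → E n} {a b : ℝ}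

lemma geod_d1 (hγ : IsUnitSpeedGeodesic (conf φ) γ a b) {t : ℝ} (ht : t ∈ Set.Ioo a b) :
    HasDerivAt γ (deriv γ t) t :=
  ((hγ.smooth.contDiffAt (isOpen_Ioo.mem_nhds ht)).differentiableAt (by simp)).hasDerivAt

lemma geod_d2 (hγ : IsUnitSpeedGeodesic (conf φ) γ a b) {t : ℝ} (ht : t ∈ Set.Ioo a b) :
    HasDerivAt (deriv γ) (deriv (deriv γ) t) t := by
  have h : ContDiffAt ℝ 1 (deriv γ) t :=
    (hγ.smooth.contDiffAt (isOpen_Ioo.mem_nhds ht)).derivWithin (by norm_num)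
  exact (h.differentiableAt (by simp)).hasDerivAt

lemma geod_speed (hγ : IsUnitSpeedGeodesic (conf φ) γ a b) {t : ℝ} (ht : t ∈ Set.Ioo a b) :
    Real.exp (2 * φ (γ t)) * ‖deriv γ t‖ ^ 2 = 1 := by
  rw [← conf_quad]; exact hγ.unit t ht

lemma geod_norm (hγ : IsUnitSpeedGeodesic (conf φ) γ a b) {t : ℝ} (ht : t ∈ Set.Ioo a b) :
    ‖deriv γ t‖ = Real.exp (-φ (γ t)) := by
  have h := geod_speed hγ ht
  have h1 : (Real.exp (φ (γ t)) * ‖deriv γ t‖) ^ 2 = 1 := by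
    rw [mul_pow, ← Real.exp_nat_mul]; push_cast; exact h
  have h2 : Real.exp (φ (γ t)) * ‖deriv γ t‖ = 1 := by
    have h3 : 0 ≤ Real.exp (φ (γ t)) * ‖deriv γ t‖ := by positivity
    nlinarith
  rw [Real.exp_neg]
  exact eq_inv_of_mul_eq_one_right h2

lemma geod_acc (hφ : ContDiff ℝ ∞ φ) (hγ : IsUnitSpeedGeodesic (conf φ) γ a b) {t : ℝ}
    (ht : t ∈ Set.Ioo a b) :
    deriv (deriv γ) t = -(2 * fderiv ℝ φ (γ t) (deriv γ t)) • deriv γ t
      + ‖deriv γ t‖ ^ 2 • gr φ (γ t) := by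
  ext k
  have h1 := hγ.geod t ht k
  rw [christoffel_conf_quad ((hφ.differentiable (by simp)) _)] at h1
  simp only [PiLp.add_apply, PiLp.smul_apply, smul_eq_mul, gr_apply]
  linarith

/-- `p = 2 ⟨γ, γ'⟩_g` -/
def pf (φ : E n → ℝ) (γ : ℝ → E n) (t : ℝ) : ℝ :=
  2 * (Real.exp (2 * φ (γ t)) * ⟪γ t, deriv γ t⟫_ℝ)

lemma pf_hasDerivAt (hφ : ContDiff ℝ ∞ φ) (hγ : IsUnitSpeedGeodesic (conf φ) γ a b) {t : ℝ}
    (ht : t ∈ Set.Ioo a b) :
    HasDerivAt (pf φ γ) (2 * (1 + fderiv ℝ φ (γ t) (γ t))) t := by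
  have h1 := geod_d1 hγ ht
  have h2 := geod_d2 hγ ht
  have h3 : HasDerivAt (fun u => φ (γ u)) (fderiv ℝ φ (γ t) (deriv γ t)) t :=
    (((hφ.differentiable (by simp)) (γ t)).hasFDerivAt).comp_hasDerivAt t h1
  have h4 : HasDerivAt (fun u => Real.exp (2 * φ (γ u)))
      (Real.exp (2 * φ (γ t)) * (2 * fderiv ℝ φ (γ t) (deriv γ t))) t := (h3.const_mul 2).exp
  have h5 := h1.inner ℝ h2
  have h6 := (h4.mul h5).const_mul 2
  refine h6.congr_deriv ?_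
  rw [geod_acc hφ hγ ht, inner_add_right, inner_smul_right, inner_smul_right,
    real_inner_self_eq_norm_sq, real_inner_comm (gr φ (γ t)) (γ t), inner_gr]
  have h7 := geod_speed hγ ht
  have h8 : 2 * (1 + fderiv ℝ φ (γ t) (γ t))
      = 2 * (Real.exp (2 * φ (γ t)) * ‖deriv γ t‖ ^ 2) * (1 + fderiv ℝ φ (γ t) (γ t)) := by
    rw [h7]; ring
  rw [h8]
  ring

end Geod

section Good

variable {G φ : E n → ℝ} {C ε : ℝ} {γ : ℝ → E n} {a b : ℝ}

lemma good_speed_le (h : GoodPot G C ε φ) (hε : ε ≤ 1 / 2)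
    (hγ : IsUnitSpeedGeodesic (conf φ) γ a b) {t : ℝ} (ht : t ∈ Set.Ioo a b) :
    ‖deriv γ t‖ ≤ 2 := by
  rw [geod_norm hγ ht]
  have h1 := (abs_le.1 (h.small (γ t))).1
  have h2 : Real.exp (-φ (γ t)) ≤ Real.exp (1 / 2) := Real.exp_le_exp.2 (by linarith)
  refine h2.trans ?_
  have h3 : Real.exp (1 / 2) ^ 2 = Real.exp 1 := by
    rw [← Real.exp_nat_mul]; norm_num
  have h4 := Real.exp_one_lt_d9
  have h5 := Real.exp_pos (1 / 2)
  nlinarith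

lemma good_acc_le (h : GoodPot G C ε φ) (hC : 0 ≤ C) (hε : ε ≤ 1 / 2)
    (hγ : IsUnitSpeedGeodesic (conf φ) γ a b)
    (hM : ∀ t ∈ Set.Ioo a b, γ t ∈ closedBall (0 : E n) 2) {t : ℝ} (ht : t ∈ Set.Ioo a b) :
    ‖deriv (deriv γ) t‖ ≤ 12 * C := by
  have hs := good_speed_le h hε hγ ht
  rw [geod_acc h.smooth hγ ht]
  have h1 := h.grad_le (γ t) (hM t ht) (deriv γ t)
  have h2 := norm_gr_le (h.grad_le (γ t) (hM t ht)) hC
  have h0 := norm_nonneg (deriv γ t)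
  refine (norm_add_le _ _).trans ?_
  rw [norm_smul, norm_smul, Real.norm_eq_abs, Real.norm_eq_abs, abs_neg, abs_mul, abs_pow,
    abs_norm, abs_two]
  have h3 : 2 * |fderiv ℝ φ (γ t) (deriv γ t)| * ‖deriv γ t‖ ≤ 2 * (C * 2) * 2 := by
    have : |fderiv ℝ φ (γ t) (deriv γ t)| ≤ C * 2 := h1.trans (by gcongr)
    gcongr
  have h4 : ‖deriv γ t‖ ^ 2 * ‖gr φ (γ t)‖ ≤ 2 ^ 2 * C := by
    gcongr
  linarith

lemma good_pf_le (h : GoodPot G C ε φ) (hε : ε ≤ 1 / 2)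
    (hγ : IsUnitSpeedGeodesic (conf φ) γ a b)
    (hM : ∀ t ∈ Set.Ioo a b, γ t ∈ closedBall (0 : E n) 2) {t : ℝ} (ht : t ∈ Set.Ioo a b) :
    |pf φ γ t| ≤ 24 := by
  unfold pf
  rw [abs_mul, abs_mul, abs_two, abs_of_pos (Real.exp_pos _)]
  have h1 := abs_real_inner_le_norm (γ t) (deriv γ t)
  have h2 := good_speed_le h hε hγ ht
  have h3 : ‖γ t‖ ≤ 2 := by simpa using hM t ht
  have h4 : Real.exp (2 * φ (γ t)) ≤ 3 := by
    have h5 := (abs_le.1 (h.small (γ t))).2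
    have h6 : Real.exp (2 * φ (γ t)) ≤ Real.exp 1 := Real.exp_le_exp.2 (by linarith)
    have h7 := Real.exp_one_lt_d9
    linarith
  have h8 : |⟪γ t, deriv γ t⟫_ℝ| ≤ 2 * 2 := h1.trans (by gcongr)
  have h9 : Real.exp (2 * φ (γ t)) * |⟪γ t, deriv γ t⟫_ℝ| ≤ 3 * (2 * 2) := by gcongr
  linarith

/-- lower bound for the increase of `p` -/
lemma good_pf_incr (h : GoodPot G C ε φ)
    (hγ : IsUnitSpeedGeodesic (conf φ) γ a b) {t1 t2 c : ℝ} (ht1 : t1 ∈ Set.Ioo a b)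
    (ht2 : t2 ∈ Set.Ioo a b) (h12 : t1 ≤ t2)
    (hc : ∀ t ∈ Set.Ioo t1 t2, c ≤ fderiv ℝ φ (γ t) (γ t)) :
    2 * (1 + c) * (t2 - t1) ≤ pf φ γ t2 - pf φ γ t1 := by
  have hsub : Set.Icc t1 t2 ⊆ Set.Ioo a b := (Set.ordConnected_Ioo).out ht1 ht2
  have hd : ∀ t ∈ Set.Icc t1 t2, HasDerivAt (pf φ γ) (2 * (1 + fderiv ℝ φ (γ t) (γ t))) t :=
    fun t ht => pf_hasDerivAt h.smooth hγ (hsub ht)
  refine (convex_Icc t1 t2).mul_sub_le_image_sub_of_le_deriv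
    (fun t ht => (hd t ht).continuousAt.continuousWithinAt)
    (fun t ht => (hd t (interior_subset ht)).differentiableAt.differentiableWithinAt)
    (fun t ht => ?_) t1 (Set.left_mem_Icc.2 h12) t2 (Set.right_mem_Icc.2 h12) h12
  rw [interior_Icc] at ht
  rw [(hd t (Set.Ioo_subset_Icc_self ht)).deriv]
  have := hc t ht
  linarith

end Good

end

end Pool.Agent.H498R3.NT
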