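import Pool.Agent.H498R3.NTTrap

/-!
The guide: three half great circles from the north pole to the south pole, at angles of 120°.
-/

namespace Pool.Agent.H498R3.NT

open Pool.Agent.H498R3.GB
open scoped BigOperators ContDiff Topology InnerProductSpace
open Filter Metric

noncomputable section

variable {m : ℕ}

/-- the remaining coordinates -/
def rest (x : E (m + 3)) : ℝ := ∑ i : Fin m, x i.succ.succ.succ ^ 2

/-- real part of `(x₀ + i x₁)³` -/
def re3 (p q : ℝ) : ℝ := p ^ 3 - 3 * p * q ^ 2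

/-- imaginary part of `(x₀ + i x₁)³` -/
def im3 (p q : ℝ) : ℝ := 3 * p ^ 2 * q - q ^ 3

lemma re3_sq_add_im3_sq (p q : ℝ) : re3 p q ^ 2 + im3 p q ^ 2 = (p ^ 2 + q ^ 2) ^ 3 := by
  unfold re3 im3; ring

/-- the function vanishing exactly where `(x₀ + i x₁)³ ≥ 0` and the coordinates `x_i`, `i ≥ 3`,
vanish -/
def GG (x : E (m + 3)) : ℝ :=
  im3 (x 0) (x 1) ^ 2 + expNegInvGlue (-re3 (x 0) (x 1)) + rest x

lemma rest_nonneg (x : E (m + 3)) : 0 ≤ rest x := Finset.sum_nonneg fun _ _ => sq_nonneg _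

lemma GG_nonneg (x : E (m + 3)) : 0 ≤ GG x := by
  unfold GG
  have := rest_nonneg x
  have := expNegInvGlue.nonneg (-re3 (x 0) (x 1))
  positivity

lemma GG_contDiff : ContDiff ℝ ∞ (GG : E (m + 3) → ℝ) := by
  have hc := fun j => contDiff_coord (n := m + 3) j
  have h1 : ContDiff ℝ ∞ (fun x : E (m + 3) => im3 (x 0) (x 1)) := by
    unfold im3
    exact ((contDiff_const.mul ((hc 0).pow 2)).mul (hc 1)).sub ((hc 1).pow 3)
  have h2 : ContDiff ℝ ∞ (fun x : E (m + 3) => re3 (x 0) (x 1)) := by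
    unfold re3
    exact ((hc 0).pow 3).sub ((contDiff_const.mul (hc 0)).mul ((hc 1).pow 2))
  unfold GG rest
  exact ((h1.pow 2).add ((expNegInvGlue.contDiff (n := ⊤)).comp h2.neg)).add
    (ContDiff.sum fun i _ => (hc _).pow 2)

lemma norm_sq_split (x : E (m + 3)) : ‖x‖ ^ 2 = x 0 ^ 2 + x 1 ^ 2 + x 2 ^ 2 + rest x := by
  rw [EuclideanSpace.norm_sq_eq]
  simp only [Real.norm_eq_abs, sq_abs]
  rw [Fin.sum_univ_succ, Fin.sum_univ_succ, Fin.sum_univ_succ]
  unfold rest
  have e1 : (Fin.succ (0 : Fin (m + 2))) = (1 : Fin (m + 3)) := rfl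
  have e2 : (Fin.succ (Fin.succ (0 : Fin (m + 1)))) = (2 : Fin (m + 3)) := rfl
  rw [e1, e2]
  ring

lemma GG_eq_zero {x : E (m + 3)} (h : GG x = 0) :
    im3 (x 0) (x 1) = 0 ∧ 0 ≤ re3 (x 0) (x 1) ∧ rest x = 0 := by
  unfold GG at h
  have h1 := rest_nonneg x
  have h2 := expNegInvGlue.nonneg (-re3 (x 0) (x 1))
  have h3 := sq_nonneg (im3 (x 0) (x 1))
  refine ⟨?_, ?_, by linarith⟩
  · exact pow_eq_zero_iff (two_ne_zero) |>.1 (by linarith)
  · have h4 : expNegInvGlue (-re3 (x 0) (x 1)) = 0 := by linarith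
    rw [expNegInvGlue.zero_iff_nonpos] at h4
    linarith

lemma rest_coord {x : E (m + 3)} (h : rest x = 0) (i : Fin m) : x i.succ.succ.succ = 0 := by
  unfold rest at h
  rw [Finset.sum_eq_zero_iff_of_nonneg fun _ _ => sq_nonneg _] at h
  exact pow_eq_zero_iff (two_ne_zero) |>.1 (h i (Finset.mem_univ _))

lemma hasDerivAt_coord {x : ℝ → E (m + 3)} {v : E (m + 3)} {t : ℝ} (h : HasDerivAt x v t)
    (j : Fin (m + 3)) : HasDerivAt (fun s => x s j) (v j) t :=
  ((EuclideanSpace.proj (𝕜 := ℝ) j : E (m + 3) →L[ℝ] ℝ).hasFDerivAt).comp_hasDerivAt t h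

theorem noCurve_GG : NoCurve (GG : E (m + 3) → ℝ) := by
  intro K x v hK hv hx
  have hd : ∀ t ∈ Set.Ioo (0 : ℝ) 4, HasDerivAt x (v t) t := by
    intro t ht
    rw [hasDerivAt_iff_isLittleO]
    have h1 : (fun t' => x t' - x t - (t' - t) • v t) =O[𝓝 t] fun t' => (t' - t) ^ 2 := by
      refine Asymptotics.IsBigO.of_bound |K| ?_
      filter_upwards [isOpen_Ioo.mem_nhds ht] with t' ht'
      refine (hK t (Set.Ioo_subset_Icc_self ht) t' (Set.Ioo_subset_Icc_self ht')).trans ?_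
      rw [Real.norm_eq_abs, abs_pow, sq_abs]
      exact mul_le_mul_of_nonneg_right (le_abs_self K) (sq_nonneg _)
    refine h1.trans_isLittleO ?_
    have h2 : (fun t' : ℝ => (t' - t) ^ 2) = fun t' => (t' - t) * (t' - t) := by
      funext t'; ring
    rw [h2]
    have h3 : (fun t' : ℝ => t' - t) =o[𝓝 t] fun _ => (1 : ℝ) := by
      rw [Asymptotics.isLittleO_one_iff]
      have : Tendsto (fun t' : ℝ => t' - t) (𝓝 t) (𝓝 (t - t)) :=
        (continuous_id.sub continuous_const).tendsto t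
      simpa using this
    simpa using h3.mul_isBigO (Asymptotics.isBigO_refl (fun t' : ℝ => t' - t) (𝓝 t))
  have hfacts : ∀ t ∈ Set.Ioo (0 : ℝ) 4,
      im3 (x t 0) (x t 1) = 0 ∧ 0 ≤ re3 (x t 0) (x t 1) ∧ rest (x t) = 0 := fun t ht =>
    GG_eq_zero (hx t ht).2
  have hsph : ∀ t ∈ Set.Ioo (0 : ℝ) 4, x t 0 ^ 2 + x t 1 ^ 2 + x t 2 ^ 2 = 1 := by
    intro t ht
    have h1 := norm_sq_split (x t)
    rw [(hx t ht).1, (hfacts t ht).2.2] at h1
    linarith
  have hc := fun (t : ℝ) (ht : t ∈ Set.Ioo (0 : ℝ) 4) (j : Fin (m + 3)) =>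
    hasDerivAt_coord (hd t ht) j
  have hvrest : ∀ t ∈ Set.Ioo (0 : ℝ) 4, rest (v t) = 0 := by
    intro t ht
    unfold rest
    refine Finset.sum_eq_zero fun i _ => ?_
    have h1 : HasDerivAt (fun s => x s i.succ.succ.succ) 0 t := by
      refine (hasDerivAt_const t (0 : ℝ)).congr_of_eventuallyEq ?_
      filter_upwards [isOpen_Ioo.mem_nhds ht] with s hs
      exact rest_coord (hfacts s hs).2.2 i
    rw [(hc t ht _).unique h1]; ring
  have hvsph : ∀ t ∈ Set.Ioo (0 : ℝ) 4, v t 0 ^ 2 + v t 1 ^ 2 + v t 2 ^ 2 = 1 := by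
    intro t ht
    have h1 := norm_sq_split (v t)
    rw [hv t (Set.Ioo_subset_Icc_self ht), hvrest t ht] at h1
    linarith
  -- derivative of `|x|² = 1`
  have hD : ∀ t ∈ Set.Ioo (0 : ℝ) 4, x t 0 * v t 0 + x t 1 * v t 1 + x t 2 * v t 2 = 0 := by
    intro t ht
    have h1 : HasDerivAt (fun s => x s 0 ^ 2 + x s 1 ^ 2 + x s 2 ^ 2)
        (2 * x t 0 * v t 0 + 2 * x t 1 * v t 1 + 2 * x t 2 * v t 2) t := by
      have := (((hc t ht 0).fun_pow 2).fun_add ((hc t ht 1).fun_pow 2)).fun_add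
        ((hc t ht 2).fun_pow 2)
      refine this.congr_deriv ?_
      push_cast; ring
    have h2 : HasDerivAt (fun s => x s 0 ^ 2 + x s 1 ^ 2 + x s 2 ^ 2) 0 t := by
      refine (hasDerivAt_const t (1 : ℝ)).congr_of_eventuallyEq ?_
      filter_upwards [isOpen_Ioo.mem_nhds ht] with s hs
      exact hsph s hs
    have := h1.unique h2
    linarith
  -- derivative of `Im w³ = 0`
  have hI : ∀ t ∈ Set.Ioo (0 : ℝ) 4,
      2 * x t 0 * x t 1 * v t 0 + (x t 0 ^ 2 - x t 1 ^ 2) * v t 1 = 0 := by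
    intro t ht
    have h1 : HasDerivAt (fun s => im3 (x s 0) (x s 1))
        (3 * (2 * x t 0 * x t 1 * v t 0 + (x t 0 ^ 2 - x t 1 ^ 2) * v t 1)) t := by
      unfold im3
      have := ((((hc t ht 0).fun_pow 2).const_mul 3).fun_mul (hc t ht 1)).fun_sub
        ((hc t ht 1).fun_pow 3)
      refine this.congr_deriv ?_
      push_cast; ring
    have h2 : HasDerivAt (fun s => im3 (x s 0) (x s 1)) 0 t := by
      refine (hasDerivAt_const t (0 : ℝ)).congr_of_eventuallyEq ?_
      filter_upwards [isOpen_Ioo.mem_nhds ht] with s hs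
      exact (hfacts s hs).1
    have := h1.unique h2
    linarith
  -- the poles are never reached
  have hpole : ∀ t ∈ Set.Ioo (0 : ℝ) 4, 0 < x t 0 ^ 2 + x t 1 ^ 2 := by
    intro t ht
    by_contra hneg
    have h0 : x t 0 ^ 2 + x t 1 ^ 2 = 0 := le_antisymm (not_lt.1 hneg) (by positivity)
    have hx0 : x t 0 = 0 := by
      have : x t 0 ^ 2 = 0 := by nlinarith [sq_nonneg (x t 0), sq_nonneg (x t 1)]
      exact pow_eq_zero_iff (two_ne_zero) |>.1 this
    have hx1 : x t 1 = 0 := by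
      have : x t 1 ^ 2 = 0 := by nlinarith [sq_nonneg (x t 0), sq_nonneg (x t 1)]
      exact pow_eq_zero_iff (two_ne_zero) |>.1 this
    have hx2 : x t 2 ^ 2 = 1 := by have := hsph t ht; rw [hx0, hx1] at this; linarith
    have hv2 : v t 2 = 0 := by
      have h1 := hD t ht
      rw [hx0, hx1] at h1
      have h2 : x t 2 * v t 2 = 0 := by linarith
      rcases mul_eq_zero.1 h2 with h3 | h3
      · rw [h3] at hx2; norm_num at hx2
      · exact h3
    have hs0 := (hasDerivAt_iff_tendsto_slope.1 (hc t ht 0))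
    have hs1 := (hasDerivAt_iff_tendsto_slope.1 (hc t ht 1))
    have hsl : ∀ (j : Fin (m + 3)), x t j = 0 → ∀ s, slope (fun s => x s j) t s
        = (s - t)⁻¹ * x s j := by
      intro j hj s
      rw [slope_def_module, hj]; simp
    have hre : Tendsto (fun s => re3 (slope (fun s => x s 0) t s) (slope (fun s => x s 1) t s))
        (𝓝[≠] t) (𝓝 (re3 (v t 0) (v t 1))) := by
      unfold re3
      exact (hs0.pow 3).sub ((hs0.const_mul 3).mul (hs1.pow 2))
    have him : Tendsto (fun s => im3 (slope (fun s => x s 0) t s) (slope (fun s => x s 1) t s))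
        (𝓝[≠] t) (𝓝 (im3 (v t 0) (v t 1))) := by
      unfold im3
      exact (((hs0.pow 2).const_mul 3).mul hs1).sub (hs1.pow 3)
    have ere : ∀ s, re3 (slope (fun s => x s 0) t s) (slope (fun s => x s 1) t s)
        = ((s - t)⁻¹) ^ 3 * re3 (x s 0) (x s 1) := by
      intro s; rw [hsl 0 hx0, hsl 1 hx1]; unfold re3; ring
    have eim : ∀ s, im3 (slope (fun s => x s 0) t s) (slope (fun s => x s 1) t s)
        = ((s - t)⁻¹) ^ 3 * im3 (x s 0) (x s 1) := by
      intro s; rw [hsl 0 hx0, hsl 1 hx1]; unfold im3; ring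
    have hmemn : ∀ᶠ s in 𝓝 t, s ∈ Set.Ioo (0 : ℝ) 4 := isOpen_Ioo.mem_nhds ht
    have him0 : im3 (v t 0) (v t 1) = 0 := by
      refine tendsto_nhds_unique him ?_
      refine Tendsto.congr' ?_ tendsto_const_nhds
      filter_upwards [hmemn.filter_mono nhdsWithin_le_nhds] with s hs
      rw [eim, (hfacts s hs).1, mul_zero]
    have hre_ge : 0 ≤ re3 (v t 0) (v t 1) := by
      refine ge_of_tendsto (hre.mono_left (nhdsGT_le_nhdsNE t)) ?_
      filter_upwards [hmemn.filter_mono nhdsWithin_le_nhds, self_mem_nhdsWithin] with s hs hst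
      rw [ere]
      have h1 : 0 < s - t := sub_pos.2 hst
      exact mul_nonneg (by positivity) (hfacts s hs).2.1
    have hre_le : re3 (v t 0) (v t 1) ≤ 0 := by
      refine le_of_tendsto (hre.mono_left (nhdsLT_le_nhdsNE t)) ?_
      filter_upwards [hmemn.filter_mono nhdsWithin_le_nhds, self_mem_nhdsWithin] with s hs hst
      rw [ere]
      have h1 : s - t < 0 := sub_neg.2 hst
      have h2 : (s - t)⁻¹ < 0 := inv_lt_zero.2 h1
      have h3 : ((s - t)⁻¹) ^ 3 ≤ 0 := (Odd.pow_nonpos (by decide) h2.le)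
      exact mul_nonpos_of_nonpos_of_nonneg h3 (hfacts s hs).2.1
    have h4 := re3_sq_add_im3_sq (v t 0) (v t 1)
    rw [him0, le_antisymm hre_le hre_ge] at h4
    have h5 := hvsph t ht
    rw [hv2] at h5
    have h6 : v t 0 ^ 2 + v t 1 ^ 2 = 1 := by linarith
    rw [h6] at h4
    norm_num at h4
  -- `z' ² = 1 - z²`
  have hz : ∀ t ∈ Set.Ioo (0 : ℝ) 4, v t 2 ^ 2 = 1 - x t 2 ^ 2 := by
    intro t ht
    have a0 := hpole t ht
    have a1 := hsph t ht
    have a2 := hvsph t ht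
    have a3 := hD t ht
    have a4 := hI t ht
    have a5 := (hfacts t ht).1
    set p := x t 0
    set q := x t 1
    set z := x t 2
    set p' := v t 0
    set q' := v t 1
    set z' := v t 2
    have h1 : (p ^ 2 + q ^ 2) ^ 2 * (p * q' - q * p')
        = (2 * p * q * p' + (p ^ 2 - q ^ 2) * q') * re3 p q
          - ((p ^ 2 - q ^ 2) * p' - 2 * p * q * q') * im3 p q := by
      unfold re3 im3; ring
    rw [a4, a5, zero_mul, mul_zero, sub_zero] at h1
    have h2 : p * q' - q * p' = 0 := by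
      rcases mul_eq_zero.1 h1 with h3 | h3
      · exact absurd h3 (by positivity)
      · exact h3
    have h3 : (p ^ 2 + q ^ 2) * (p' ^ 2 + q' ^ 2)
        = (p * p' + q * q') ^ 2 + (p * q' - q * p') ^ 2 := by ring
    have h4 : p * p' + q * q' = -(z * z') := by linarith
    rw [h2, h4] at h3
    have h5 : p ^ 2 + q ^ 2 = 1 - z ^ 2 := by linarith
    have h6 : p' ^ 2 + q' ^ 2 = 1 - z' ^ 2 := by linarith
    rw [h5, h6] at h3
    linarith
  have hz1 : ∀ t ∈ Set.Ioo (0 : ℝ) 4, x t 2 ^ 2 < 1 := by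
    intro t ht
    have := hpole t ht
    have := hsph t ht
    linarith
  have hne : ∀ t ∈ Set.Ioo (0 : ℝ) 4, v t 2 ≠ 0 := by
    intro t ht h0
    have h1 := hz t ht
    have h2 := hz1 t ht
    rw [h0] at h1
    linarith
  have hsign := hasDerivWithinAt_forall_lt_or_forall_gt_of_forall_ne (convex_Ioo (0 : ℝ) 4)
    (fun t ht => (hc t ht 2).hasDerivWithinAt) hne
  have hpi := Real.pi_lt_d2
  -- the angle
  have hang : ∀ t ∈ Set.Ioo (0 : ℝ) 4, HasDerivAt (fun s => Real.arcsin (x s 2))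
      (1 / Real.sqrt (1 - x t 2 ^ 2) * v t 2) t := by
    intro t ht
    have h1 := hz1 t ht
    have h2 : x t 2 ≠ -1 := by intro h; rw [h] at h1; norm_num at h1
    have h3 : x t 2 ≠ 1 := by intro h; rw [h] at h1; norm_num at h1
    exact (Real.hasDerivAt_arcsin h2 h3).comp t (hc t ht 2)
  have m1 : (1 / 10 : ℝ) ∈ Set.Ioo (0 : ℝ) 4 := ⟨by norm_num, by norm_num⟩
  have m2 : (39 / 10 : ℝ) ∈ Set.Ioo (0 : ℝ) 4 := ⟨by norm_num, by norm_num⟩
  have b1 := Real.arcsin_mem_Icc (x (1 / 10) 2)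
  have b2 := Real.arcsin_mem_Icc (x (39 / 10) 2)
  have hcont : ContinuousOn (fun s => Real.arcsin (x s 2)) (Set.Ioo 0 4) := fun t ht =>
    (hang t ht).continuousAt.continuousWithinAt
  have hdiff : DifferentiableOn ℝ (fun s => Real.arcsin (x s 2)) (interior (Set.Ioo 0 4)) :=
    fun t ht => by
      rw [interior_Ioo] at ht
      exact (hang t ht).differentiableAt.differentiableWithinAt
  rcases hsign with hs | hs
  · have h1 := (convex_Ioo (0 : ℝ) 4).image_sub_le_mul_sub_of_deriv_le hcont hdiff (C := -1)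
      (fun t ht => by
        rw [interior_Ioo] at ht
        rw [(hang t ht).deriv]
        have h2 : Real.sqrt (1 - x t 2 ^ 2) = -v t 2 := by
          rw [← hz t ht, Real.sqrt_sq_eq_abs, abs_of_neg (hs t ht)]
        rw [h2]
        have h3 := hs t ht
        have h4 : v t 2 ≠ 0 := hne t ht
        field_simp
        exact le_rfl) _ m1 _ m2 (by norm_num)
    have := b1.2; have := b2.1
    linarith
  · have h1 := (convex_Ioo (0 : ℝ) 4).mul_sub_le_image_sub_of_le_deriv hcont hdiff (C := 1)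
      (fun t ht => by
        rw [interior_Ioo] at ht
        rw [(hang t ht).deriv]
        have h2 : Real.sqrt (1 - x t 2 ^ 2) = v t 2 := by
          rw [← hz t ht, Real.sqrt_sq_eq_abs, abs_of_pos (hs t ht)]
        rw [h2]
        have h4 : v t 2 ≠ 0 := hne t ht
        field_simp
        exact le_rfl) _ m1 _ m2 (by norm_num)
    have := b1.1; have := b2.2
    linarith

end

end Pool.Agent.H498R3.NT
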