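import Pool.Agent.H498R3.NTGuide

/-!
The three half great circles form a closed geodesic net; there is no strictly convex function.
-/

namespace Pool.Agent.H498R3.NT

open Pool.Agent.H498R3.GB
open scoped BigOperators ContDiff Topology InnerProductSpace
open Filter Metric

noncomputable section

variable {m : ℕ}

/-- the `j`-th basis vector -/
abbrev bs (j : Fin (m + 3)) : E (m + 3) := EuclideanSpace.single j (1 : ℝ)

/-- direction of an edge at the pole -/
def dir (α β : ℝ) : E (m + 3) := α • bs 0 + β • bs 1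

/-- half great circle -/
def edge (α β t : ℝ) : E (m + 3) := Real.sin t • dir α β + Real.cos t • bs 2

/-- its velocity -/
def edge' (α β t : ℝ) : E (m + 3) := Real.cos t • dir α β - Real.sin t • bs 2

lemma edge_hasDerivAt (α β t : ℝ) :
    HasDerivAt (edge α β : ℝ → E (m + 3)) (edge' α β t) t := by
  have h1 := (Real.hasDerivAt_sin t).smul_const (dir α β : E (m + 3))
  have h2 := (Real.hasDerivAt_cos t).smul_const (bs 2 : E (m + 3))
  refine (h1.add h2).congr_deriv ?_
  unfold edge'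
  rw [neg_smul, sub_eq_add_neg]

lemma edge'_hasDerivAt (α β t : ℝ) :
    HasDerivAt (edge' α β : ℝ → E (m + 3)) (-edge α β t) t := by
  have h1 := (Real.hasDerivAt_cos t).smul_const (dir α β : E (m + 3))
  have h2 := (Real.hasDerivAt_sin t).smul_const (bs 2 : E (m + 3))
  refine (h1.sub h2).congr_deriv ?_
  unfold edge
  rw [neg_smul, neg_add, sub_eq_add_neg]

lemma fin_ne01 : (0 : Fin (m + 3)) ≠ 1 := by
  intro h; exact absurd (congrArg Fin.val h) (by simp)

lemma coord_ne (i : Fin m) : i.succ.succ.succ ≠ (0 : Fin (m + 3)) ∧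
    i.succ.succ.succ ≠ (1 : Fin (m + 3)) ∧ i.succ.succ.succ ≠ (2 : Fin (m + 3)) := by
  refine ⟨Fin.succ_ne_zero _, ?_, ?_⟩
  · intro h
    have h1 : i.succ.succ.succ = Fin.succ (0 : Fin (m + 2)) := h
    exact Fin.succ_ne_zero _ (Fin.succ_injective _ h1)
  · intro h
    have h1 : i.succ.succ.succ = Fin.succ (Fin.succ (0 : Fin (m + 1))) := h
    exact Fin.succ_ne_zero _ (Fin.succ_injective _ (Fin.succ_injective _ h1))

lemma bs_apply (j k : Fin (m + 3)) : (bs j : E (m + 3)) k = if k = j then 1 else 0 := by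
  simp [bs]

lemma h01 : ((0 : Fin (m + 3)) = 1) = False := by
  rw [eq_iff_iff]; simp

lemma edge_0 (α β t : ℝ) : (edge α β t : E (m + 3)) 0 = Real.sin t * α := by
  have e1 : ¬ ((0 : Fin (m + 3)) = 1) := by simp
  have e2 : ¬ ((0 : Fin (m + 3)) = 2) := by
    intro h; exact Fin.succ_ne_zero (Fin.succ (0 : Fin (m + 1))) h.symm
  simp only [edge, dir, PiLp.add_apply, PiLp.smul_apply, bs_apply, smul_eq_mul]
  simp [e1, e2]

lemma edge_1 (α β t : ℝ) : (edge α β t : E (m + 3)) 1 = Real.sin t * β := by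
  have e1 : ¬ ((1 : Fin (m + 3)) = 0) := by simp
  have e2 : ¬ ((1 : Fin (m + 3)) = 2) := by
    intro h
    have h1 : Fin.succ (0 : Fin (m + 2)) = Fin.succ (Fin.succ (0 : Fin (m + 1))) := h
    exact Fin.succ_ne_zero _ (Fin.succ_injective _ h1).symm
  simp only [edge, dir, PiLp.add_apply, PiLp.smul_apply, bs_apply, smul_eq_mul]
  simp [e1, e2]

lemma edge_2 (α β t : ℝ) : (edge α β t : E (m + 3)) 2 = Real.cos t := by
  have e1 : ¬ ((2 : Fin (m + 3)) = 0) := by
    intro h; exact Fin.succ_ne_zero (Fin.succ (0 : Fin (m + 1))) h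
  have e2 : ¬ ((2 : Fin (m + 3)) = 1) := by
    intro h
    have h1 : Fin.succ (Fin.succ (0 : Fin (m + 1))) = Fin.succ (0 : Fin (m + 2)) := h
    exact Fin.succ_ne_zero _ (Fin.succ_injective _ h1)
  simp only [edge, dir, PiLp.add_apply, PiLp.smul_apply, bs_apply, smul_eq_mul]
  simp [e1, e2]

lemma edge_rest (α β t : ℝ) : rest (edge α β t : E (m + 3)) = 0 := by
  unfold rest
  refine Finset.sum_eq_zero fun i _ => ?_
  obtain ⟨h0, h1, h2⟩ := coord_ne i
  simp only [edge, dir, PiLp.add_apply, PiLp.smul_apply, bs_apply, smul_eq_mul]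
  simp [h0, h1, h2]

lemma edge_norm {α β : ℝ} (hab : α ^ 2 + β ^ 2 = 1) (t : ℝ) : ‖(edge α β t : E (m + 3))‖ = 1 := by
  have h := norm_sq_split (edge α β t : E (m + 3))
  rw [edge_0, edge_1, edge_2, edge_rest] at h
  have h2 : ‖(edge α β t : E (m + 3))‖ ^ 2 = 1 := by
    rw [h]
    have := Real.sin_sq_add_cos_sq t
    linear_combination (Real.sin t ^ 2) * hab + this
  have h3 := norm_nonneg (edge α β t : E (m + 3))
  nlinarith

lemma edge_GG {α β : ℝ} (hre : re3 α β = 1) (him : im3 α β = 0) {t : ℝ}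
    (ht : t ∈ Set.Icc 0 Real.pi) : GG (edge α β t : E (m + 3)) = 0 := by
  unfold GG
  rw [edge_0, edge_1, edge_rest]
  have h1 : im3 (Real.sin t * α) (Real.sin t * β) = Real.sin t ^ 3 * im3 α β := by
    unfold im3; ring
  have h2 : re3 (Real.sin t * α) (Real.sin t * β) = Real.sin t ^ 3 * re3 α β := by
    unfold re3; ring
  rw [h1, h2, hre, him]
  have h3 : 0 ≤ Real.sin t := Real.sin_nonneg_of_nonneg_of_le_pi ht.1 ht.2
  rw [expNegInvGlue.zero_of_nonpos (by simp; positivity)]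
  simp

/-- `edge' ⊥ edge` -/
lemma edge_inner {α β : ℝ} (hab : α ^ 2 + β ^ 2 = 1) (t : ℝ) :
    ⟪(edge α β t : E (m + 3)), edge' α β t⟫_ℝ = 0 := by
  have h1 : HasDerivAt (fun s => ‖(edge α β s : E (m + 3))‖ ^ 2)
      (2 * ⟪(edge α β t : E (m + 3)), edge' α β t⟫_ℝ) t := (edge_hasDerivAt α β t).norm_sq
  have h2 : HasDerivAt (fun s => ‖(edge α β s : E (m + 3))‖ ^ 2) 0 t := by
    have : (fun s => ‖(edge α β s : E (m + 3))‖ ^ 2) = fun _ => (1 : ℝ) := by
      funext s; rw [edge_norm hab]; norm_num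
    rw [this]; exact hasDerivAt_const t 1
  have := h1.unique h2
  linarith

lemma edge'_norm {α β : ℝ} (hab : α ^ 2 + β ^ 2 = 1) (t : ℝ) :
    ‖(edge' α β t : E (m + 3))‖ = 1 := by
  have e : (edge' α β t : E (m + 3)) = edge α β (t + Real.pi / 2) := by
    unfold edge edge'
    rw [Real.sin_add_pi_div_two, Real.cos_add_pi_div_two, neg_smul, sub_eq_add_neg]
  rw [e, edge_norm hab]

lemma edge'_ne {α β : ℝ} (hab : α ^ 2 + β ^ 2 = 1) (t : ℝ) :
    (edge' α β t : E (m + 3)) ≠ 0 := by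
  intro h
  have := edge'_norm (m := m) hab t
  rw [h, norm_zero] at this
  norm_num at this

lemma edge_mem {α β : ℝ} (hab : α ^ 2 + β ^ 2 = 1) (t : ℝ) :
    (edge α β t : E (m + 3)) ∈ ball (0 : E (m + 3)) 2 := by
  simp [edge_norm hab]

/-- along an edge a strictly convex function has increasing derivative -/
lemma edge_convex {C ε : ℝ} {φ f : E (m + 3) → ℝ} (hφ : GoodPot GG C ε φ)
    (hf : ContDiffOn ℝ 2 f (ball 0 2))
    (hpos : ∀ x ∈ ball (0 : E (m + 3)) 2, ∀ v : E (m + 3), v ≠ 0 → 0 < hessForm (conf φ) f x v)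
    {α β : ℝ} (hab : α ^ 2 + β ^ 2 = 1) (hre : re3 α β = 1) (him : im3 α β = 0) :
    fderiv ℝ f (bs 2) (dir α β) < fderiv ℝ f (-bs 2) (-dir α β) := by
  have hfa : ∀ t : ℝ, ContDiffAt ℝ 2 f (edge α β t : E (m + 3)) := fun t =>
    hf.contDiffAt (isOpen_ball.mem_nhds (edge_mem hab t))
  have hd : ∀ t : ℝ, HasDerivAt (fun s => fderiv ℝ f (edge α β s) (edge' α β s))
      (fderiv ℝ (fderiv ℝ f) (edge α β t : E (m + 3)) (edge' α β t) (edge' α β t)
        + fderiv ℝ f (edge α β t) (-edge α β t)) t := by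
    intro t
    have h1 : HasFDerivAt (fderiv ℝ f) (fderiv ℝ (fderiv ℝ f) (edge α β t)) (edge α β t) :=
      (((hfa t).fderiv_right (m := 1) (by norm_num)).differentiableAt (by simp)).hasFDerivAt
    have h2 := h1.comp_hasDerivAt t (edge_hasDerivAt α β t)
    exact h2.clm_apply (edge'_hasDerivAt α β t)
  have hval : ∀ t ∈ Set.Icc 0 Real.pi,
      fderiv ℝ (fderiv ℝ f) (edge α β t : E (m + 3)) (edge' α β t) (edge' α β t)
        + fderiv ℝ f (edge α β t) (-edge α β t)
      = hessForm (conf φ) f (edge α β t) (edge' α β t) := by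
    intro t ht
    have h1 := (hφ.onG _ (edge_norm hab t) (edge_GG hre him ht)).2
    rw [hessForm_conf ((hφ.smooth.differentiable (by simp)) _), sum_pd_pd (hfa t), h1,
      edge_inner hab, edge'_norm hab]
    have h2 : gr φ (edge α β t) = -edge α β t := by
      refine ext_inner_right ℝ fun v => ?_
      rw [inner_gr, h1, inner_neg_left]
    rw [h2]
    ring
  have hmono : StrictMonoOn (fun s => fderiv ℝ f (edge α β s) (edge' α β s : E (m + 3)))
      (Set.Icc 0 Real.pi) := by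
    refine strictMonoOn_of_deriv_pos (convex_Icc 0 Real.pi)
      (fun t _ => (hd t).continuousAt.continuousWithinAt) fun t ht => ?_
    rw [interior_Icc] at ht
    rw [(hd t).deriv, hval t (Set.Ioo_subset_Icc_self ht)]
    exact hpos _ (edge_mem hab t) _ (edge'_ne hab t)
  have h := hmono (Set.left_mem_Icc.2 Real.pi_pos.le) (Set.right_mem_Icc.2 Real.pi_pos.le)
    Real.pi_pos
  have e0 : (edge α β 0 : E (m + 3)) = bs 2 := by simp [edge]
  have e0' : (edge' α β 0 : E (m + 3)) = dir α β := by simp [edge']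
  have e1 : (edge α β Real.pi : E (m + 3)) = -bs 2 := by simp [edge]
  have e1' : (edge' α β Real.pi : E (m + 3)) = -dir α β := by simp [edge']
  simpa only [e0, e0', e1, e1'] using h

theorem no_convex {C ε : ℝ} {φ : E (m + 3) → ℝ} (hφ : GoodPot GG C ε φ)
    (f : E (m + 3) → ℝ) (hf : ContDiffOn ℝ 2 f (ball 0 2)) :
    ∃ x ∈ ball (0 : E (m + 3)) 2, ∃ v : E (m + 3), v ≠ 0 ∧ hessForm (conf φ) f x v ≤ 0 := by
  by_contra hcon
  push Not at hcon
  have h3 : Real.sqrt 3 ^ 2 = 3 := Real.sq_sqrt (by norm_num)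
  have h1 := edge_convex hφ hf hcon (α := 1) (β := 0) (by norm_num) (by norm_num [re3])
    (by norm_num [im3])
  have h2 := edge_convex hφ hf hcon (α := -(1 / 2)) (β := Real.sqrt 3 / 2)
    (by rw [div_pow, h3]; norm_num) (by unfold re3; rw [div_pow, h3]; norm_num)
    (by
      unfold im3
      have : (Real.sqrt 3 / 2) ^ 3 = 3 / 8 * Real.sqrt 3 := by
        rw [div_pow, pow_succ, h3]; ring
      rw [this]; ring)
  have h4 := edge_convex hφ hf hcon (α := -(1 / 2)) (β := -(Real.sqrt 3 / 2))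
    (by
      have e : (-(Real.sqrt 3 / 2)) ^ 2 = Real.sqrt 3 ^ 2 / 4 := by ring
      rw [e, h3]; norm_num)
    (by
      unfold re3
      have e : (-(Real.sqrt 3 / 2)) ^ 2 = Real.sqrt 3 ^ 2 / 4 := by ring
      rw [e, h3]; norm_num)
    (by
      unfold im3
      have : (Real.sqrt 3 / 2) ^ 3 = 3 / 8 * Real.sqrt 3 := by
        rw [div_pow, pow_succ, h3]; ring
      have e : (-(Real.sqrt 3 / 2)) ^ 3 = -((Real.sqrt 3 / 2) ^ 3) := by ring
      rw [e, this]; ring)
  have hsum : (dir 1 0 : E (m + 3)) + dir (-(1 / 2)) (Real.sqrt 3 / 2)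
      + dir (-(1 / 2)) (-(Real.sqrt 3 / 2)) = 0 := by
    unfold dir
    module
  have s1 := congrArg (fderiv ℝ f (bs 2)) hsum
  have s2 := congrArg (fderiv ℝ f (-bs 2)) hsum
  simp only [map_add, map_zero] at s1 s2
  simp only [map_neg] at h1 h2 h4
  linarith

theorem sphere_convex {G : E (m + 3) → ℝ} {C ε : ℝ} {φ : E (m + 3) → ℝ} (hε : ε ≤ 1 / 2)
    (hφ : GoodPot G C ε φ) : StrictlyConvexSphere (conf φ) 2 := by
  intro x hx v hv _
  have hs : ε < |sf x| := by
    unfold sf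
    rw [hx, abs_of_neg (by norm_num)]
    linarith
  have h1 := (hφ.flat x (Or.inl hs)).1
  have h2 : gr φ x = 0 := by unfold gr; rw [h1]; simp
  rw [hessForm_conf ((hφ.smooth.differentiable (by simp)) _), h1, h2]
  have h3 : ∀ j, pd j (fun z : E (m + 3) => ‖z‖ ^ 2) = fun z => 2 * z j := by
    intro j; funext z
    have := pd_hn (n := m + 3) (h := fun u => u) contDiff_id j z
    simpa using this
  have h4 : ∀ i j, pd i (pd j (fun z : E (m + 3) => ‖z‖ ^ 2)) x
      = 2 * (1 : Matrix (Fin (m + 3)) (Fin (m + 3)) ℝ) i j := by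
    intro i j
    rw [h3, pd_const_mul _ (diff_of (contDiff_coord j) x), pd_coord]
  have h5 : ∑ i, ∑ j, pd i (pd j (fun z : E (m + 3) => ‖z‖ ^ 2)) x * v i * v j = 2 * ‖v‖ ^ 2 := by
    simp only [h4]
    rw [EuclideanSpace.norm_sq_eq, Finset.mul_sum]
    refine Finset.sum_congr rfl fun i _ => ?_
    simp [Matrix.one_apply, sq, mul_assoc]
  rw [h5]
  have h6 : 0 < ‖v‖ := norm_pos_iff.2 hv
  simp
  positivity

/-- For every `n ≥ 3` there is a nontrapping metric on the closed ball of radius `2` of `ℝ^n`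
without strictly convex functions. -/
theorem main (m : ℕ) : ∃ g : MetricField (m + 3),
    IsRiemannianOn g Set.univ ∧ (∀ x : E (m + 3), 3 / 2 ≤ ‖x‖ → g x = 1) ∧
    NontrappingBall g 2 ∧
    ∀ f : E (m + 3) → ℝ, ContDiffOn ℝ 2 f (ball 0 2) →
      ∃ x ∈ ball (0 : E (m + 3)) 2, ∃ v : E (m + 3), v ≠ 0 ∧ hessForm g f x v ≤ 0 := by
  obtain ⟨C, ε, φ, hε, hφ, T, hT⟩ := exists_length_bound (GG_contDiff (m := m)) GG_nonneg noCurve_GG
  refine ⟨conf φ, conf_riem hφ.smooth, fun x hx => ?_, ⟨sphere_convex hε hφ, T, hT⟩,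
    no_convex hφ⟩
  have hs : ε < |sf x| := by
    unfold sf
    rw [abs_of_neg] <;> nlinarith
  unfold conf
  rw [(hφ.flat x (Or.inl hs)).2]
  simp

end

end Pool.Agent.H498R3.NT
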