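import Pool.Agent.H498R3.NTDefs

/-!
The potentials `φ = δ Ψ(s/δ) R(G/ε)`, `s = (1 - |x|²)/2`.
-/

namespace Pool.Agent.H498R3.NT

open Pool.Agent.H498R3.GB
open scoped BigOperators ContDiff Topology InnerProductSpace
open Filter Metric

noncomputable section

variable {n : ℕ}

/-- `Ψ(u) = u χ(u²)` -/
def Psi (u : ℝ) : ℝ := u * Real.smoothTransition (1 - u ^ 2)

lemma Psi_contDiff : ContDiff ℝ ∞ Psi := by
  unfold Psi
  exact contDiff_id.mul ((Real.smoothTransition.contDiff (n := ⊤)).comp (by fun_prop))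

lemma Psi_eq_zero {u : ℝ} (h : 1 ≤ |u|) : Psi u = 0 := by
  unfold Psi
  rw [Real.smoothTransition.zero_of_nonpos, mul_zero]
  have : 1 ≤ u ^ 2 := by rw [← sq_abs]; nlinarith
  linarith

lemma abs_Psi_le (u : ℝ) : |Psi u| ≤ 1 := by
  rcases le_or_gt 1 |u| with h | h
  · rw [Psi_eq_zero h]; norm_num
  · unfold Psi
    rw [abs_mul, abs_of_nonneg (Real.smoothTransition.nonneg _)]
    exact mul_le_one₀ h.le (Real.smoothTransition.nonneg _) (Real.smoothTransition.le_one _)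

lemma st_deriv_nonneg (v : ℝ) : 0 ≤ deriv Real.smoothTransition v :=
  Real.smoothTransition.monotone.deriv_nonneg

lemma Psi_hasDerivAt (u : ℝ) : HasDerivAt Psi
    (Real.smoothTransition (1 - u ^ 2)
      - 2 * u ^ 2 * deriv Real.smoothTransition (1 - u ^ 2)) u := by
  have h1 : HasDerivAt Real.smoothTransition (deriv Real.smoothTransition (1 - u ^ 2))
      (1 - u ^ 2) :=
    (((Real.smoothTransition.contDiff (n := 1)).differentiable (by simp)) _).hasDerivAt
  have h2 : HasDerivAt (fun u : ℝ => 1 - u ^ 2) (-(2 * u)) u := by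
    simpa using (hasDerivAt_pow 2 u).const_sub 1
  have h3 := HasDerivAt.comp (h₂ := Real.smoothTransition) (h := fun u : ℝ => 1 - u ^ 2) u h1 h2
  have h4 := (hasDerivAt_id u).mul h3
  refine h4.congr_deriv ?_
  simp only [id, Function.comp_def]
  ring

lemma Psi_deriv_le (u : ℝ) : deriv Psi u ≤ 1 := by
  rw [(Psi_hasDerivAt u).deriv]
  have h1 := Real.smoothTransition.le_one (1 - u ^ 2)
  have h2 := st_deriv_nonneg (1 - u ^ 2)
  have h3 : 0 ≤ 2 * u ^ 2 * deriv Real.smoothTransition (1 - u ^ 2) := by positivity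
  linarith

lemma Psi_deriv_zero : deriv Psi 0 = 1 := by
  rw [(Psi_hasDerivAt 0).deriv]
  simp

lemma Psi_deriv_far {u : ℝ} (h : 1 < |u|) : deriv Psi u = 0 := by
  have e : Psi =ᶠ[𝓝 u] fun _ => 0 := by
    have : ∀ᶠ v in 𝓝 u, 1 < |v| := continuous_abs.continuousAt.eventually (lt_mem_nhds h)
    filter_upwards [this] with v hv
    exact Psi_eq_zero hv.le
  rw [e.deriv_eq]; simp

lemma Psi_deriv_bound : ∃ C : ℝ, 0 ≤ C ∧ ∀ u, |deriv Psi u| ≤ C := by
  have hc : Continuous (deriv Psi) := (contDiff_deriv_of Psi_contDiff).continuous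
  obtain ⟨C, hC⟩ := (isCompact_Icc (a := (-1 : ℝ)) (b := 1)).exists_bound_of_continuousOn
    hc.continuousOn
  refine ⟨max C 0, le_max_right _ _, fun u => ?_⟩
  rcases le_or_gt |u| 1 with h | h
  · exact (hC u (abs_le.1 h)).trans (le_max_left _ _)
  · rw [Psi_deriv_far h, abs_zero]; exact le_max_right _ _

/-- `s(x) = (1 - |x|²)/2` -/
def sf (x : E n) : ℝ := (1 - ‖x‖ ^ 2) / 2

lemma sf_contDiff : ContDiff ℝ ∞ (sf : E n → ℝ) := by
  unfold sf
  exact (contDiff_const.sub (contDiff_norm_sq ℝ)).div_const 2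

lemma sf_hasFDerivAt (x : E n) : HasFDerivAt sf (-(innerSL ℝ x)) x := by
  have h1 : HasFDerivAt (fun z : E n => ‖z‖ ^ 2) (2 • (innerSL ℝ x)) x :=
    (hasStrictFDerivAt_norm_sq x).hasFDerivAt
  have h2 := (h1.const_sub 1).const_mul (1 / 2)
  have e : (fun z : E n => (1 / 2 : ℝ) * (1 - ‖z‖ ^ 2)) = sf := by
    funext z; unfold sf; ring
  rw [e] at h2
  refine h2.congr_fderiv ?_
  ext v
  simp

/-- the properties of the potentials -/
structure GoodPot (G : E n → ℝ) (C ε : ℝ) (φ : E n → ℝ) : Prop where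
  smooth : ContDiff ℝ ∞ φ
  small : ∀ x, |φ x| ≤ ε
  grad_le : ∀ x ∈ closedBall (0 : E n) 2, ∀ v, |fderiv ℝ φ x v| ≤ C * ‖v‖
  radial : ∀ x ∈ closedBall (0 : E n) 2, -1 - ε ≤ fderiv ℝ φ x x
  flat : ∀ x, (ε < |sf x| ∨ ε < G x) → fderiv ℝ φ x = 0 ∧ φ x = 0
  onG : ∀ x : E n, ‖x‖ = 1 → G x = 0 → φ x = 0 ∧ ∀ v, fderiv ℝ φ x v = -⟪x, v⟫_ℝ

theorem exists_pot {G : E n → ℝ} (hG : ContDiff ℝ ∞ G) :
    ∃ C : ℝ, 0 ≤ C ∧ ∀ ε : ℝ, 0 < ε → ε ≤ 1 → ∃ φ, GoodPot G C ε φ := by
  obtain ⟨C0, hC0, hC⟩ := Psi_deriv_bound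
  refine ⟨C0 * 2 + 1, by positivity, fun ε hε hε1 => ?_⟩
  set R : E n → ℝ := fun x => Real.smoothTransition (1 - G x / ε) with hR
  have hRs : ContDiff ℝ ∞ R :=
    (Real.smoothTransition.contDiff (n := ⊤)).comp (contDiff_const.sub (hG.div_const ε))
  have hR0 : ∀ x, 0 ≤ R x := fun x => Real.smoothTransition.nonneg _
  have hR1 : ∀ x, R x ≤ 1 := fun x => Real.smoothTransition.le_one _
  have hRd : ∀ x, HasFDerivAt R (fderiv ℝ R x) x := fun x =>
    ((hRs.differentiable (by simp)) x).hasFDerivAt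
  obtain ⟨M, hM⟩ := (isCompact_closedBall (0 : E n) 2).exists_bound_of_continuousOn
    (hRs.continuous_fderiv (by simp)).continuousOn
  set M' := max M 0 with hM'
  have hM0 : 0 ≤ M' := le_max_right _ _
  have hMle : ∀ x ∈ closedBall (0 : E n) 2, ‖fderiv ℝ R x‖ ≤ M' := fun x hx =>
    (hM x hx).trans (le_max_left _ _)
  set δ : ℝ := ε / (4 * (M' + 1)) with hδ
  have hδ0 : 0 < δ := by positivity
  have hδM : δ * (4 * (M' + 1)) = ε := by rw [hδ]; field_simp
  have hδε : 4 * δ ≤ ε := by nlinarith [mul_nonneg hδ0.le hM0]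
  have hδM2 : δ * M' * 4 ≤ ε := by nlinarith
  set φ : E n → ℝ := fun x => δ * (Psi (sf x / δ) * R x) with hφ
  have hs : ContDiff ℝ ∞ (fun x : E n => Psi (sf x / δ)) :=
    Psi_contDiff.comp (sf_contDiff.div_const δ)
  have hd : ∀ x : E n, HasFDerivAt φ ((-(deriv Psi (sf x / δ)) * R x) • (innerSL ℝ x)
      + (δ * Psi (sf x / δ)) • fderiv ℝ R x) x := by
    intro x
    have h1 : HasDerivAt Psi (deriv Psi (sf x / δ)) (sf x / δ) :=
      ((Psi_contDiff.differentiable (by simp)) _).hasDerivAt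
    have h2 : HasFDerivAt (fun z : E n => sf z / δ) (δ⁻¹ • (-(innerSL ℝ x))) x := by
      have := (sf_hasFDerivAt x).const_mul δ⁻¹
      refine this.congr_of_eventuallyEq (Filter.Eventually.of_forall fun z => ?_)
      simp only []
      ring
    have h3 := h1.comp_hasFDerivAt x h2
    have h4 := (h3.mul (hRd x)).const_mul δ
    refine h4.congr_fderiv ?_
    ext v
    simp only [_root_.add_apply, _root_.smul_apply, smul_eq_mul,
      _root_.neg_apply, Function.comp_def]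
    field_simp
    ring
  have hfd : ∀ x v, fderiv ℝ φ x v = -(deriv Psi (sf x / δ)) * R x * ⟪x, v⟫_ℝ
      + δ * Psi (sf x / δ) * fderiv ℝ R x v := by
    intro x v
    rw [(hd x).fderiv]
    simp
  -- the second term
  have h2nd : ∀ x ∈ closedBall (0 : E n) 2, ∀ v,
      |δ * Psi (sf x / δ) * fderiv ℝ R x v| ≤ δ * M' * ‖v‖ := by
    intro x hx v
    rw [abs_mul, abs_mul, abs_of_pos hδ0]
    have h1 := abs_Psi_le (sf x / δ)
    have h2 : |fderiv ℝ R x v| ≤ M' * ‖v‖ :=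
      ((fderiv ℝ R x).le_opNorm v).trans (mul_le_mul_of_nonneg_right (hMle x hx) (norm_nonneg v))
    have h3 : 0 ≤ M' * ‖v‖ := by positivity
    calc δ * |Psi (sf x / δ)| * |fderiv ℝ R x v| ≤ δ * 1 * (M' * ‖v‖) := by
          gcongr
      _ = δ * M' * ‖v‖ := by ring
  refine ⟨φ, ⟨?_, ?_, ?_, ?_, ?_, ?_⟩⟩
  · exact contDiff_const.mul (hs.mul hRs)
  · intro x
    simp only [hφ]
    rw [abs_mul, abs_of_pos hδ0, abs_mul, abs_of_nonneg (hR0 x)]
    have h1 := abs_Psi_le (sf x / δ)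
    have h2 := hR1 x
    have h3 : |Psi (sf x / δ)| * R x ≤ 1 := mul_le_one₀ h1 (hR0 x) h2
    nlinarith
  · intro x hx v
    rw [hfd]
    have hx2 : ‖x‖ ≤ 2 := by simpa using hx
    have h1 : |-(deriv Psi (sf x / δ)) * R x * ⟪x, v⟫_ℝ| ≤ C0 * 2 * ‖v‖ := by
      rw [abs_mul, abs_mul, abs_neg, abs_of_nonneg (hR0 x)]
      have a1 := hC (sf x / δ)
      have a2 := abs_real_inner_le_norm x v
      have a3 : |⟪x, v⟫_ℝ| ≤ 2 * ‖v‖ := a2.trans (by gcongr)
      calc |deriv Psi (sf x / δ)| * R x * |⟪x, v⟫_ℝ| ≤ C0 * 1 * (2 * ‖v‖) := by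
            gcongr
            · exact hR0 x
            · exact hR1 x
        _ = C0 * 2 * ‖v‖ := by ring
    have h2 := h2nd x hx v
    have h3 : δ * M' * ‖v‖ ≤ 1 * ‖v‖ := by
      have : δ * M' ≤ 1 := by linarith
      gcongr
    calc _ ≤ |-(deriv Psi (sf x / δ)) * R x * ⟪x, v⟫_ℝ| + |δ * Psi (sf x / δ) * fderiv ℝ R x v| :=
          abs_add_le _ _
      _ ≤ (C0 * 2 + 1) * ‖v‖ := by linarith
  · intro x hx
    rw [hfd]
    have hx2 : ‖x‖ ≤ 2 := by simpa using hx
    have h2 := h2nd x hx x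
    have h3 : δ * M' * ‖x‖ ≤ ε / 2 := by
      have : δ * M' * ‖x‖ ≤ δ * M' * 2 := by gcongr
      linarith
    have h4 : -1 - ε / 2 ≤ -(deriv Psi (sf x / δ)) * R x * ⟪x, x⟫_ℝ := by
      rw [real_inner_self_eq_norm_sq]
      rcases le_or_gt |sf x / δ| 1 with h | h
      · have h5 : |sf x| ≤ δ := by
          rw [abs_div, abs_of_pos hδ0, div_le_one hδ0] at h; exact h
        have h6 : ‖x‖ ^ 2 ≤ 1 + 2 * δ := by
          have := (abs_le.1 h5).1
          unfold sf at this; linarith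
        have h7 := Psi_deriv_le (sf x / δ)
        have h8 : deriv Psi (sf x / δ) * R x ≤ 1 := by
          rcases le_or_gt 0 (deriv Psi (sf x / δ)) with h9 | h9
          · exact mul_le_one₀ h7 (hR0 x) (hR1 x)
          · nlinarith [hR0 x]
        have h10 : deriv Psi (sf x / δ) * R x * ‖x‖ ^ 2 ≤ 1 * ‖x‖ ^ 2 := by
          gcongr
        linarith
      · rw [Psi_deriv_far h]
        simp; linarith
    have h5 := (abs_le.1 h2).1
    linarith
  · intro x hx
    have hδε' : δ < ε := by linarith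
    have key : φ =ᶠ[𝓝 x] fun _ => 0 := by
      rcases hx with hx | hx
      · have : ∀ᶠ z in 𝓝 x, ε < |sf z| :=
          (sf_contDiff.continuous.abs.continuousAt).eventually (lt_mem_nhds hx)
        filter_upwards [this] with z hz
        simp only [hφ]
        rw [Psi_eq_zero, zero_mul, mul_zero]
        rw [abs_div, abs_of_pos hδ0, one_le_div hδ0]
        linarith
      · have : ∀ᶠ z in 𝓝 x, ε < G z :=
          (hG.continuous.continuousAt).eventually (lt_mem_nhds hx)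
        filter_upwards [this] with z hz
        simp only [hφ, hR]
        rw [Real.smoothTransition.zero_of_nonpos, mul_zero, mul_zero]
        rw [sub_nonpos, one_le_div hε]
        exact hz.le
    refine ⟨?_, key.eq_of_nhds⟩
    rw [key.fderiv_eq]
    simp
  · intro x hx hGx
    have hs0 : sf x = 0 := by unfold sf; rw [hx]; norm_num
    have hRx : R x = 1 := by
      simp only [hR, hGx]
      simp
    have hP : Psi 0 = 0 := by unfold Psi; simp
    refine ⟨?_, fun v => ?_⟩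
    · simp only [hφ, hs0, zero_div, hP, zero_mul, mul_zero]
    · rw [hfd, hs0, zero_div, Psi_deriv_zero, hP, hRx]
      ring

end

end Pool.Agent.H498R3.NT
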