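import Pool.Agent.H498R3.NTGeod

/-!
Compactness: if no `C^{1,1}` unit-speed curve of length `4` stays in `Γ = {|x| = 1, G = 0}`, then
one of the metrics `e^{2φ_k} |dx|²` has no long geodesics in the ball of radius `2`.
-/

namespace Pool.Agent.H498R3.NT

open Pool.Agent.H498R3.GB
open scoped BigOperators ContDiff Topology InnerProductSpace
open Filter Metric

noncomputable section

variable {n : ℕ}

/-- no unit-speed curve of length `4` in `Γ` -/
def NoCurve (G : E n → ℝ) : Prop :=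
  ∀ (K : ℝ) (x v : ℝ → E n),
    (∀ t ∈ Set.Icc (0 : ℝ) 4, ∀ t' ∈ Set.Icc (0 : ℝ) 4,
      ‖x t' - x t - (t' - t) • v t‖ ≤ K * (t' - t) ^ 2) →
    (∀ t ∈ Set.Icc (0 : ℝ) 4, ‖v t‖ = 1) →
    (∀ t ∈ Set.Ioo (0 : ℝ) 4, ‖x t‖ = 1 ∧ G (x t) = 0) → False

lemma exists_ulim {f : ℕ → E n} (hf : ∀ k, f k ∈ closedBall (0 : E n) 2) :
    ∃ y, Tendsto f (hyperfilter ℕ : Filter ℕ) (𝓝 y) := by
  obtain ⟨y, -, hy⟩ := (isCompact_closedBall (0 : E n) 2).ultrafilter_le_nhds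
    ((hyperfilter ℕ).map f) (by
      rw [le_principal_iff]
      exact Filter.mem_map.2 (Filter.Eventually.of_forall hf))
  exact ⟨y, hy⟩

theorem step {G : E n → ℝ} (hG : ContDiff ℝ ∞ G) (hG0 : ∀ x, 0 ≤ G x) (hN : NoCurve G)
    {C : ℝ} (hC : 0 ≤ C) (φ : ℕ → E n → ℝ) (hφ : ∀ k : ℕ, GoodPot G C (1 / ((k : ℝ) + 2)) (φ k)) :
    ∃ k : ℕ, ∃ c > 0, ∀ (γ : ℝ → E n) (a b : ℝ), IsUnitSpeedGeodesic (conf (φ k)) γ a b →
      (∀ t ∈ Set.Ioo a b, γ t ∈ closedBall (0 : E n) 2) →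
      ∀ t0, a < t0 → t0 + 4 < b → c ≤ pf (φ k) γ (t0 + 4) - pf (φ k) γ t0 := by
  by_contra hcon
  push Not at hcon
  have hcon' : ∀ k : ℕ, ∃ (γ : ℝ → E n) (a b : ℝ), IsUnitSpeedGeodesic (conf (φ k)) γ a b ∧
      (∀ t ∈ Set.Ioo a b, γ t ∈ closedBall (0 : E n) 2) ∧
      ∃ t0, a < t0 ∧ t0 + 4 < b ∧ pf (φ k) γ (t0 + 4) - pf (φ k) γ t0 < 1 / ((k : ℝ) + 2) :=
    fun k => hcon k (1 / ((k : ℝ) + 2)) (by positivity)
  choose γ a b hγ hM t0 h1 h2 h3 using hcon'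
  set ε : ℕ → ℝ := fun k => 1 / ((k : ℝ) + 2) with hε
  have hε0 : ∀ k, 0 < ε k := fun k => by simp only [hε]; positivity
  have hε2 : ∀ k, ε k ≤ 1 / 2 := fun k => by
    simp only [hε]
    have : (0 : ℝ) ≤ k := Nat.cast_nonneg k
    exact one_div_le_one_div_of_le (by norm_num) (by linarith)
  have hεlim : Tendsto ε (hyperfilter ℕ : Filter ℕ) (𝓝 0) := by
    have h4 : Tendsto ε atTop (𝓝 0) := by
      have h5 : Tendsto (fun k : ℕ => (k : ℝ) + 2) atTop atTop :=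
        tendsto_atTop_add_const_right _ _ tendsto_natCast_atTop_atTop
      exact h5.inv_tendsto_atTop.congr fun k => by simp [hε]
    exact h4.mono_left Nat.hyperfilter_le_atTop
  have hmem : ∀ k, ∀ t ∈ Set.Icc (0 : ℝ) 4, t0 k + t ∈ Set.Ioo (a k) (b k) := fun k t ht =>
    ⟨by linarith [h1 k, ht.1], by linarith [h2 k, ht.2]⟩
  set X : ℕ → ℝ → E n := fun k t => γ k (t0 k + t) with hX
  set V : ℕ → ℝ → E n := fun k t => deriv (γ k) (t0 k + t) with hV
  set x : ℝ → E n := fun t => limUnder (hyperfilter ℕ : Filter ℕ) (fun k => X k t) with hx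
  set v : ℝ → E n := fun t => limUnder (hyperfilter ℕ : Filter ℕ) (fun k => V k t) with hv
  have hxl : ∀ t ∈ Set.Icc (0 : ℝ) 4,
      Tendsto (fun k => X k t) (hyperfilter ℕ : Filter ℕ) (𝓝 (x t)) := fun t ht =>
    tendsto_nhds_limUnder (exists_ulim fun k => hM k _ (hmem k t ht))
  have hvl : ∀ t ∈ Set.Icc (0 : ℝ) 4,
      Tendsto (fun k => V k t) (hyperfilter ℕ : Filter ℕ) (𝓝 (v t)) := fun t ht =>
    tendsto_nhds_limUnder (exists_ulim fun k => by
      have := good_speed_le (hφ k) (hε2 k) (hγ k) (hmem k t ht)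
      simpa using this)
  have hK : ∀ t ∈ Set.Icc (0 : ℝ) 4, ∀ t' ∈ Set.Icc (0 : ℝ) 4,
      ‖x t' - x t - (t' - t) • v t‖ ≤ 12 * C * (t' - t) ^ 2 := by
    intro t ht t' ht'
    have h4 : Tendsto (fun k => ‖X k t' - X k t - (t' - t) • V k t‖) (hyperfilter ℕ : Filter ℕ)
        (𝓝 ‖x t' - x t - (t' - t) • v t‖) :=
      (((hxl t' ht').sub (hxl t ht)).sub ((hvl t ht).const_smul _)).norm
    refine le_of_tendsto h4 (Filter.Eventually.of_forall fun k => ?_)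
    have h5 := taylor_le (γ := γ k) (v := deriv (γ k)) (w := deriv (deriv (γ k))) (C := 12 * C)
      (fun t ht => geod_d1 (hγ k) ht) (fun t ht => geod_d2 (hγ k) ht)
      (fun t ht => good_acc_le (hφ k) hC (hε2 k) (hγ k) (hM k) ht) (by positivity)
      (hmem k t ht) (hmem k t' ht')
    have e : t0 k + t' - (t0 k + t) = t' - t := by ring
    rw [e] at h5
    exact h5
  have hv1 : ∀ t ∈ Set.Icc (0 : ℝ) 4, ‖v t‖ = 1 := by
    intro t ht
    have h4 : Tendsto (fun k => ‖V k t‖) (hyperfilter ℕ : Filter ℕ) (𝓝 ‖v t‖) := (hvl t ht).norm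
    have h5 : Tendsto (fun k => -φ k (X k t)) (hyperfilter ℕ : Filter ℕ) (𝓝 0) := by
      refine squeeze_zero_norm (fun k => ?_) hεlim
      rw [norm_neg, Real.norm_eq_abs]
      exact (hφ k).small _
    have h6 : Tendsto (fun k => ‖V k t‖) (hyperfilter ℕ : Filter ℕ) (𝓝 1) := by
      have h7 := (Real.continuous_exp.tendsto 0).comp h5
      rw [Real.exp_zero] at h7
      refine h7.congr fun k => ?_
      exact (geod_norm (hγ k) (hmem k t ht)).symm
    exact tendsto_nhds_unique h4 h6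
  have hbad : ∃ t ∈ Set.Ioo (0 : ℝ) 4, ¬ (‖x t‖ = 1 ∧ G (x t) = 0) := by
    by_contra hno
    push Not at hno
    exact hN (12 * C) x v hK hv1 hno
  obtain ⟨ts, hts, hbad⟩ := hbad
  have htsI : ts ∈ Set.Icc (0 : ℝ) 4 := Set.Ioo_subset_Icc_self hts
  obtain ⟨η, hη, r, hr, hball⟩ : ∃ η > 0, ∃ r > 0, ∀ y ∈ ball (x ts) r,
      η < |sf y| ∨ η < G y := by
    by_cases hx1 : ‖x ts‖ = 1
    · have hG1 : 0 < G (x ts) := lt_of_le_of_ne (hG0 _) fun h => hbad ⟨hx1, h.symm⟩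
      have h4 : ∀ᶠ y in 𝓝 (x ts), G (x ts) / 2 < G y :=
        hG.continuous.continuousAt.eventually (lt_mem_nhds (by linarith))
      obtain ⟨r, hr, hr2⟩ := Metric.eventually_nhds_iff_ball.1 h4
      exact ⟨G (x ts) / 2, by linarith, r, hr, fun y hy => Or.inr (hr2 y hy)⟩
    · have hs : 0 < |sf (x ts)| := by
        rw [abs_pos]
        intro h0
        apply hx1
        unfold sf at h0
        have h5 : ‖x ts‖ ^ 2 = 1 := by linarith
        nlinarith [norm_nonneg (x ts)]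
      have h4 : ∀ᶠ y in 𝓝 (x ts), |sf (x ts)| / 2 < |sf y| :=
        (sf_contDiff.continuous.abs).continuousAt.eventually (lt_mem_nhds (by linarith))
      obtain ⟨r, hr, hr2⟩ := Metric.eventually_nhds_iff_ball.1 h4
      exact ⟨|sf (x ts)| / 2, by linarith, r, hr, fun y hy => Or.inl (hr2 y hy)⟩
  set τ : ℝ := min (r / 8) (min ts (4 - ts)) with hτ
  have hτ0 : 0 < τ := lt_min (by linarith) (lt_min hts.1 (by linarith [hts.2]))
  have hτr : τ ≤ r / 8 := min_le_left _ _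
  have hτ1 : τ ≤ ts := (min_le_right _ _).trans (min_le_left _ _)
  have hτ2 : τ ≤ 4 - ts := (min_le_right _ _).trans (min_le_right _ _)
  have hev : ∀ᶠ k in (hyperfilter ℕ : Filter ℕ),
      dist (X k ts) (x ts) < r / 2 ∧ ε k < η ∧ 9 * ε k < 4 * τ := by
    have e1 := (Metric.tendsto_nhds.1 (hxl ts htsI)) (r / 2) (by linarith)
    have e2 := hεlim.eventually (gt_mem_nhds hη)
    have e3 := hεlim.eventually (gt_mem_nhds (show (0 : ℝ) < 4 * τ / 9 by positivity))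
    filter_upwards [e1, e2, e3] with k f1 f2 f3
    exact ⟨f1, f2, by linarith⟩
  obtain ⟨k, hk1, hk2, hk3⟩ := hev.exists
  have hlip : ∀ t ∈ Set.Icc (0 : ℝ) 4, dist (X k t) (X k ts) ≤ 2 * |t - ts| := by
    intro t ht
    have h4 := (convex_Ioo (a k) (b k)).norm_image_sub_le_of_norm_hasDerivWithin_le
      (f := γ k) (f' := deriv (γ k)) (C := 2)
      (fun u hu => (geod_d1 (hγ k) hu).hasDerivWithinAt)
      (fun u hu => good_speed_le (hφ k) (hε2 k) (hγ k) hu) (hmem k ts htsI) (hmem k t ht)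
    rw [dist_eq_norm]
    refine h4.trans (le_of_eq ?_)
    rw [Real.norm_eq_abs]
    congr 2
    ring
  have hflat : ∀ t ∈ Set.Ioo (t0 k + (ts - τ)) (t0 k + (ts + τ)),
      (0 : ℝ) ≤ fderiv ℝ (φ k) (γ k t) (γ k t) := by
    intro t ht
    have ht' : t - t0 k ∈ Set.Icc (0 : ℝ) 4 := ⟨by linarith [ht.1], by linarith [ht.2]⟩
    have h4 := hlip _ ht'
    have h5 : |t - t0 k - ts| ≤ τ := abs_le.2 ⟨by linarith [ht.1], by linarith [ht.2]⟩
    have h6 : dist (X k (t - t0 k)) (x ts) < r := by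
      calc dist (X k (t - t0 k)) (x ts) ≤ dist (X k (t - t0 k)) (X k ts) + dist (X k ts) (x ts) :=
            dist_triangle _ _ _
        _ < r := by linarith
    have h7 : X k (t - t0 k) = γ k t := by
      simp only [hX]; congr 1; ring
    rw [h7] at h6
    have h8 : ε k < |sf (γ k t)| ∨ ε k < G (γ k t) := by
      rcases hball _ h6 with h9 | h9
      · exact Or.inl (hk2.trans h9)
      · exact Or.inr (hk2.trans h9)
    rw [((hφ k).flat _ h8).1]
    simp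
  have hrad : ∀ t ∈ Set.Ioo (a k) (b k), -1 - ε k ≤ fderiv ℝ (φ k) (γ k t) (γ k t) :=
    fun t ht => (hφ k).radial _ (hM k t ht)
  have m0 : t0 k ∈ Set.Ioo (a k) (b k) := by simpa using hmem k 0 ⟨le_rfl, by norm_num⟩
  have m1 := hmem k (ts - τ) ⟨by linarith, by linarith [hts.2]⟩
  have m2 := hmem k (ts + τ) ⟨by linarith [hts.1], by linarith⟩
  have m3 := hmem k 4 ⟨by norm_num, le_rfl⟩
  have i1 := good_pf_incr (hφ k) (hγ k) m0 m1 (by linarith) (c := -1 - ε k)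
    (fun t ht => hrad t ⟨by linarith [ht.1, m0.1], by linarith [ht.2, m1.2]⟩)
  have i2 := good_pf_incr (hφ k) (hγ k) m1 m2 (by linarith) (c := 0) hflat
  have i3 := good_pf_incr (hφ k) (hγ k) m2 m3 (by linarith) (c := -1 - ε k)
    (fun t ht => hrad t ⟨by linarith [ht.1, m2.1], by linarith [ht.2, m3.2]⟩)
  have h3k : pf (φ k) (γ k) (t0 k + 4) - pf (φ k) (γ k) (t0 k) < ε k := h3 k
  have j1 : -(2 * ε k * (ts - τ)) ≤ pf (φ k) (γ k) (t0 k + (ts - τ)) - pf (φ k) (γ k) (t0 k) := by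
    refine le_trans (le_of_eq ?_) i1; ring
  have j3 : -(2 * ε k * (4 - (ts + τ)))
      ≤ pf (φ k) (γ k) (t0 k + 4) - pf (φ k) (γ k) (t0 k + (ts + τ)) := by
    refine le_trans (le_of_eq ?_) i3; ring
  have j2 : 4 * τ ≤ pf (φ k) (γ k) (t0 k + (ts + τ)) - pf (φ k) (γ k) (t0 k + (ts - τ)) := by
    refine le_trans (le_of_eq ?_) i2; ring
  have j4 : 2 * ε k * (ts - τ) + 2 * ε k * (4 - (ts + τ)) ≤ 8 * ε k := by
    have := mul_pos (hε0 k) hτ0
    nlinarith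
  linarith

theorem exists_length_bound {G : E n → ℝ} (hG : ContDiff ℝ ∞ G) (hG0 : ∀ x, 0 ≤ G x)
    (hN : NoCurve G) :
    ∃ (C ε : ℝ) (φ : E n → ℝ), ε ≤ 1 / 2 ∧ GoodPot G C ε φ ∧
      ∃ T : ℝ, ∀ (γ : ℝ → E n) (a b : ℝ), IsUnitSpeedGeodesic (conf φ) γ a b →
        (∀ t ∈ Set.Ioo a b, γ t ∈ closedBall (0 : E n) 2) → b - a ≤ T := by
  obtain ⟨C, hC, hpot⟩ := exists_pot hG
  have hp : ∀ k : ℕ, ∃ φ, GoodPot G C (1 / ((k : ℝ) + 2)) φ := by
    intro k
    have h0 : (0 : ℝ) ≤ k := Nat.cast_nonneg k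
    refine hpot _ (by positivity) ?_
    rw [div_le_one (by positivity)]; linarith
  choose φ hφ using hp
  obtain ⟨k, c, hc, hk⟩ := step hG hG0 hN hC φ hφ
  have hεk : 1 / ((k : ℝ) + 2) ≤ 1 / 2 := by
    have : (0 : ℝ) ≤ k := Nat.cast_nonneg k
    exact one_div_le_one_div_of_le (by norm_num) (by linarith)
  refine ⟨C, _, φ k, hεk, hφ k, ?_⟩
  obtain ⟨N, hN⟩ := exists_nat_gt (48 / c)
  refine ⟨4 * N + 1, fun γ a b hγ hM => ?_⟩
  by_contra hlong
  push Not at hlong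
  have hind : ∀ j : ℕ, j ≤ N →
      j * c ≤ pf (φ k) γ (a + 1 / 2 + 4 * j) - pf (φ k) γ (a + 1 / 2) := by
    intro j
    induction j with
    | zero => intro _; simp
    | succ j ih =>
      intro hj
      have h1 := ih (by omega)
      have hjN : ((j : ℝ) + 1) ≤ N := by exact_mod_cast hj
      have h2 := hk γ a b hγ hM (a + 1 / 2 + 4 * j) (by
        have : (0 : ℝ) ≤ j := Nat.cast_nonneg j
        linarith) (by linarith)
      have e : a + 1 / 2 + 4 * ((j : ℝ) + 1) = a + 1 / 2 + 4 * j + 4 := by ring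
      push_cast
      rw [e]
      linarith
  have h1 := hind N le_rfl
  have hN0 : (0 : ℝ) ≤ N := Nat.cast_nonneg N
  have h2 := good_pf_le (hφ k) hεk hγ hM (t := a + 1 / 2 + 4 * N) ⟨by linarith, by linarith⟩
  have h3 := good_pf_le (hφ k) hεk hγ hM (t := a + 1 / 2) ⟨by linarith, by linarith⟩
  have h4 := (abs_le.1 h2).2
  have h5 := (abs_le.1 h3).1
  have h6 : 48 < N * c := by
    rw [div_lt_iff₀ hc] at hN; exact hN
  linarith

end

end Pool.Agent.H498R3.NT
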